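import Mathlib

/-!
# The functions of the linear sieve

`F1`, `f1` solve `(s F1)' = f1 (s-1)`, `(s f1)' = F1 (s-1)` with `s F1 = 1` on `[1,3]` and `s f1 = log (s-1)`
on `[2,4]`. We show that `F1` is decreasing, `f1` is increasing and `f1 < F1`, so that suitable multiples
satisfy `f ≤ 1 ≤ F`.
-/

set_option autoImplicit false

namespace Pool.Agent.H90.LS

open MeasureTheory Set Filter Topology

/-- approximations of the solution of `(s y)' = e * y (s-1)` for `s > 2`, `s y = 1` on `[1,2]` -/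
noncomputable def YY (e : ℝ) : ℕ → ℝ → ℝ
  | 0, s => 1 / max s 1
  | n + 1, s => (1 + e * ∫ t in (2 : ℝ)..(max s 2), YY e n (t - 1)) / max s 1

lemma YY_zero (e s : ℝ) : YY e 0 s = 1 / max s 1 := rfl

lemma YY_succ (e : ℝ) (n : ℕ) (s : ℝ) :
    YY e (n + 1) s = (1 + e * ∫ t in (2 : ℝ)..(max s 2), YY e n (t - 1)) / max s 1 := rfl

lemma max_one_pos (s : ℝ) : 0 < max s 1 := lt_of_lt_of_le one_pos (le_max_right _ _)

lemma continuous_YY (e : ℝ) (n : ℕ) : Continuous (YY e n) := by
  induction n with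
  | zero =>
    have h0 : YY e 0 = fun s => 1 / max s 1 := rfl
    rw [h0]
    exact continuous_const.div (continuous_id.max continuous_const) fun s => (max_one_pos s).ne'
  | succ n ih =>
    have h1 : Continuous (fun s : ℝ => ∫ t in (2 : ℝ)..s, YY e n (t - 1)) := by
      have h2 : Continuous (fun t : ℝ => YY e n (t - 1)) := ih.comp (continuous_id.sub continuous_const)
      exact intervalIntegral.continuous_primitive (fun a b => h2.intervalIntegrable a b) 2
    have h3 : Continuous (fun s : ℝ => ∫ t in (2 : ℝ)..(max s 2), YY e n (t - 1)) :=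
      h1.comp (continuous_id.max continuous_const)
    have h0 : YY e (n + 1) = fun s => (1 + e * ∫ t in (2 : ℝ)..(max s 2), YY e n (t - 1)) / max s 1 :=
      rfl
    rw [h0]
    exact (continuous_const.add (continuous_const.mul h3)).div
      (continuous_id.max continuous_const) fun s => (max_one_pos s).ne'

lemma YY_stable (e : ℝ) (n : ℕ) : ∀ m, n ≤ m → ∀ s : ℝ, s ≤ n + 2 → YY e m s = YY e n s := by
  induction n with
  | zero =>
    intro m _ s hs
    cases m with
    | zero => rfl
    | succ m =>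
      have h1 : max s 2 = 2 := max_eq_right (by simpa using hs)
      rw [YY_succ, h1, intervalIntegral.integral_same, mul_zero, add_zero, YY_zero]
  | succ n ih =>
    intro m hm s hs
    obtain ⟨m, rfl⟩ : ∃ m', m = m' + 1 := ⟨m - 1, by omega⟩
    rw [YY_succ, YY_succ]
    congr 3
    apply intervalIntegral.integral_congr
    intro t ht
    simp only
    rw [uIcc_of_le (le_max_right _ _)] at ht
    apply ih m (by omega)
    have h1 : max s 2 ≤ n + 3 := max_le (by push_cast at hs; linarith) (by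
      have : (0 : ℝ) ≤ n := Nat.cast_nonneg n
      linarith)
    linarith [ht.2]

/-- the solution -/
noncomputable def Y (e s : ℝ) : ℝ := YY e ⌈s⌉₊ s

lemma Y_eq_YY (e s : ℝ) (m : ℕ) (h : s ≤ m) : Y e s = YY e m s := by
  unfold Y
  symm
  apply YY_stable e ⌈s⌉₊ m (Nat.ceil_le.mpr h)
  have := Nat.le_ceil s
  linarith

lemma continuous_Y (e : ℝ) : Continuous (Y e) := by
  rw [continuous_iff_continuousAt]
  intro x
  obtain ⟨m, hm⟩ := exists_nat_gt x
  have h1 : Y e =ᶠ[𝓝 x] YY e m := by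
    filter_upwards [Iio_mem_nhds hm] with s hs
    exact Y_eq_YY e s m (le_of_lt hs)
  exact ((continuous_YY e m).continuousAt).congr h1.symm

lemma Y_eq (e s : ℝ) : Y e s = (1 + e * ∫ t in (2 : ℝ)..(max s 2), Y e (t - 1)) / max s 1 := by
  rw [Y_eq_YY e s (⌈s⌉₊ + 1) (by push_cast; linarith [Nat.le_ceil s]), YY_succ]
  congr 3
  apply intervalIntegral.integral_congr
  intro t ht
  simp only
  rw [uIcc_of_le (le_max_right _ _)] at ht
  rcases le_total s 2 with h | h
  · rw [max_eq_right h] at ht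
    have ht2 : t = 2 := le_antisymm ht.2 ht.1
    subst ht2
    -- `Y e 1`
    rw [Y_eq_YY e (2 - 1) (max ⌈s⌉₊ 1) (by push_cast; norm_num)]
    symm
    apply YY_stable e ⌈s⌉₊ _ (le_max_left _ _)
    have : (0 : ℝ) ≤ (⌈s⌉₊ : ℝ) := Nat.cast_nonneg _
    linarith
  · rw [max_eq_left h] at ht
    rw [Y_eq_YY e (t - 1) ⌈s⌉₊]
    have := Nat.le_ceil s
    linarith [ht.2]

lemma Y_of_le_two (e : ℝ) {s : ℝ} (hs : s ≤ 2) : Y e s = 1 / max s 1 := by
  rw [Y_eq, max_eq_right hs, intervalIntegral.integral_same, mul_zero, add_zero]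

/-- the upper function -/
noncomputable def F1 (s : ℝ) : ℝ := (Y 1 s + Y (-1) s) / 2

/-- the lower function -/
noncomputable def f1 (s : ℝ) : ℝ := (Y 1 s - Y (-1) s) / 2

lemma continuous_F1 : Continuous F1 := ((continuous_Y 1).add (continuous_Y (-1))).div_const 2
lemma continuous_f1 : Continuous f1 := ((continuous_Y 1).sub (continuous_Y (-1))).div_const 2

lemma F1_of_le_two {s : ℝ} (hs : s ≤ 2) : F1 s = 1 / max s 1 := by
  unfold F1; rw [Y_of_le_two 1 hs, Y_of_le_two (-1) hs]; ring

lemma f1_of_le_two {s : ℝ} (hs : s ≤ 2) : f1 s = 0 := by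
  unfold f1; rw [Y_of_le_two 1 hs, Y_of_le_two (-1) hs]; ring

lemma F1_sub_f1 (s : ℝ) : F1 s - f1 s = Y (-1) s := by unfold F1 f1; ring

lemma intervalIntegrable_Y (e a b : ℝ) : IntervalIntegrable (fun t => Y e (t - 1)) volume a b :=
  ((continuous_Y e).comp (continuous_id.sub continuous_const)).intervalIntegrable a b

/-- `s F1 s` -/
noncomputable def yF (s : ℝ) : ℝ := 1 + ∫ t in (2 : ℝ)..s, f1 (t - 1)

/-- `s f1 s` for `s ≥ 2` -/
noncomputable def xf (s : ℝ) : ℝ := ∫ t in (2 : ℝ)..s, F1 (t - 1)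

lemma F1_eq {s : ℝ} (hs : 1 ≤ s) : F1 s = yF s / s := by
  have h1 : ∫ t in (2 : ℝ)..s, f1 (t - 1) = ∫ t in (2 : ℝ)..(max s 2), f1 (t - 1) := by
    rcases le_total s 2 with h | h
    · rw [max_eq_right h, intervalIntegral.integral_same]
      have : ∫ t in (2 : ℝ)..s, f1 (t - 1) = ∫ t in (2 : ℝ)..s, (0 : ℝ) := by
        apply intervalIntegral.integral_congr
        intro t ht
        rw [uIcc_of_ge h] at ht
        exact f1_of_le_two (by linarith [ht.2])
      rw [this]; simp
    · rw [max_eq_left h]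
  unfold yF
  rw [h1]
  unfold F1 f1
  rw [Y_eq 1 s, Y_eq (-1) s, max_eq_left hs, intervalIntegral.integral_div,
    intervalIntegral.integral_sub (intervalIntegrable_Y _ _ _) (intervalIntegrable_Y _ _ _)]
  ring

lemma f1_eq {s : ℝ} (hs : 2 ≤ s) : f1 s = xf s / s := by
  unfold xf F1 f1
  rw [Y_eq 1 s, Y_eq (-1) s, max_eq_left hs, max_eq_left (by linarith), intervalIntegral.integral_div,
    intervalIntegral.integral_add (intervalIntegrable_Y _ _ _) (intervalIntegrable_Y _ _ _)]
  ring

lemma hasDerivAt_primitive (g : ℝ → ℝ) (hg : Continuous g) (s : ℝ) :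
    HasDerivAt (fun s => ∫ t in (2 : ℝ)..s, g (t - 1)) (g (s - 1)) s := by
  have h2 : Continuous (fun t : ℝ => g (t - 1)) := hg.comp (continuous_id.sub continuous_const)
  exact intervalIntegral.integral_hasDerivAt_right (h2.intervalIntegrable _ _)
    (h2.stronglyMeasurableAtFilter _ _) h2.continuousAt

lemma hasDerivAt_yF (s : ℝ) : HasDerivAt yF (f1 (s - 1)) s :=
  (hasDerivAt_primitive f1 continuous_f1 s).const_add 1

lemma hasDerivAt_xf (s : ℝ) : HasDerivAt xf (F1 (s - 1)) s :=
  hasDerivAt_primitive F1 continuous_F1 s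

/-! ### positivity of the difference -/

lemma Ym_eq {s : ℝ} (hs : 2 ≤ s) : s * Y (-1) s = 1 - ∫ t in (2 : ℝ)..s, Y (-1) (t - 1) := by
  rw [Y_eq, max_eq_left hs, max_eq_left (by linarith)]
  field_simp
  ring

lemma Ym_identity {s : ℝ} (hs : 2 ≤ s) :
    (s - 1) * (s * Y (-1) s) = ∫ t in (s - 1)..s, t * Y (-1) t := by
  set M : ℝ → ℝ := Y (-1) with hM
  have hMc : Continuous M := continuous_Y _
  set m : ℝ → ℝ := fun t => t * M t with hm
  have hmc : Continuous m := continuous_id.mul hMc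
  set Q : ℝ → ℝ := fun s => (s - 1) * (1 - ∫ t in (2 : ℝ)..s, M (t - 1)) -
    ((∫ t in (2 : ℝ)..s, m t) - ∫ t in (2 : ℝ)..(s - 1), m t) with hQ
  have hd : ∀ x, 2 ≤ x → HasDerivAt Q 0 x := by
    intro x hx
    have h1 : HasDerivAt (fun s : ℝ => s - 1) 1 x := (hasDerivAt_id x).sub_const 1
    have h2 : HasDerivAt (fun s : ℝ => 1 - ∫ t in (2 : ℝ)..s, M (t - 1)) (-(M (x - 1))) x := by
      have := (hasDerivAt_primitive M hMc x).const_sub 1
      exact this
    have h3 : HasDerivAt (fun s : ℝ => ∫ t in (2 : ℝ)..s, m t) (m x) x :=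
      intervalIntegral.integral_hasDerivAt_right (hmc.intervalIntegrable _ _)
        (hmc.stronglyMeasurableAtFilter _ _) hmc.continuousAt
    have h4 : HasDerivAt (fun s : ℝ => ∫ t in (2 : ℝ)..(s - 1), m t) (m (x - 1)) x := by
      have h5 : HasDerivAt (fun s : ℝ => ∫ t in (2 : ℝ)..s, m t) (m (x - 1)) (x - 1) :=
        intervalIntegral.integral_hasDerivAt_right (hmc.intervalIntegrable _ _)
          (hmc.stronglyMeasurableAtFilter _ _) hmc.continuousAt
      have h6 := HasDerivAt.comp x h5 h1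
      rw [mul_one] at h6
      exact h6
    have h7 := (h1.mul h2).sub (h3.sub h4)
    refine h7.congr_deriv ?_
    have h8 := Ym_eq hx
    simp only [hm]
    rw [← h8]
    ring
  have hQ2 : Q 2 = 0 := by
    simp only [hQ, intervalIntegral.integral_same]
    have h1 : ∫ t in (2 : ℝ)..(2 - 1), m t = ∫ t in (2 : ℝ)..(2 - 1), (1 : ℝ) := by
      apply intervalIntegral.integral_congr
      intro t ht
      rw [uIcc_of_ge (by norm_num)] at ht
      have ht1 : 1 ≤ t := by linarith [ht.1]
      have ht2 : t ≤ 2 := ht.2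
      simp only [hm, hM]
      rw [Y_of_le_two _ ht2, max_eq_left ht1]
      field_simp
    rw [h1]
    simp
    norm_num
  have hconst : Q s = Q 2 := by
    apply constant_of_has_deriv_right_zero (a := 2) (b := s)
    · intro x hx
      exact (hd x hx.1).continuousAt.continuousWithinAt
    · intro x hx
      exact (hd x hx.1).hasDerivWithinAt
    · exact ⟨hs, le_rfl⟩
  rw [hQ2] at hconst
  simp only [hQ] at hconst
  have h1 : (∫ t in (2 : ℝ)..s, m t) - ∫ t in (2 : ℝ)..(s - 1), m t = ∫ t in (s - 1)..s, m t := by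
    rw [intervalIntegral.integral_interval_sub_left (hmc.intervalIntegrable _ _)
      (hmc.intervalIntegrable _ _)]
  rw [h1, ← Ym_eq hs] at hconst
  linarith

lemma Ym_pos {s : ℝ} (hs : 1 ≤ s) : 0 < Y (-1) s := by
  by_contra hcon
  push Not at hcon
  set Z : Set ℝ := {s | 1 ≤ s ∧ Y (-1) s ≤ 0} with hZ
  have hZne : Z.Nonempty := ⟨s, hs, hcon⟩
  have hZb : BddBelow Z := ⟨1, fun x hx => hx.1⟩
  have hZc : IsClosed Z := by
    apply IsClosed.inter (isClosed_le continuous_const continuous_id)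
    exact isClosed_le (continuous_Y _) continuous_const
  set s0 := sInf Z with hs0
  have hmem : s0 ∈ Z := hZc.csInf_mem hZne hZb
  have hlt : ∀ t, 1 ≤ t → t < s0 → 0 < Y (-1) t := by
    intro t ht hts
    by_contra h
    push Not at h
    exact absurd (csInf_le hZb ⟨ht, h⟩) (not_le.mpr hts)
  have h2 : 2 < s0 := by
    by_contra h
    push Not at h
    have h3 := hmem.2
    rw [Y_of_le_two _ h, max_eq_left hmem.1] at h3
    have : 0 < 1 / s0 := by have := hmem.1; positivity
    linarith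
  have h3 := Ym_identity h2.le
  have h4 : 0 < ∫ t in (s0 - 1)..s0, t * Y (-1) t := by
    apply intervalIntegral.intervalIntegral_pos_of_pos_on
    · exact (continuous_id.mul (continuous_Y _)).intervalIntegrable _ _
    · intro t ht
      have ht1 : 1 < t := by linarith [ht.1]
      exact mul_pos (by linarith) (hlt t ht1.le ht.2)
    · linarith
  rw [← h3] at h4
  have h5 := hmem.2
  have h6 : 0 < (s0 - 1) * s0 := by nlinarith
  nlinarith

/-! ### monotonicity -/

lemma F1_of_le_three {s : ℝ} (h1 : 1 ≤ s) (h3 : s ≤ 3) : F1 s = 1 / s := by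
  rw [F1_eq h1]
  unfold yF
  have : ∫ t in (2 : ℝ)..s, f1 (t - 1) = ∫ t in (2 : ℝ)..s, (0 : ℝ) := by
    apply intervalIntegral.integral_congr
    intro t ht
    apply f1_of_le_two
    have := (uIcc_subset_uIcc_iff_le.mp (le_refl (uIcc (2:ℝ) s)))
    rw [mem_uIcc] at ht
    rcases ht with ht | ht <;> linarith [ht.2]
  rw [this]; simp

lemma F1_one : F1 1 = 1 := by rw [F1_of_le_three le_rfl (by norm_num)]; norm_num

lemma f1_two : f1 2 = 0 := f1_of_le_two le_rfl

/-- `F1 s - f1 (s-1)` -/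
noncomputable def PP (s : ℝ) : ℝ := F1 s - f1 (s - 1)
/-- `F1 (s-1) - f1 s` -/
noncomputable def RR (s : ℝ) : ℝ := F1 (s - 1) - f1 s

lemma hasDerivAt_yF_div {s : ℝ} (hs : 0 < s) : HasDerivAt (fun s => yF s / s)
    ((f1 (s - 1) * s - yF s * 1) / s ^ 2) s :=
  (hasDerivAt_yF s).div (hasDerivAt_id s) hs.ne'

lemma hasDerivAt_F1 {s : ℝ} (hs : 1 < s) : HasDerivAt F1 (-(PP s) / s) s := by
  have h1 := hasDerivAt_yF_div (s := s) (by linarith)
  have h2 : F1 =ᶠ[𝓝 s] fun s => yF s / s := by
    filter_upwards [Ioi_mem_nhds hs] with t ht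
    exact F1_eq (le_of_lt ht)
  refine (h1.congr_of_eventuallyEq h2).congr_deriv ?_
  unfold PP
  rw [F1_eq hs.le]
  field_simp
  ring

lemma hasDerivAt_f1 {s : ℝ} (hs : 2 < s) : HasDerivAt f1 (RR s / s) s := by
  have h1 : HasDerivAt (fun s => xf s / s) ((F1 (s - 1) * s - xf s * 1) / s ^ 2) s :=
    (hasDerivAt_xf s).div (hasDerivAt_id s) (by linarith)
  have h2 : f1 =ᶠ[𝓝 s] fun s => xf s / s := by
    filter_upwards [Ioi_mem_nhds hs] with t ht
    exact f1_eq (le_of_lt ht)
  refine (h1.congr_of_eventuallyEq h2).congr_deriv ?_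
  unfold RR
  rw [f1_eq hs.le]
  field_simp

lemma continuous_PP : Continuous PP :=
  continuous_F1.sub (continuous_f1.comp (continuous_id.sub continuous_const))
lemma continuous_RR : Continuous RR :=
  (continuous_F1.comp (continuous_id.sub continuous_const)).sub continuous_f1

lemma PP_pos_small {s : ℝ} (h1 : 1 ≤ s) (h3 : s ≤ 3) : 0 < PP s := by
  unfold PP
  rw [F1_of_le_three h1 h3, f1_of_le_two (by linarith), sub_zero]
  positivity

lemma RR_pos_small {s : ℝ} (h2 : 2 ≤ s) (h3 : s ≤ 3) : 0 < RR s := by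
  unfold RR
  rw [F1_of_le_three (by linarith) (by linarith), f1_eq h2]
  have h4 : xf s ≤ (s - 2) * 1 := by
    unfold xf
    have h5 : ∫ t in (2 : ℝ)..s, F1 (t - 1) ≤ ∫ t in (2 : ℝ)..s, (1 : ℝ) := by
      apply intervalIntegral.integral_mono_on h2
      · exact (continuous_F1.comp (continuous_id.sub continuous_const)).intervalIntegrable _ _
      · exact continuous_const.intervalIntegrable _ _
      · intro t ht
        rw [F1_of_le_three (by linarith [ht.1]) (by linarith [ht.2])]
        rw [div_le_one (by linarith [ht.1])]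
        linarith [ht.1]
    simpa using h5
  have h6 : xf s / s < 1 / (s - 1) := by
    rw [div_lt_div_iff₀ (by linarith) (by linarith)]
    nlinarith
  linarith

lemma PP_RR_pos {s : ℝ} (hs : 2 ≤ s) : 0 < PP s ∧ 0 < RR s := by
  by_contra hcon
  set Z : Set ℝ := {s | 2 ≤ s ∧ (PP s ≤ 0 ∨ RR s ≤ 0)} with hZ
  have hZne : Z.Nonempty := by
    refine ⟨s, hs, ?_⟩
    by_contra h
    push Not at h
    exact hcon h
  have hZb : BddBelow Z := ⟨2, fun x hx => hx.1⟩
  have hZc : IsClosed Z := by
    apply IsClosed.inter (isClosed_le continuous_const continuous_id)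
    exact (isClosed_le continuous_PP continuous_const).union
      (isClosed_le continuous_RR continuous_const)
  set s0 := sInf Z with hs0
  have hmem : s0 ∈ Z := hZc.csInf_mem hZne hZb
  have hlt : ∀ t, 2 ≤ t → t < s0 → 0 < PP t ∧ 0 < RR t := by
    intro t ht hts
    by_contra h
    rw [not_and_or, not_lt, not_lt] at h
    exact absurd (csInf_le hZb ⟨ht, h⟩) (not_le.mpr hts)
  have h3 : 3 < s0 := by
    by_contra h
    push Not at h
    rcases hmem.2 with h4 | h4
    · exact absurd h4 (not_le.mpr (PP_pos_small (by linarith [hmem.1]) h))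
    · exact absurd h4 (not_le.mpr (RR_pos_small hmem.1 h))
  have hpos : 0 < F1 s0 - f1 s0 := by
    rw [F1_sub_f1]; exact Ym_pos (by linarith)
  have hf : f1 (s0 - 1) ≤ f1 s0 := by
    have hmono : MonotoneOn f1 (Icc (s0 - 1) s0) := by
      apply monotoneOn_of_deriv_nonneg (convex_Icc _ _) continuous_f1.continuousOn
      · intro t ht
        rw [interior_Icc] at ht
        exact (hasDerivAt_f1 (by linarith [ht.1])).differentiableAt.differentiableWithinAt
      · intro t ht
        rw [interior_Icc] at ht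
        rw [(hasDerivAt_f1 (by linarith [ht.1])).deriv]
        exact div_nonneg (hlt t (by linarith [ht.1]) ht.2).2.le (by linarith [ht.1])
    exact hmono ⟨le_rfl, by linarith⟩ ⟨by linarith, le_rfl⟩ (by linarith)
  have hF : F1 s0 ≤ F1 (s0 - 1) := by
    have hanti : AntitoneOn F1 (Icc (s0 - 1) s0) := by
      apply antitoneOn_of_deriv_nonpos (convex_Icc _ _) continuous_F1.continuousOn
      · intro t ht
        rw [interior_Icc] at ht
        exact (hasDerivAt_F1 (by linarith [ht.1])).differentiableAt.differentiableWithinAt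
      · intro t ht
        rw [interior_Icc] at ht
        rw [(hasDerivAt_F1 (by linarith [ht.1])).deriv]
        exact div_nonpos_of_nonpos_of_nonneg
          (by linarith [(hlt t (by linarith [ht.1]) ht.2).1]) (by linarith [ht.1])
    exact hanti ⟨le_rfl, by linarith⟩ ⟨by linarith, le_rfl⟩ (by linarith)
  rcases hmem.2 with h4 | h4
  · unfold PP at h4; linarith
  · unfold RR at h4; linarith

lemma F1_antitone : AntitoneOn F1 (Ici 1) := by
  apply antitoneOn_of_deriv_nonpos (convex_Ici _) continuous_F1.continuousOn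
  · intro t ht
    rw [interior_Ici] at ht
    exact (hasDerivAt_F1 ht).differentiableAt.differentiableWithinAt
  · intro t ht
    rw [interior_Ici] at ht
    rw [mem_Ioi] at ht
    rw [(hasDerivAt_F1 ht).deriv]
    apply div_nonpos_of_nonpos_of_nonneg _ (by linarith)
    rcases le_total t 2 with h | h
    · linarith [PP_pos_small ht.le (by linarith : t ≤ 3)]
    · linarith [(PP_RR_pos h).1]

lemma f1_monotone : Monotone f1 := by
  have h1 : MonotoneOn f1 (Ici 2) := by
    apply monotoneOn_of_deriv_nonneg (convex_Ici _) continuous_f1.continuousOn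
    · intro t ht
      rw [interior_Ici] at ht
      exact (hasDerivAt_f1 ht).differentiableAt.differentiableWithinAt
    · intro t ht
      rw [interior_Ici] at ht
      rw [mem_Ioi] at ht
      rw [(hasDerivAt_f1 ht).deriv]
      exact div_nonneg (PP_RR_pos ht.le).2.le (by linarith)
  intro a b hab
  rcases le_total b 2 with hb | hb
  · rw [f1_of_le_two hb, f1_of_le_two (hab.trans hb)]
  · rcases le_total a 2 with ha | ha
    · rw [f1_of_le_two ha, ← f1_two]
      exact h1 (mem_Ici.mpr le_rfl) hb hb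
    · exact h1 ha hb hab

lemma f1_nonneg (s : ℝ) : 0 ≤ f1 s := by
  have h := f1_monotone (min_le_left s 2)
  rwa [f1_of_le_two (min_le_right s 2)] at h

lemma f1_lt_F1 (s : ℝ) {t : ℝ} (ht : 1 ≤ t) : f1 s < F1 t := by
  set u := max s t with hu
  have hu1 : 1 ≤ u := ht.trans (le_max_right _ _)
  have h1 : f1 s ≤ f1 u := f1_monotone (le_max_left _ _)
  have h2 : F1 u ≤ F1 t := F1_antitone ht hu1 (le_max_right _ _)
  have h3 : 0 < F1 u - f1 u := by rw [F1_sub_f1]; exact Ym_pos hu1
  linarith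

lemma F1_le_one {s : ℝ} (hs : 1 ≤ s) : F1 s ≤ 1 := by
  rw [← F1_one]; exact F1_antitone (mem_Ici.mpr le_rfl) hs hs

lemma f1_of_le_four {s : ℝ} (h2 : 2 ≤ s) (h4 : s ≤ 4) : f1 s = Real.log (s - 1) / s := by
  rw [f1_eq h2]
  congr 1
  unfold xf
  have h1 : ∫ t in (2 : ℝ)..s, F1 (t - 1) = ∫ t in (2 : ℝ)..s, 1 / (t - 1) := by
    apply intervalIntegral.integral_congr
    intro t ht
    rw [uIcc_of_le h2] at ht
    exact F1_of_le_three (by linarith [ht.1]) (by linarith [ht.2])
  rw [h1]
  have h3 : ∀ t ∈ uIcc 2 s, HasDerivAt (fun t : ℝ => Real.log (t - 1)) (1 / (t - 1)) t := by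
    intro t ht
    rw [uIcc_of_le h2] at ht
    have := ((hasDerivAt_id t).sub_const 1).log (by simp only [id]; linarith [ht.1])
    exact this
  rw [intervalIntegral.integral_eq_sub_of_hasDerivAt h3]
  · norm_num
  · apply ContinuousOn.intervalIntegrable
    intro t ht
    rw [uIcc_of_le h2] at ht
    have hne : t - 1 ≠ 0 := by linarith [ht.1]
    exact (continuousAt_const.div (continuousAt_id.sub continuousAt_const)
      hne).continuousWithinAt

/-! ### normalisation -/

/-- the infimum of `F1` -/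
noncomputable def c0 : ℝ := sInf (F1 '' Ici 1)

lemma c0_le {t : ℝ} (ht : 1 ≤ t) : c0 ≤ F1 t :=
  csInf_le ⟨0, by rintro y ⟨x, hx, rfl⟩; exact (f1_nonneg 0).trans (f1_lt_F1 0 hx).le⟩
    ⟨t, ht, rfl⟩

lemma f1_le_c0 (s : ℝ) : f1 s ≤ c0 :=
  le_csInf ⟨F1 1, 1, mem_Ici.mpr le_rfl, rfl⟩ (by rintro y ⟨x, hx, rfl⟩; exact (f1_lt_F1 s hx).le)

lemma c0_pos : 0 < c0 := by
  refine lt_of_lt_of_le ?_ (f1_le_c0 4)
  rw [f1_of_le_four (by norm_num) le_rfl]
  have : 0 < Real.log (4 - 1) := Real.log_pos (by norm_num)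
  positivity

lemma c0_le_one : c0 ≤ 1 := F1_one ▸ c0_le le_rfl

/-- the constant of the linear sieve (in fact `2 e^γ`, which is not used) -/
noncomputable def AA : ℝ := 1 / c0

lemma one_le_AA : 1 ≤ AA := by
  unfold AA; rw [le_div_iff₀ c0_pos]; linarith [c0_le_one]

lemma AA_pos : 0 < AA := lt_of_lt_of_le one_pos one_le_AA

/-- the normalised upper function -/
noncomputable def FF (s : ℝ) : ℝ := AA * F1 s
/-- the normalised lower function -/
noncomputable def ff (s : ℝ) : ℝ := AA * f1 s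

lemma one_le_FF {s : ℝ} (hs : 1 ≤ s) : 1 ≤ FF s := by
  unfold FF AA
  rw [one_div_mul_eq_div, le_div_iff₀ c0_pos, one_mul]
  exact c0_le hs

lemma ff_le_one (s : ℝ) : ff s ≤ 1 := by
  unfold ff AA
  rw [one_div_mul_eq_div, div_le_iff₀ c0_pos, one_mul]
  exact f1_le_c0 s

lemma ff_nonneg (s : ℝ) : 0 ≤ ff s := mul_nonneg AA_pos.le (f1_nonneg s)

lemma FF_le {s : ℝ} (hs : 1 ≤ s) : FF s ≤ AA := by
  have := mul_le_mul_of_nonneg_left (F1_le_one hs) AA_pos.le
  unfold FF; linarith

lemma FF_of_le_three {s : ℝ} (h1 : 1 ≤ s) (h3 : s ≤ 3) : FF s = AA / s := by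
  unfold FF; rw [F1_of_le_three h1 h3]; ring

lemma ff_of_le_four {s : ℝ} (h2 : 2 ≤ s) (h4 : s ≤ 4) : ff s = AA * Real.log (s - 1) / s := by
  unfold ff; rw [f1_of_le_four h2 h4]; ring

lemma ff_of_le_two {s : ℝ} (hs : s ≤ 2) : ff s = 0 := by
  unfold ff; rw [f1_of_le_two hs, mul_zero]

lemma continuous_FF : Continuous FF := continuous_const.mul continuous_F1
lemma continuous_ff : Continuous ff := continuous_const.mul continuous_f1

/-! ### Lipschitz bounds -/

lemma F1_lipschitz {s t : ℝ} (hs : 1 ≤ s) (ht : 1 ≤ t) : |F1 s - F1 t| ≤ |s - t| := by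
  have h1 : ∀ x ∈ Ici (1 : ℝ), HasDerivWithinAt F1 (-(PP x) / x) (Ici 1) x := by
    intro x hx
    rw [mem_Ici] at hx
    have h2 := (hasDerivAt_yF_div (s := x) (by linarith)).hasDerivWithinAt (s := Ici 1)
    refine (h2.congr (fun y hy => F1_eq hy) (F1_eq hx)).congr_deriv ?_
    unfold PP
    rw [F1_eq hx]
    field_simp
    ring
  have h2 : ∀ x ∈ Ici (1 : ℝ), ‖-(PP x) / x‖ ≤ 1 := by
    intro x hx
    rw [mem_Ici] at hx
    have hP0 : 0 < PP x := by
      rcases le_total x 2 with h | h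
      · exact PP_pos_small hx (by linarith)
      · exact (PP_RR_pos h).1
    rw [norm_div, norm_neg, Real.norm_of_nonneg hP0.le, Real.norm_of_nonneg (by linarith),
      div_le_one (by linarith)]
    have := f1_nonneg (x - 1)
    have := F1_le_one hx
    unfold PP
    linarith
  have h3 := (convex_Ici (1 : ℝ)).norm_image_sub_le_of_norm_hasDerivWithin_le h1 h2
    (mem_Ici.mpr ht) (mem_Ici.mpr hs)
  rw [one_mul] at h3
  exact h3

lemma f1_lipschitz {s t : ℝ} (hs : 2 ≤ s) (ht : 2 ≤ t) : |f1 s - f1 t| ≤ |s - t| := by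
  have h1 : ∀ x ∈ Ici (2 : ℝ), HasDerivWithinAt f1 (RR x / x) (Ici 2) x := by
    intro x hx
    rw [mem_Ici] at hx
    have h2 : HasDerivAt (fun s => xf s / s) ((F1 (x - 1) * x - xf x * 1) / x ^ 2) x :=
      (hasDerivAt_xf x).div (hasDerivAt_id x) (by linarith)
    refine ((h2.hasDerivWithinAt (s := Ici 2)).congr (fun y hy => f1_eq hy) (f1_eq hx)).congr_deriv ?_
    unfold RR
    rw [f1_eq hx]
    field_simp
  have h2 : ∀ x ∈ Ici (2 : ℝ), ‖RR x / x‖ ≤ 1 := by
    intro x hx
    rw [mem_Ici] at hx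
    have hR0 : 0 < RR x := (PP_RR_pos hx).2
    rw [norm_div, Real.norm_of_nonneg hR0.le, Real.norm_of_nonneg (by linarith),
      div_le_one (by linarith)]
    have := f1_nonneg x
    have := F1_le_one (s := x - 1) (by linarith)
    unfold RR
    linarith
  have h3 := (convex_Ici (2 : ℝ)).norm_image_sub_le_of_norm_hasDerivWithin_le h1 h2
    (mem_Ici.mpr ht) (mem_Ici.mpr hs)
  rw [one_mul] at h3
  exact h3

/-! ### integral equations -/

lemma hasDerivAt_div_const (l : ℝ) {u : ℝ} (hu : u ≠ 0) :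
    HasDerivAt (fun u : ℝ => l / u) (-l / u ^ 2) u := by
  have := (hasDerivAt_const u l).div (hasDerivAt_id u) hu
  refine this.congr_deriv ?_
  simp

/-- (E+) -/
lemma FF_integral {l v : ℝ} (hv : 1 ≤ v) (hvl : v ≤ l) :
    FF (l / v) / v = FF l - ∫ u in (1 : ℝ)..v, ff (l / u - 1) / u ^ 2 := by
  have hl : 0 < l := by linarith
  have h1 : ∀ u ∈ uIcc 1 v, HasDerivAt (fun u => - (AA * yF (l / u) / l)) (ff (l / u - 1) / u ^ 2) u := by
    intro u hu
    rw [uIcc_of_le hv] at hu
    have hu0 : u ≠ 0 := by linarith [hu.1]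
    have h2 : HasDerivAt (fun u => yF (l / u)) (f1 (l / u - 1) * (-l / u ^ 2)) u :=
      (hasDerivAt_yF (l / u)).comp u (hasDerivAt_div_const l hu0)
    refine (((h2.const_mul AA).div_const l).neg).congr_deriv ?_
    unfold ff
    field_simp
  have hcont : ContinuousOn (fun u => ff (l / u - 1) / u ^ 2) (uIcc 1 v) := by
    intro u hu
    rw [uIcc_of_le hv] at hu
    have hu0 : u ≠ 0 := by linarith [hu.1]
    apply ContinuousAt.continuousWithinAt
    apply ContinuousAt.div
    · exact continuous_ff.continuousAt.comp ((continuousAt_const.div continuousAt_id hu0).sub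
        continuousAt_const)
    · exact continuousAt_id.pow 2
    · exact pow_ne_zero 2 hu0
  rw [intervalIntegral.integral_eq_sub_of_hasDerivAt h1 hcont.intervalIntegrable]
  have hlv : 1 ≤ l / v := by rw [le_div_iff₀ (by linarith)]; linarith
  unfold FF
  rw [F1_eq hlv, F1_eq (by linarith : 1 ≤ l), div_one]
  field_simp
  ring

/-- (E-) -/
lemma ff_integral {l v : ℝ} (hv : 1 ≤ v) (hvl : 2 * v ≤ l) :
    ff (l / v) / v = ff l - ∫ u in (1 : ℝ)..v, FF (l / u - 1) / u ^ 2 := by
  have hl : 0 < l := by linarith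
  have h1 : ∀ u ∈ uIcc 1 v, HasDerivAt (fun u => - (AA * xf (l / u) / l)) (FF (l / u - 1) / u ^ 2) u := by
    intro u hu
    rw [uIcc_of_le hv] at hu
    have hu0 : u ≠ 0 := by linarith [hu.1]
    have h2 : HasDerivAt (fun u => xf (l / u)) (F1 (l / u - 1) * (-l / u ^ 2)) u :=
      (hasDerivAt_xf (l / u)).comp u (hasDerivAt_div_const l hu0)
    refine (((h2.const_mul AA).div_const l).neg).congr_deriv ?_
    unfold FF
    field_simp
  have hcont : ContinuousOn (fun u => FF (l / u - 1) / u ^ 2) (uIcc 1 v) := by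
    intro u hu
    rw [uIcc_of_le hv] at hu
    have hu0 : u ≠ 0 := by linarith [hu.1]
    apply ContinuousAt.continuousWithinAt
    apply ContinuousAt.div
    · exact continuous_FF.continuousAt.comp ((continuousAt_const.div continuousAt_id hu0).sub
        continuousAt_const)
    · exact continuousAt_id.pow 2
    · exact pow_ne_zero 2 hu0
  rw [intervalIntegral.integral_eq_sub_of_hasDerivAt h1 hcont.intervalIntegrable]
  have hlv : 2 ≤ l / v := by rw [le_div_iff₀ (by linarith)]; linarith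
  unfold ff
  rw [f1_eq hlv, f1_eq (by linarith : 2 ≤ l), div_one]
  field_simp
  ring

end Pool.Agent.H90.LS
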