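import Mathlib

/-!
# The linear sieve weights (beta = 2)

Upper (`true`) and lower (`false`) weights of level `D`, as functions of a finite set of primes, the
recursion for their sums, the sieve inequalities and the support.
-/

set_option autoImplicit false

namespace Pool.Agent.H90.LS

open Finset

/-- The weight of the set `s` of primes, of level `D`. -/
noncomputable def lam (b : Bool) (D : ℝ) (s : Finset ℕ) : ℝ :=
  if h : s.Nonempty then
    if b = true ∧ D ≤ ((s.max' h : ℕ) : ℝ) ^ 3 then 0
    else - lam (!b) (D / (s.max' h : ℕ)) (s.erase (s.max' h))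
  else 1
termination_by s.card
decreasing_by exact Finset.card_erase_lt_of_mem (s.max'_mem h)

lemma lam_empty (b : Bool) (D : ℝ) : lam b D ∅ = 1 := by
  rw [lam]; simp

lemma max'_insert {s : Finset ℕ} {p : ℕ} (hp : ∀ q ∈ s, q < p) (h : (insert p s).Nonempty) :
    (insert p s).max' h = p := by
  apply le_antisymm
  · apply Finset.max'_le
    intro y hy
    rw [mem_insert] at hy
    rcases hy with rfl | hy
    · exact le_rfl
    · exact (hp y hy).le
  · exact Finset.le_max' _ _ (mem_insert_self _ _)

lemma lam_insert (b : Bool) (D : ℝ) {s : Finset ℕ} {p : ℕ} (hp : ∀ q ∈ s, q < p) :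
    lam b D (insert p s) = if b = true ∧ D ≤ (p : ℝ) ^ 3 then 0 else - lam (!b) (D / p) s := by
  have hps : p ∉ s := fun h => lt_irrefl _ (hp p h)
  rw [lam, dif_pos (insert_nonempty p s), max'_insert hp, erase_insert hps]

lemma lam_true_insert (D : ℝ) {s : Finset ℕ} {p : ℕ} (hp : ∀ q ∈ s, q < p) :
    lam true D (insert p s) = if (p : ℝ) ^ 3 < D then - lam false (D / p) s else 0 := by
  rw [lam_insert true D hp]
  by_cases h : (p : ℝ) ^ 3 < D
  · rw [if_pos h, if_neg (by simp [h])]; rfl
  · rw [if_neg h, if_pos ⟨rfl, not_lt.mp h⟩]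

lemma lam_false_insert (D : ℝ) {s : Finset ℕ} {p : ℕ} (hp : ∀ q ∈ s, q < p) :
    lam false D (insert p s) = - lam true (D / p) s := by
  rw [lam_insert false D hp, if_neg (by simp)]; rfl

/-- sets as `insert p s` with `p` the maximum -/
lemma induction_max {C : Finset ℕ → Prop} (h0 : C ∅)
    (h1 : ∀ p s, (∀ q ∈ s, q < p) → C s → C (insert p s)) (s : Finset ℕ) : C s :=
  Finset.induction_on_max s h0 (fun p s hp hs => h1 p s hp hs)

lemma abs_lam_le (b : Bool) (D : ℝ) (s : Finset ℕ) : |lam b D s| ≤ 1 := by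
  induction s using Finset.induction_on_max generalizing b D with
  | empty => rw [lam_empty]; simp
  | insert p s hp ih =>
    rw [lam_insert b D hp]
    split_ifs
    · simp
    · rw [abs_neg]; exact ih _ _

/-- the weight is `0` or the Möbius sign -/
lemma lam_eq (b : Bool) (D : ℝ) (s : Finset ℕ) : lam b D s = 0 ∨ lam b D s = (-1) ^ s.card := by
  induction s using Finset.induction_on_max generalizing b D with
  | empty => rw [lam_empty]; simp
  | insert p s hp ih =>
    have hps : p ∉ s := fun h => lt_irrefl _ (hp p h)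
    rw [lam_insert b D hp, card_insert_of_notMem hps]
    split_ifs
    · left; rfl
    · rcases ih (!b) (D / p) with h | h
      · left; rw [h]; simp
      · right; rw [h, pow_succ]; ring

/-- support of the weights -/
lemma lam_support (s : Finset ℕ) (hs : ∀ p ∈ s, 1 ≤ p) : ∀ D : ℝ,
    (1 < D → lam true D s ≠ 0 → ((∏ p ∈ s, p : ℕ) : ℝ) < D) ∧
    ((∀ p ∈ s, (p : ℝ) ^ 2 ≤ D) → 1 < D → lam false D s ≠ 0 → ((∏ p ∈ s, p : ℕ) : ℝ) < D) := by
  induction s using Finset.induction_on_max with
  | empty =>
    intro D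
    simp only [prod_empty, Nat.cast_one]
    exact ⟨fun h _ => h, fun _ h _ => h⟩
  | insert p s hp ih =>
    have hps : p ∉ s := fun h => lt_irrefl _ (hp p h)
    have ih' := ih (fun q hq => hs q (mem_insert_of_mem hq))
    have hp1 : (1 : ℝ) ≤ p := by exact_mod_cast hs p (mem_insert_self _ _)
    have hp0 : (0 : ℝ) < p := by linarith
    intro D
    constructor
    · intro hD h
      rw [lam_true_insert D hp] at h
      split_ifs at h with h3
      · have hD1 : 1 < D / p := by
          rw [lt_div_iff₀ hp0]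
          calc 1 * (p : ℝ) ≤ (p : ℝ) ^ 3 := by nlinarith [mul_nonneg hp0.le hp0.le]
            _ < D := h3
        have h4 := (ih' (D / p)).2 (by
          intro q hq
          have hqp : (q : ℝ) ≤ p := by exact_mod_cast (hp q hq).le
          rw [le_div_iff₀ hp0]
          calc (q : ℝ) ^ 2 * p ≤ (p : ℝ) ^ 2 * p := by gcongr
            _ = (p : ℝ) ^ 3 := by ring
            _ ≤ D := h3.le) hD1 (by
          intro h5; apply h; rw [h5]; simp)
        rw [prod_insert hps]
        push_cast at h4 ⊢
        rw [lt_div_iff₀ hp0] at h4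
        linarith
      · exact absurd rfl h
    · intro hsq hD h
      rw [lam_false_insert D hp] at h
      have hpD := hsq p (mem_insert_self _ _)
      rcases s.eq_empty_or_nonempty with he | hne
      · subst he
        simp only [insert_empty_eq, prod_singleton]
        by_contra hcon
        push Not at hcon
        have : (p : ℝ) * D ≤ D := by nlinarith
        have hp1' : (p : ℝ) ≤ 1 := by
          by_contra h9
          push Not at h9
          nlinarith
        linarith
      · obtain ⟨q, hq⟩ := hne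
        have hq1 : 1 ≤ q := hs q (mem_insert_of_mem hq)
        have hp2 : (2 : ℝ) ≤ p := by
          have := hp q hq
          exact_mod_cast (by omega : 2 ≤ p)
        have hD1 : 1 < D / p := by
          rw [lt_div_iff₀ hp0]
          nlinarith
        have h4 := (ih' (D / p)).1 hD1 (by
          intro h5; apply h; rw [h5]; simp)
        rw [prod_insert hps]
        push_cast at h4 ⊢
        rw [lt_div_iff₀ hp0] at h4
        linarith

/-- sum over all subsets -/
noncomputable def W (b : Bool) (D : ℝ) (A : Finset ℕ) (g : ℕ → ℝ) : ℝ :=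
  ∑ s ∈ A.powerset, lam b D s * ∏ p ∈ s, g p

lemma W_empty (b : Bool) (D : ℝ) (g : ℕ → ℝ) : W b D ∅ g = 1 := by
  unfold W; simp [lam_empty]

/-- splitting the subsets by their largest element -/
lemma sum_powerset_max (A : Finset ℕ) (F : Finset ℕ → ℝ) :
    ∑ s ∈ A.powerset, F s = F ∅ + ∑ p ∈ A, ∑ s ∈ (A.filter (· < p)).powerset, F (insert p s) := by
  induction A using Finset.induction_on_max with
  | empty => simp
  | insert m A hm ih =>
    have hmA : m ∉ A := fun h => lt_irrefl _ (hm m h)
    rw [Finset.sum_powerset_insert hmA, ih, Finset.sum_insert hmA]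
    have h1 : (insert m A).filter (· < m) = A := by
      ext q
      rw [mem_filter, mem_insert]
      constructor
      · rintro ⟨h | h, h2⟩
        · omega
        · exact h
      · intro h; exact ⟨Or.inr h, hm q h⟩
    have h2 : ∀ p ∈ A, (insert m A).filter (· < p) = A.filter (· < p) := by
      intro p hp
      ext q
      rw [mem_filter, mem_filter, mem_insert]
      constructor
      · rintro ⟨h | h, h2⟩
        · have := hm p hp; omega
        · exact ⟨h, h2⟩
      · rintro ⟨h, h2⟩; exact ⟨Or.inr h, h2⟩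
    have h3 : ∑ p ∈ A, ∑ s ∈ ((insert m A).filter (· < p)).powerset, F (insert p s) =
        ∑ p ∈ A, ∑ s ∈ (A.filter (· < p)).powerset, F (insert p s) :=
      Finset.sum_congr rfl fun p hp => by rw [h2 p hp]
    rw [h1, h3]
    ring

lemma W_true_eq (D : ℝ) (A : Finset ℕ) (g : ℕ → ℝ) :
    W true D A g = 1 - ∑ p ∈ A.filter (fun p : ℕ => (p : ℝ) ^ 3 < D),
      g p * W false (D / p) (A.filter (· < p)) g := by
  unfold W
  rw [sum_powerset_max, lam_empty, prod_empty, mul_one, Finset.sum_filter, sub_eq_add_neg,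
    ← Finset.sum_neg_distrib]
  congr 1
  apply Finset.sum_congr rfl
  intro p _
  split_ifs with h
  · rw [Finset.mul_sum, ← Finset.sum_neg_distrib]
    apply Finset.sum_congr rfl
    intro s hs
    have hlt : ∀ q ∈ s, q < p := fun q hq =>
      (mem_filter.mp ((mem_powerset.mp hs) hq)).2
    have hps : p ∉ s := fun h => lt_irrefl _ (hlt p h)
    rw [lam_true_insert D hlt, if_pos h, prod_insert hps]
    ring
  · rw [neg_zero]
    apply Finset.sum_eq_zero
    intro s hs
    have hlt : ∀ q ∈ s, q < p := fun q hq =>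
      (mem_filter.mp ((mem_powerset.mp hs) hq)).2
    rw [lam_true_insert D hlt, if_neg h, zero_mul]

lemma W_false_eq (D : ℝ) (A : Finset ℕ) (g : ℕ → ℝ) :
    W false D A g = 1 - ∑ p ∈ A, g p * W true (D / p) (A.filter (· < p)) g := by
  unfold W
  rw [sum_powerset_max, lam_empty, prod_empty, mul_one, sub_eq_add_neg, ← Finset.sum_neg_distrib]
  congr 1
  apply Finset.sum_congr rfl
  intro p _
  rw [Finset.mul_sum, ← Finset.sum_neg_distrib]
  apply Finset.sum_congr rfl
  intro s hs
  have hlt : ∀ q ∈ s, q < p := fun q hq =>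
    (mem_filter.mp ((mem_powerset.mp hs) hq)).2
  have hps : p ∉ s := fun h => lt_irrefl _ (hlt p h)
  rw [lam_false_insert D hlt, prod_insert hps]
  ring

lemma prod_one_sub_eq (A : Finset ℕ) (g : ℕ → ℝ) :
    ∏ p ∈ A, (1 - g p) = 1 - ∑ p ∈ A, g p * ∏ q ∈ A.filter (· < p), (1 - g q) := by
  induction A using Finset.induction_on_max with
  | empty => simp
  | insert m A hm ih =>
    have hmA : m ∉ A := fun h => lt_irrefl _ (hm m h)
    have h1 : (insert m A).filter (· < m) = A := by
      ext q
      rw [mem_filter, mem_insert]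
      constructor
      · rintro ⟨h | h, h2⟩
        · omega
        · exact h
      · intro h; exact ⟨Or.inr h, hm q h⟩
    have h2 : ∀ p ∈ A, (insert m A).filter (· < p) = A.filter (· < p) := by
      intro p hp
      ext q
      rw [mem_filter, mem_filter, mem_insert]
      constructor
      · rintro ⟨h | h, h2⟩
        · have := hm p hp; omega
        · exact ⟨h, h2⟩
      · rintro ⟨h, h2⟩; exact ⟨Or.inr h, h2⟩
    have h3 : ∑ p ∈ A, g p * ∏ q ∈ (insert m A).filter (· < p), (1 - g q) =
        ∑ p ∈ A, g p * ∏ q ∈ A.filter (· < p), (1 - g q) :=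
      Finset.sum_congr rfl fun p hp => by rw [h2 p hp]
    rw [prod_insert hmA, sum_insert hmA, h1, h3]
    linear_combination ih

/-- **Sieve inequalities** for general densities. -/
theorem sieve_ineq (g : ℕ → ℝ) (hg0 : ∀ p, 0 ≤ g p) (hg1 : ∀ p, g p ≤ 1) (A : Finset ℕ) :
    ∀ D : ℝ, W false D A g ≤ ∏ p ∈ A, (1 - g p) ∧ ∏ p ∈ A, (1 - g p) ≤ W true D A g := by
  induction A using Finset.strongInduction with
  | H A ih =>
    have hss : ∀ p ∈ A, A.filter (· < p) ⊂ A := by
      intro p hp
      rw [Finset.ssubset_iff_of_subset (filter_subset _ _)]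
      exact ⟨p, hp, fun h => lt_irrefl _ (mem_filter.mp h).2⟩
    intro D
    constructor
    · rw [W_false_eq, prod_one_sub_eq]
      apply sub_le_sub_left
      apply Finset.sum_le_sum
      intro p hp
      exact mul_le_mul_of_nonneg_left ((ih _ (hss p hp)) (D / p)).2 (hg0 p)
    · rw [W_true_eq, prod_one_sub_eq]
      apply sub_le_sub_left
      calc ∑ p ∈ A.filter (fun p : ℕ => (p : ℝ) ^ 3 < D), g p * W false (D / p) (A.filter (· < p)) g
          ≤ ∑ p ∈ A.filter (fun p : ℕ => (p : ℝ) ^ 3 < D),
            g p * ∏ q ∈ A.filter (· < p), (1 - g q) := by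
            apply Finset.sum_le_sum
            intro p hp
            exact mul_le_mul_of_nonneg_left
              ((ih _ (hss p (mem_filter.mp hp).1)) (D / p)).1 (hg0 p)
        _ ≤ ∑ p ∈ A, g p * ∏ q ∈ A.filter (· < p), (1 - g q) := by
            apply Finset.sum_le_sum_of_subset_of_nonneg (filter_subset _ _)
            intro p _ _
            apply mul_nonneg (hg0 p)
            apply Finset.prod_nonneg
            intro q _
            have := hg1 q
            linarith

/-! ### weights as arithmetic functions -/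

/-- the upper weights -/
noncomputable def lamP (D : ℝ) (d : ℕ) : ℝ := if Squarefree d then lam true D d.primeFactors else 0

/-- the lower weights -/
noncomputable def lamM (D : ℝ) (d : ℕ) : ℝ := if Squarefree d then lam false D d.primeFactors else 0

/-- both weights -/
noncomputable def lamN (b : Bool) (D : ℝ) (d : ℕ) : ℝ :=
  if Squarefree d then lam b D d.primeFactors else 0

lemma lamN_true (D : ℝ) (d : ℕ) : lamN true D d = lamP D d := rfl
lemma lamN_false (D : ℝ) (d : ℕ) : lamN false D d = lamM D d := rfl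

lemma abs_lamN_le (b : Bool) (D : ℝ) (d : ℕ) : |lamN b D d| ≤ 1 := by
  unfold lamN
  split_ifs
  · exact abs_lam_le _ _ _
  · simp

lemma lamN_one (b : Bool) (D : ℝ) : lamN b D 1 = 1 := by
  unfold lamN
  rw [if_pos squarefree_one, Nat.primeFactors_one, lam_empty]

lemma lamP_support {D : ℝ} (hD : 1 < D) {d : ℕ} (h : lamP D d ≠ 0) : (d : ℝ) < D := by
  unfold lamP at h
  split_ifs at h with h1
  · have h2 := (lam_support d.primeFactors (fun p hp => (Nat.prime_of_mem_primeFactors hp).one_lt.le)
      D).1 hD h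
    rwa [Nat.prod_primeFactors_of_squarefree h1] at h2
  · exact absurd rfl h

lemma lamM_support {D : ℝ} (hD : 1 < D) {d : ℕ} (hd : ∀ p ∈ d.primeFactors, (p : ℝ) ^ 2 ≤ D)
    (h : lamM D d ≠ 0) : (d : ℝ) < D := by
  unfold lamM at h
  split_ifs at h with h1
  · have h2 := (lam_support d.primeFactors (fun p hp => (Nat.prime_of_mem_primeFactors hp).one_lt.le)
      D).2 hd hD h
    rwa [Nat.prod_primeFactors_of_squarefree h1] at h2
  · exact absurd rfl h

/-- divisors of a product of distinct primes -/
lemma sum_divisors_prod (A : Finset ℕ) (hA : ∀ p ∈ A, p.Prime) (F : ℕ → ℝ) :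
    ∑ d ∈ (∏ p ∈ A, p).divisors, F d = ∑ s ∈ A.powerset, F (∏ p ∈ s, p) := by
  have hne : ∏ p ∈ A, p ≠ 0 := Finset.prod_ne_zero_iff.mpr fun p hp => (hA p hp).ne_zero
  have hsq : Squarefree (∏ p ∈ A, p) := by
    apply Finset.squarefree_prod_of_pairwise_isCoprime
    · intro p hp q hq hpq
      exact Nat.coprime_iff_isRelPrime.mp ((Nat.coprime_primes (hA p hp) (hA q hq)).mpr hpq)
    · intro p hp; exact (hA p hp).squarefree
  symm
  refine Finset.sum_nbij' (fun s => ∏ p ∈ s, p) (fun d => d.primeFactors) ?_ ?_ ?_ ?_ ?_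
  · intro s hs
    rw [mem_powerset] at hs
    rw [Nat.mem_divisors]
    exact ⟨Finset.prod_dvd_prod_of_subset _ _ _ hs, hne⟩
  · intro d hd
    rw [Nat.mem_divisors] at hd
    rw [mem_powerset]
    have h1 := Nat.primeFactors_mono hd.1 hne
    rwa [Nat.primeFactors_prod hA] at h1
  · intro s hs
    rw [mem_powerset] at hs
    exact Nat.primeFactors_prod fun p hp => hA p (hs hp)
  · intro d hd
    rw [Nat.mem_divisors] at hd
    exact Nat.prod_primeFactors_of_squarefree (hsq.squarefree_of_dvd hd.1)
  · intro s _; rfl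

lemma lamN_prod (b : Bool) (D : ℝ) (s : Finset ℕ) (hs : ∀ p ∈ s, p.Prime) :
    lamN b D (∏ p ∈ s, p) = lam b D s := by
  unfold lamN
  have hsq : Squarefree (∏ p ∈ s, p) := by
    apply Finset.squarefree_prod_of_pairwise_isCoprime
    · intro p hp q hq hpq
      exact Nat.coprime_iff_isRelPrime.mp ((Nat.coprime_primes (hs p hp) (hs q hq)).mpr hpq)
    · intro p hp; exact (hs p hp).squarefree
  rw [if_pos hsq, Nat.primeFactors_prod hs]

/-- the main term as a sum over divisors -/
theorem sum_lamN_eq_W (b : Bool) (D : ℝ) (A : Finset ℕ) (hA : ∀ p ∈ A, p.Prime) (G g : ℕ → ℝ)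
    (hG : ∀ s ⊆ A, G (∏ p ∈ s, p) = ∏ p ∈ s, g p) :
    ∑ d ∈ (∏ p ∈ A, p).divisors, lamN b D d * G d = W b D A g := by
  rw [sum_divisors_prod A hA (fun d => lamN b D d * G d)]
  unfold W
  apply Finset.sum_congr rfl
  intro s hs
  rw [mem_powerset] at hs
  rw [lamN_prod b D s fun p hp => hA p (hs hp), hG s hs]

/-- **The pointwise sieve inequalities.** -/
theorem lamN_sieve (D : ℝ) (A : Finset ℕ) (hA : ∀ p ∈ A, p.Prime) (n : ℕ) :
    ∑ d ∈ (∏ p ∈ A, p).divisors.filter (fun d => d ∣ n), lamM D d ≤
      (if ∀ p ∈ A, ¬ p ∣ n then 1 else 0) ∧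
    (if ∀ p ∈ A, ¬ p ∣ n then 1 else 0) ≤
      ∑ d ∈ (∏ p ∈ A, p).divisors.filter (fun d => d ∣ n), lamP D d := by
  classical
  set g : ℕ → ℝ := fun p => if p ∣ n then 1 else 0 with hg
  have hg0 : ∀ p, 0 ≤ g p := by intro p; simp only [hg]; split_ifs <;> norm_num
  have hg1 : ∀ p, g p ≤ 1 := by intro p; simp only [hg]; split_ifs <;> norm_num
  have hprod : ∏ p ∈ A, (1 - g p) = if ∀ p ∈ A, ¬ p ∣ n then 1 else 0 := by
    split_ifs with h
    · apply Finset.prod_eq_one
      intro p hp
      simp [hg, h p hp]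
    · push Not at h
      obtain ⟨p, hp, hpn⟩ := h
      apply Finset.prod_eq_zero hp
      simp [hg, hpn]
  have hG : ∀ s ⊆ A, (fun d : ℕ => if d ∣ n then (1 : ℝ) else 0) (∏ p ∈ s, p) = ∏ p ∈ s, g p := by
    intro s hs
    simp only
    split_ifs with h
    · symm
      apply Finset.prod_eq_one
      intro p hp
      have : p ∣ n := (Finset.dvd_prod_of_mem _ hp).trans h
      simp [hg, this]
    · have h2 : ∃ p ∈ s, ¬ p ∣ n := by
        by_contra hcon
        push Not at hcon
        exact h (Finset.prod_primes_dvd n (fun p hp => (hA p (hs hp)).prime) hcon)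
      obtain ⟨p, hp, hpn⟩ := h2
      symm
      apply Finset.prod_eq_zero hp
      simp [hg, hpn]
  have key : ∀ b, ∑ d ∈ (∏ p ∈ A, p).divisors.filter (fun d => d ∣ n), lamN b D d = W b D A g := by
    intro b
    rw [← sum_lamN_eq_W b D A hA (fun d : ℕ => if d ∣ n then (1 : ℝ) else 0) g hG, Finset.sum_filter]
    apply Finset.sum_congr rfl
    intro d _
    split_ifs <;> simp
  have h1 := sieve_ineq g hg0 hg1 A D
  rw [← key, ← key, hprod] at h1
  exact h1

end Pool.Agent.H90.LS
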