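import Mathlib
import Pool.Agent.H90.LS.Weights
import Pool.Agent.H90.LS.DDE
import Pool.Agent.H16.Mertens

/-!
# The main terms of the linear sieve

If `g` is a density of dimension one on the primes `≥ w`, then for `z = w ^ v`, `D = w ^ l` and `s = l / v`
the main terms of the linear sieve (`beta = 2`) satisfy `W⁺ ≤ (F s + ε) / v`, `W⁻ ≥ (f s - ε) / v` once `w`
is large in terms of `ε`, `l`. Here `F s = A / s` for `1 ≤ s ≤ 3`, `f s = A log (s - 1) / s` for
`2 ≤ s ≤ 4`, with an absolute constant `A`.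
-/

set_option autoImplicit false

namespace Pool.Agent.H90.LS

open Finset MeasureTheory

/-- The primes in `[x, y)`. -/
noncomputable def PI (x y : ℝ) : Finset ℕ :=
  (Finset.range ⌈y⌉₊).filter (fun p => p.Prime ∧ x ≤ (p : ℝ))

lemma mem_PI {x y : ℝ} {p : ℕ} : p ∈ PI x y ↔ p.Prime ∧ x ≤ (p : ℝ) ∧ (p : ℝ) < y := by
  unfold PI
  rw [mem_filter, mem_range, Nat.lt_ceil]
  tauto

/-- `g` has dimension one on the primes `≥ exp ω`, with constant `C`. -/
def Dim (C ω : ℝ) (g : ℕ → ℝ) : Prop :=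
  (∀ p, 0 ≤ g p) ∧ ∀ x y : ℝ, Real.exp ω ≤ x → x ≤ y →
    |∑ p ∈ PI x y, g p * Real.log p - (Real.log y - Real.log x)| ≤ C

lemma sum_PI_add {x y z : ℝ} (hxy : x ≤ y) (hyz : y ≤ z) (F : ℕ → ℝ) :
    ∑ p ∈ PI x z, F p = ∑ p ∈ PI x y, F p + ∑ p ∈ PI y z, F p := by
  rw [← Finset.sum_union]
  · congr 1
    ext p
    rw [mem_union, mem_PI, mem_PI, mem_PI]
    constructor
    · rintro ⟨h1, h2, h3⟩
      rcases lt_or_ge (p : ℝ) y with h | h
      · left; exact ⟨h1, h2, h⟩
      · right; exact ⟨h1, h, h3⟩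
    · rintro (⟨h1, h2, h3⟩ | ⟨h1, h2, h3⟩)
      · exact ⟨h1, h2, h3.trans_le hyz⟩
      · exact ⟨h1, hxy.trans h2, h3⟩
  · rw [Finset.disjoint_left]
    intro p hp hq
    rw [mem_PI] at hp hq
    exact absurd hp.2.2 (not_lt.mpr hq.2.1)

lemma mem_PI_exp {ω a b : ℝ} (hω : 0 < ω) {p : ℕ}
    (hp : p ∈ PI (Real.exp (a * ω)) (Real.exp (b * ω))) :
    a ≤ Real.log p / ω ∧ Real.log p / ω < b ∧ Real.exp (Real.log p / ω * ω) = p := by
  rw [mem_PI] at hp
  have hp0 : (0 : ℝ) < p := by exact_mod_cast hp.1.pos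
  refine ⟨?_, ?_, ?_⟩
  · rw [le_div_iff₀ hω, Real.le_log_iff_exp_le hp0]; exact hp.2.1
  · rw [div_lt_iff₀ hω, Real.log_lt_iff_lt_exp hp0]; exact hp.2.2
  · rw [div_mul_cancel₀ _ hω.ne', Real.exp_log hp0]

/-- the error of the quadrature -/
noncomputable def Err (g : ℕ → ℝ) (ω : ℝ) (ψ : ℝ → ℝ) (a b : ℝ) : ℝ :=
  ∑ p ∈ PI (Real.exp (a * ω)) (Real.exp (b * ω)), (g p * Real.log p / ω) * ψ (Real.log p / ω) -
    ∫ u in a..b, ψ u

lemma Err_add {g : ℕ → ℝ} {ω : ℝ} (hω : 0 < ω) {ψ : ℝ → ℝ} {a b c : ℝ} (hab : a ≤ b) (hbc : b ≤ c)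
    (hψ : ContinuousOn ψ (Set.Icc a c)) : Err g ω ψ a c = Err g ω ψ a b + Err g ω ψ b c := by
  unfold Err
  rw [sum_PI_add (y := Real.exp (b * ω)) (Real.exp_le_exp.mpr (by nlinarith))
    (Real.exp_le_exp.mpr (by nlinarith)),
    ← intervalIntegral.integral_add_adjacent_intervals (b := b)]
  · ring
  · apply ContinuousOn.intervalIntegrable
    rw [Set.uIcc_of_le hab]
    exact hψ.mono (Set.Icc_subset_Icc_right hbc)
  · apply ContinuousOn.intervalIntegrable
    rw [Set.uIcc_of_le hbc]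
    exact hψ.mono (Set.Icc_subset_Icc_left hab)

lemma sum_block {C ω : ℝ} (hω : 0 < ω) {g : ℕ → ℝ} (hg : Dim C ω g) {a b : ℝ} (ha : 1 ≤ a)
    (hab : a ≤ b) :
    |∑ p ∈ PI (Real.exp (a * ω)) (Real.exp (b * ω)), g p * Real.log p / ω - (b - a)| ≤ C / ω := by
  have h1 := hg.2 (Real.exp (a * ω)) (Real.exp (b * ω)) (Real.exp_le_exp.mpr (by nlinarith))
    (Real.exp_le_exp.mpr (by nlinarith))
  rw [Real.log_exp, Real.log_exp] at h1
  have h2 : ∑ p ∈ PI (Real.exp (a * ω)) (Real.exp (b * ω)), g p * Real.log p / ω - (b - a) =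
      (∑ p ∈ PI (Real.exp (a * ω)) (Real.exp (b * ω)), g p * Real.log p - (b * ω - a * ω)) / ω := by
    rw [← Finset.sum_div]
    field_simp
  rw [h2, abs_div, abs_of_pos hω]
  gcongr

lemma Err_block {C ω : ℝ} (hω : 0 < ω) {g : ℕ → ℝ} (hg : Dim C ω g) {a b B L : ℝ} (ha : 1 ≤ a)
    (hab : a ≤ b) {ψ : ℝ → ℝ} (hB : |ψ a| ≤ B) (hL : 0 ≤ L)
    (hψ : ∀ u ∈ Set.Icc a b, |ψ u - ψ a| ≤ L * (b - a)) (hc : ContinuousOn ψ (Set.Icc a b)) :
    |Err g ω ψ a b| ≤ B * C / ω + L * (b - a) * (2 * (b - a) + C / ω) := by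
  have h1 := sum_block hω hg ha hab
  set S := PI (Real.exp (a * ω)) (Real.exp (b * ω)) with hS
  have hw : ∀ p ∈ S, 0 ≤ g p * Real.log p / ω := fun p _ =>
    div_nonneg (mul_nonneg (hg.1 p) (Real.log_natCast_nonneg p)) hω.le
  have hba : 0 ≤ b - a := by linarith
  -- decomposition
  have h2 : Err g ω ψ a b = ∑ p ∈ S, (g p * Real.log p / ω) * (ψ (Real.log p / ω) - ψ a) +
      ψ a * (∑ p ∈ S, g p * Real.log p / ω - (b - a)) - ∫ u in a..b, (ψ u - ψ a) := by
    unfold Err
    rw [intervalIntegral.integral_sub (ContinuousOn.intervalIntegrable (by rwa [Set.uIcc_of_le hab]))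
      (continuous_const.intervalIntegrable _ _), intervalIntegral.integral_const, smul_eq_mul,
      mul_sub, Finset.mul_sum, ← hS]
    simp only [mul_sub, Finset.sum_sub_distrib]
    have h3 : ∑ p ∈ S, g p * Real.log p / ω * ψ a = ∑ p ∈ S, ψ a * (g p * Real.log p / ω) :=
      Finset.sum_congr rfl fun p _ => mul_comm _ _
    rw [h3]
    ring
  have h3 : |∑ p ∈ S, (g p * Real.log p / ω) * (ψ (Real.log p / ω) - ψ a)| ≤
      (b - a + C / ω) * (L * (b - a)) := by
    calc |∑ p ∈ S, (g p * Real.log p / ω) * (ψ (Real.log p / ω) - ψ a)|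
        ≤ ∑ p ∈ S, |(g p * Real.log p / ω) * (ψ (Real.log p / ω) - ψ a)| := abs_sum_le_sum_abs _ _
      _ ≤ ∑ p ∈ S, (g p * Real.log p / ω) * (L * (b - a)) := by
        apply Finset.sum_le_sum
        intro p hp
        rw [abs_mul, abs_of_nonneg (hw p hp)]
        apply mul_le_mul_of_nonneg_left _ (hw p hp)
        have h4 := mem_PI_exp hω hp
        exact hψ _ ⟨h4.1, h4.2.1.le⟩
      _ = (∑ p ∈ S, g p * Real.log p / ω) * (L * (b - a)) := by rw [Finset.sum_mul]
      _ ≤ (b - a + C / ω) * (L * (b - a)) := by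
        apply mul_le_mul_of_nonneg_right _ (mul_nonneg hL hba)
        have := (abs_le.mp h1).2
        linarith
  have h4 : |ψ a * (∑ p ∈ S, g p * Real.log p / ω - (b - a))| ≤ B * (C / ω) := by
    rw [abs_mul]
    exact mul_le_mul hB h1 (abs_nonneg _) ((abs_nonneg _).trans hB)
  have h5 : |∫ u in a..b, (ψ u - ψ a)| ≤ (L * (b - a)) * (b - a) := by
    have h6 := intervalIntegral.norm_integral_le_of_norm_le_const (a := a) (b := b)
      (f := fun u => ψ u - ψ a) (C := L * (b - a)) (by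
        intro u hu
        rw [Set.uIoc_of_le hab] at hu
        exact hψ u ⟨hu.1.le, hu.2⟩)
    rw [abs_of_nonneg hba] at h6
    exact h6
  rw [h2]
  have h6 := abs_sub (∑ p ∈ S, (g p * Real.log p / ω) * (ψ (Real.log p / ω) - ψ a) +
      ψ a * (∑ p ∈ S, g p * Real.log p / ω - (b - a))) (∫ u in a..b, (ψ u - ψ a))
  have h7 := abs_add_le (∑ p ∈ S, (g p * Real.log p / ω) * (ψ (Real.log p / ω) - ψ a))
      (ψ a * (∑ p ∈ S, g p * Real.log p / ω - (b - a)))
  have h8 : B * C / ω = B * (C / ω) := by ring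
  rw [h8]
  nlinarith

lemma Err_le {C ω : ℝ} (hω : 0 < ω) {g : ℕ → ℝ} (hg : Dim C ω g) {a B L h : ℝ} (ha : 1 ≤ a)
    (hh : 0 ≤ h) {ψ : ℝ → ℝ} (hL : 0 ≤ L) (n : ℕ) 
    (hB : ∀ u ∈ Set.Icc a (a + n * h), |ψ u| ≤ B)
    (hψ : ∀ u ∈ Set.Icc a (a + n * h), ∀ v ∈ Set.Icc a (a + n * h), |ψ u - ψ v| ≤ L * |u - v|)
    (hc : ContinuousOn ψ (Set.Icc a (a + n * h))) :
    |Err g ω ψ a (a + n * h)| ≤ n * (B * C / ω + L * h * (2 * h + C / ω)) := by
  have key : ∀ m : ℕ, m ≤ n → |Err g ω ψ a (a + m * h)| ≤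
      m * (B * C / ω + L * h * (2 * h + C / ω)) := by
    intro m
    induction m with
    | zero =>
      intro _
      unfold Err
      have : PI (Real.exp (a * ω)) (Real.exp (a * ω)) = ∅ := by
        rw [Finset.eq_empty_iff_forall_notMem]
        intro p hp
        rw [mem_PI] at hp
        linarith [hp.2.1, hp.2.2]
      simp [this]
    | succ m ih =>
      intro hm
      have ih' := ih (by omega)
      have hmn : ((m + 1 : ℕ) : ℝ) ≤ n := by exact_mod_cast hm
      have h1 : a ≤ a + m * h := by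
        have : 0 ≤ (m : ℝ) * h := by positivity
        linarith
      have h2 : a + m * h ≤ a + ((m + 1 : ℕ) : ℝ) * h := by push_cast; nlinarith
      have h3 : a + ((m + 1 : ℕ) : ℝ) * h ≤ a + n * h := by
        have := mul_le_mul_of_nonneg_right hmn hh
        linarith
      rw [Err_add hω h1 h2 (hc.mono (Set.Icc_subset_Icc_right h3))]
      have hstep : a + ((m + 1 : ℕ) : ℝ) * h - (a + m * h) = h := by push_cast; ring
      have h4 := Err_block hω hg (a := a + m * h) (b := a + ((m + 1 : ℕ) : ℝ) * h) (B := B) (L := L)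
        (ψ := ψ) (ha.trans h1) h2 (hB _ ⟨h1, h2.trans h3⟩) hL (by
          intro u hu
          refine (hψ u ⟨h1.trans hu.1, hu.2.trans h3⟩ _ ⟨h1, h2.trans h3⟩).trans ?_
          apply mul_le_mul_of_nonneg_left _ hL
          rw [abs_of_nonneg (by linarith [hu.1])]
          linarith [hu.2]) (hc.mono (Set.Icc_subset_Icc h1 h3))
      rw [hstep] at h4
      have h5 := abs_add_le (Err g ω ψ a (a + m * h)) (Err g ω ψ (a + m * h) (a + ((m + 1 : ℕ) : ℝ) * h))
      push_cast at h5 ih' h4 ⊢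
      linarith
  exact key n le_rfl

/-- **Quadrature.** -/
lemma Err_small (C B L K δ : ℝ) (hC : 0 ≤ C) (hB0 : 0 ≤ B) (hL : 0 ≤ L) (hK : 1 ≤ K) (hδ : 0 < δ) :
    ∃ ω0 : ℝ, 0 < ω0 ∧ ∀ ω, ω0 ≤ ω → ∀ g, Dim C ω g → ∀ b, 1 ≤ b → b ≤ K → ∀ ψ : ℝ → ℝ,
      (∀ u ∈ Set.Icc 1 b, |ψ u| ≤ B) →
      (∀ u ∈ Set.Icc 1 b, ∀ v ∈ Set.Icc 1 b, |ψ u - ψ v| ≤ L * |u - v|) →
      |Err g ω ψ 1 b| ≤ δ := by
  obtain ⟨n, hn⟩ := exists_nat_gt (4 * L * K ^ 2 / δ)
  set N : ℝ := (n : ℝ) + 1 with hN
  have hN0 : 0 < N := by positivity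
  refine ⟨max 1 (2 * N * (B * C + L * K * C) / δ), lt_of_lt_of_le one_pos (le_max_left _ _), ?_⟩
  intro ω hω g hg b hb1 hbK ψ hB hψ
  have hω1 : 1 ≤ ω := (le_max_left _ _).trans hω
  have hω0 : 0 < ω := by linarith
  have hω2 : 2 * N * (B * C + L * K * C) / δ ≤ ω := (le_max_right _ _).trans hω
  set h : ℝ := (b - 1) / N with hh
  have hh0 : 0 ≤ h := div_nonneg (by linarith) hN0.le
  have hNh : N * h = b - 1 := by rw [hh]; field_simp
  have hb : 1 + ((n + 1 : ℕ) : ℝ) * h = b := by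
    push_cast
    rw [← hN, hNh]; ring
  have hc : ContinuousOn ψ (Set.Icc 1 b) := by
    have h1 : LipschitzOnWith (Real.toNNReal L) ψ (Set.Icc 1 b) := by
      apply LipschitzOnWith.of_dist_le_mul
      intro x hx y hy
      rw [Real.dist_eq, Real.dist_eq, Real.coe_toNNReal _ hL]
      exact hψ x hx y hy
    exact h1.continuousOn
  have h1 := Err_le hω0 hg (a := 1) (B := B) (L := L) (h := h) (ψ := ψ) le_rfl hh0 hL (n + 1)
    (by rw [hb]; exact hB) (by rw [hb]; exact hψ) (by rw [hb]; exact hc)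
  rw [hb] at h1
  refine h1.trans ?_
  have h2 : ((n + 1 : ℕ) : ℝ) = N := by push_cast; rfl
  rw [h2]
  have hhK : h ≤ K / N := by
    rw [hh]; gcongr; linarith
  have hN1 : 1 ≤ N := by rw [hN]; have : (0 : ℝ) ≤ n := Nat.cast_nonneg n; linarith
  have hhK' : h ≤ K := hhK.trans (div_le_self (by linarith) hN1)
  have h3 : N * (B * C / ω + L * h * (2 * h + C / ω)) =
      2 * L * h * (N * h) + N * (B * C + L * h * C) / ω := by
    field_simp
    ring
  rw [h3, hNh]
  have h4 : 2 * L * h * (b - 1) ≤ δ / 2 := by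
    calc 2 * L * h * (b - 1) ≤ 2 * L * (K / N) * K := by
          gcongr
          linarith
      _ = 2 * L * K ^ 2 / N := by ring
      _ ≤ δ / 2 := by
          rw [div_le_iff₀ hN0]
          rw [div_lt_iff₀ hδ] at hn
          nlinarith
  have h5 : N * (B * C + L * h * C) / ω ≤ δ / 2 := by
    rw [div_le_iff₀ hω0]
    rw [div_le_iff₀ hδ] at hω2
    have h6 : N * (B * C + L * h * C) ≤ N * (B * C + L * K * C) := by gcongr
    linarith
  linarith

/-! ### the test functions -/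

lemma psi_lipschitz {φ : ℝ → ℝ} {A c l b : ℝ} (hA : 0 ≤ A) (hl : 0 ≤ l) (hφ : ∀ s, c ≤ s → |φ s| ≤ A)
    (hφL : ∀ s, c ≤ s → ∀ t, c ≤ t → |φ s - φ t| ≤ A * |s - t|) (hb : ∀ u ∈ Set.Icc 1 b, c ≤ l / u - 1) :
    (∀ u ∈ Set.Icc 1 b, |φ (l / u - 1) / u ^ 2| ≤ A) ∧
    ∀ u ∈ Set.Icc 1 b, ∀ v ∈ Set.Icc 1 b, |φ (l / u - 1) / u ^ 2 - φ (l / v - 1) / v ^ 2| ≤
      (A * l + 2 * A) * |u - v| := by
  constructor
  · intro u hu
    have hu1 : 1 ≤ u ^ 2 := one_le_pow₀ hu.1
    rw [abs_div, abs_of_pos (by linarith : 0 < u ^ 2)]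
    refine (div_le_self (abs_nonneg _) hu1).trans (hφ _ (hb u hu))
  · intro u hu v hv
    have hu1 : 1 ≤ u := hu.1
    have hv1 : 1 ≤ v := hv.1
    have hu0 : 0 < u := by linarith
    have hv0 : 0 < v := by linarith
    have h1 : φ (l / u - 1) / u ^ 2 - φ (l / v - 1) / v ^ 2 =
        (φ (l / u - 1) - φ (l / v - 1)) / u ^ 2 + φ (l / v - 1) * ((v ^ 2 - u ^ 2) / (u ^ 2 * v ^ 2)) := by
      field_simp
      ring
    rw [h1]
    refine (abs_add_le _ _).trans ?_
    have h2 : |(φ (l / u - 1) - φ (l / v - 1)) / u ^ 2| ≤ A * l * |u - v| := by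
      rw [abs_div, abs_of_pos (by positivity : 0 < u ^ 2)]
      refine (div_le_self (abs_nonneg _) (one_le_pow₀ hu1)).trans ?_
      refine (hφL _ (hb u hu) _ (hb v hv)).trans ?_
      rw [mul_assoc]
      apply mul_le_mul_of_nonneg_left _ hA
      have h3 : l / u - 1 - (l / v - 1) = l * ((v - u) / (u * v)) := by field_simp; ring
      rw [h3, abs_mul, abs_of_nonneg hl]
      apply mul_le_mul_of_nonneg_left _ hl
      rw [abs_div, abs_of_pos (by positivity : 0 < u * v), abs_sub_comm]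
      exact div_le_self (abs_nonneg _) (by nlinarith)
    have h3 : |φ (l / v - 1) * ((v ^ 2 - u ^ 2) / (u ^ 2 * v ^ 2))| ≤ A * (2 * |u - v|) := by
      rw [abs_mul]
      apply mul_le_mul (hφ _ (hb v hv)) _ (abs_nonneg _) hA
      rw [abs_div, abs_of_pos (by positivity : 0 < u ^ 2 * v ^ 2), div_le_iff₀ (by positivity)]
      have h4 : v ^ 2 - u ^ 2 = (v - u) * (v + u) := by ring
      rw [h4, abs_mul, abs_of_pos (by linarith : 0 < v + u), abs_sub_comm v u]
      have h5 : v + u ≤ 2 * (u ^ 2 * v ^ 2) := by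
        have h6 : u * v ≤ u ^ 2 * v ^ 2 := by nlinarith [mul_pos hu0 hv0, mul_le_mul hu1 hv1 zero_le_one hu0.le]
        nlinarith
      calc |u - v| * (v + u) ≤ |u - v| * (2 * (u ^ 2 * v ^ 2)) :=
            mul_le_mul_of_nonneg_left h5 (abs_nonneg _)
        _ = 2 * |u - v| * (u ^ 2 * v ^ 2) := by ring
    linarith

lemma FF_lip {s t : ℝ} (hs : 1 ≤ s) (ht : 1 ≤ t) : |FF s - FF t| ≤ AA * |s - t| := by
  unfold FF
  rw [← mul_sub, abs_mul, abs_of_pos AA_pos]
  exact mul_le_mul_of_nonneg_left (F1_lipschitz hs ht) AA_pos.le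

lemma ff_lip {s t : ℝ} (hs : 2 ≤ s) (ht : 2 ≤ t) : |ff s - ff t| ≤ AA * |s - t| := by
  unfold ff
  rw [← mul_sub, abs_mul, abs_of_pos AA_pos]
  exact mul_le_mul_of_nonneg_left (f1_lipschitz hs ht) AA_pos.le

lemma abs_FF_le {s : ℝ} (hs : 1 ≤ s) : |FF s| ≤ AA := by
  rw [abs_of_nonneg (by linarith [one_le_FF hs])]
  exact FF_le hs

lemma abs_ff_le (s : ℝ) : |ff s| ≤ AA := by
  rw [abs_of_nonneg (ff_nonneg s)]
  exact (ff_le_one s).trans one_le_AA

lemma PI_filter {ω v : ℝ} (hω : 0 < ω) {p : ℕ} (hp : p ∈ PI (Real.exp ω) (Real.exp (v * ω))) :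
    (PI (Real.exp ω) (Real.exp (v * ω))).filter (· < p) =
      PI (Real.exp ω) (Real.exp (Real.log p / ω * ω)) := by
  have hp' : p ∈ PI (Real.exp (1 * ω)) (Real.exp (v * ω)) := by rwa [one_mul]
  have h1 := mem_PI_exp hω hp'
  rw [h1.2.2]
  ext q
  rw [mem_filter, mem_PI, mem_PI]
  rw [mem_PI] at hp
  constructor
  · rintro ⟨⟨h2, h3, h4⟩, h5⟩
    exact ⟨h2, h3, by exact_mod_cast h5⟩
  · rintro ⟨h2, h3, h4⟩
    exact ⟨⟨h2, h3, h4.trans hp.2.2⟩, by exact_mod_cast h4⟩

lemma exp_div_p {ω l v : ℝ} (hω : 0 < ω) {p : ℕ} (hp : p ∈ PI (Real.exp ω) (Real.exp (v * ω))) :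
    Real.exp (l * ω) / p = Real.exp ((l - Real.log p / ω) * ω) := by
  have hp' : p ∈ PI (Real.exp (1 * ω)) (Real.exp (v * ω)) := by rwa [one_mul]
  have h1 := mem_PI_exp hω hp'
  rw [sub_mul, Real.exp_sub, h1.2.2]

/-- a sum over primes as a quadrature sum -/
lemma sum_eq_quad {ω v : ℝ} (hω : 0 < ω) (g : ℕ → ℝ) (φ : ℝ → ℝ) (l : ℝ) :
    ∑ p ∈ PI (Real.exp ω) (Real.exp (v * ω)), g p * (φ (l / (Real.log p / ω) - 1) / (Real.log p / ω)) =
    ∑ p ∈ PI (Real.exp (1 * ω)) (Real.exp (v * ω)), (g p * Real.log p / ω) *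
      (φ (l / (Real.log p / ω) - 1) / (Real.log p / ω) ^ 2) := by
  rw [one_mul]
  apply Finset.sum_congr rfl
  intro p hp
  rw [mem_PI] at hp
  have h1 : 0 < Real.log p := Real.log_pos (by exact_mod_cast hp.1.one_lt)
  field_simp

lemma sum_g_le {C ω : ℝ} (hω : 0 < ω) (hCω : C ≤ ω) {g : ℕ → ℝ} (hg : Dim C ω g) {v : ℝ}
    (hv : 1 ≤ v) : ∑ p ∈ PI (Real.exp ω) (Real.exp (v * ω)), g p ≤ v := by
  have h1 := sum_block hω hg (a := 1) (b := v) le_rfl hv
  rw [one_mul] at h1
  have h2 : ∑ p ∈ PI (Real.exp ω) (Real.exp (v * ω)), g p ≤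
      ∑ p ∈ PI (Real.exp ω) (Real.exp (v * ω)), g p * Real.log p / ω := by
    apply Finset.sum_le_sum
    intro p hp
    have hp' : p ∈ PI (Real.exp (1 * ω)) (Real.exp (v * ω)) := by rwa [one_mul]
    have h3 := (mem_PI_exp hω hp').1
    rw [mul_div_assoc]
    nlinarith [hg.1 p]
  have h3 : C / ω ≤ 1 := by rw [div_le_one hω]; exact hCω
  have h4 := (abs_le.mp h1).2
  linarith

/-- **Main terms of the linear sieve** (induction). -/
theorem main_induction (C : ℝ) (hC : 0 ≤ C) (k : ℕ) : ∀ ε : ℝ, 0 < ε → ∃ ω0 : ℝ, 0 < ω0 ∧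
    ∀ ω, ω0 ≤ ω → ∀ g, Dim C ω g → ∀ l v : ℝ, 1 ≤ v → l ≤ k →
      (v ≤ l → W true (Real.exp (l * ω)) (PI (Real.exp ω) (Real.exp (v * ω))) g ≤
        FF (l / v) / v + ε) ∧
      (2 * v ≤ l → ff (l / v) / v - ε ≤
        W false (Real.exp (l * ω)) (PI (Real.exp ω) (Real.exp (v * ω))) g) := by
  induction k with
  | zero =>
    intro ε hε
    refine ⟨1, one_pos, ?_⟩
    intro ω _ g _ l v hv hl
    rw [Nat.cast_zero] at hl
    exact ⟨fun h => absurd h (by linarith), fun h => absurd h (by linarith)⟩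
  | succ k ih =>
    intro ε hε
    set K : ℝ := ((k + 1 : ℕ) : ℝ) with hK
    have hK1 : 1 ≤ K := by rw [hK]; push_cast; have : (0 : ℝ) ≤ k := Nat.cast_nonneg k; linarith
    have hK0 : 0 < K := by linarith
    obtain ⟨ω1, hω1, H1⟩ := ih (ε / (2 * K)) (by positivity)
    obtain ⟨ω2, hω2, H2⟩ := Err_small C AA (AA * K + 2 * AA) K (ε / 2) hC AA_pos.le
      (by have := AA_pos; positivity) hK1 (by positivity)
    refine ⟨max (max ω1 ω2) (max C 1), lt_of_lt_of_le hω1 ((le_max_left _ _).trans (le_max_left _ _)), ?_⟩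
    intro ω hω g hg l v hv hlk
    have hωω1 : ω1 ≤ ω := ((le_max_left _ _).trans (le_max_left _ _)).trans hω
    have hωω2 : ω2 ≤ ω := ((le_max_right _ _).trans (le_max_left _ _)).trans hω
    have hωC : C ≤ ω := ((le_max_left _ _).trans (le_max_right _ _)).trans hω
    have hωp : 1 ≤ ω := ((le_max_right _ _).trans (le_max_right _ _)).trans hω
    have hω0 : 0 < ω := by linarith
    have H1' := H1 ω hωω1 g hg
    have H2' := H2 ω hωω2 g hg
    have hη : ε / (2 * K) * K = ε / 2 := by field_simp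
    constructor
    · intro hvl
      have hl0 : 0 < l := by linarith
      have hlv : 1 ≤ l / v := by rw [le_div_iff₀ (by linarith)]; linarith
      -- the common value
      rcases lt_or_ge l 3 with h3 | h3
      · -- no primes
        have hempty : (PI (Real.exp ω) (Real.exp (v * ω))).filter
            (fun p : ℕ => (p : ℝ) ^ 3 < Real.exp (l * ω)) = ∅ := by
          rw [Finset.eq_empty_iff_forall_notMem]
          intro p hp
          rw [mem_filter, mem_PI] at hp
          have h4 : Real.exp (l * ω) < (p : ℝ) ^ 3 := by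
            calc Real.exp (l * ω) < Real.exp (3 * ω) := Real.exp_lt_exp.mpr (by nlinarith)
              _ = Real.exp ω ^ 3 := by rw [← Real.exp_nat_mul]; norm_num
              _ ≤ (p : ℝ) ^ 3 := by gcongr; exact hp.1.2.1
          linarith [hp.2]
        rw [W_true_eq, hempty, Finset.sum_empty, sub_zero]
        have h4 : FF (l / v) / v = FF l := by
          have hlv3 : l / v ≤ 3 := (div_le_self hl0.le hv).trans h3.le
          rw [FF_of_le_three hlv hlv3, FF_of_le_three (by linarith) h3.le]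
          field_simp
        rw [h4]
        have := one_le_FF (s := l) (by linarith)
        linarith
      · set v' : ℝ := min v (l / 3) with hv'
        have hv'1 : 1 ≤ v' := le_min hv (by linarith)
        have hv'l : v' ≤ l / 3 := min_le_right _ _
        have hfil : (PI (Real.exp ω) (Real.exp (v * ω))).filter
            (fun p : ℕ => (p : ℝ) ^ 3 < Real.exp (l * ω)) = PI (Real.exp ω) (Real.exp (v' * ω)) := by
          ext p
          rw [mem_filter, mem_PI, mem_PI]
          have h5 : (p : ℝ) ^ 3 < Real.exp (l * ω) ↔ (p : ℝ) < Real.exp (l / 3 * ω) := by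
            have h6 : Real.exp (l * ω) = Real.exp (l / 3 * ω) ^ 3 := by
              rw [← Real.exp_nat_mul]; congr 1; push_cast; ring
            rw [h6]
            exact pow_lt_pow_iff_left₀ (Nat.cast_nonneg p) (Real.exp_pos _).le (by norm_num)
          rw [h5]
          have h6 : Real.exp (v' * ω) = min (Real.exp (v * ω)) (Real.exp (l / 3 * ω)) := by
            rcases le_total v (l / 3) with h | h
            · rw [hv', min_eq_left h, min_eq_left (Real.exp_le_exp.mpr (by nlinarith))]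
            · rw [hv', min_eq_right h, min_eq_right (Real.exp_le_exp.mpr (by nlinarith))]
          rw [h6, lt_min_iff]
          tauto
        have hval : FF (l / v) / v = FF (l / v') / v' := by
          rcases le_total v (l / 3) with h | h
          · rw [hv', min_eq_left h]
          · have h5 : l / v ≤ 3 := by rw [div_le_iff₀ (by linarith)]; linarith
            rw [hv', min_eq_right h, FF_of_le_three hlv h5]
            have h6 : l / (l / 3) = 3 := by field_simp
            rw [h6, FF_of_le_three (by norm_num) le_rfl]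
            field_simp
        rw [W_true_eq, hfil, hval, FF_integral hv'1 (by linarith)]
        -- test function
        have hb : ∀ u ∈ Set.Icc 1 v', (2 : ℝ) ≤ l / u - 1 := by
          intro u hu
          have hu0 : 0 < u := by linarith [hu.1]
          have : 3 ≤ l / u := by rw [le_div_iff₀ hu0]; linarith [hu.2]
          linarith
        obtain ⟨hb1, hb2⟩ := psi_lipschitz (φ := ff) (A := AA) (c := 2) (l := l) (b := v') AA_pos.le
          hl0.le (fun s _ => abs_ff_le s) (fun s hs t ht => ff_lip hs ht) hb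
        have h5 := H2' v' hv'1 (by
          have : v' ≤ l := by linarith
          linarith) (fun u => ff (l / u - 1) / u ^ 2) hb1 (by
          intro u hu u' hu'
          refine (hb2 u hu u' hu').trans ?_
          apply mul_le_mul_of_nonneg_right _ (abs_nonneg _)
          have := mul_le_mul_of_nonneg_left hlk AA_pos.le
          linarith)
        unfold Err at h5
        rw [← sum_eq_quad hω0 g ff l] at h5
        have h6 := (abs_le.mp h5).1
        have h7 : ∑ p ∈ PI (Real.exp ω) (Real.exp (v' * ω)),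
            g p * (ff (l / (Real.log p / ω) - 1) / (Real.log p / ω)) - ε / 2 ≤
            ∑ p ∈ PI (Real.exp ω) (Real.exp (v' * ω)), g p * W false (Real.exp (l * ω) / p)
              ((PI (Real.exp ω) (Real.exp (v * ω))).filter (· < p)) g := by
          have h8 : ∑ p ∈ PI (Real.exp ω) (Real.exp (v' * ω)), g p * (ε / (2 * K)) ≤ ε / 2 := by
            rw [← Finset.sum_mul]
            have h9 := sum_g_le hω0 hωC hg hv'1
            have h10 : v' ≤ K := by
              have : v' ≤ l := by linarith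
              linarith
            calc (∑ p ∈ PI (Real.exp ω) (Real.exp (v' * ω)), g p) * (ε / (2 * K)) ≤ K * (ε / (2 * K)) :=
                  mul_le_mul_of_nonneg_right (h9.trans h10) (by positivity)
              _ = ε / 2 := by rw [mul_comm]; exact hη
          have h9 : ∑ p ∈ PI (Real.exp ω) (Real.exp (v' * ω)),
              g p * (ff (l / (Real.log p / ω) - 1) / (Real.log p / ω) - ε / (2 * K)) ≤
            ∑ p ∈ PI (Real.exp ω) (Real.exp (v' * ω)), g p * W false (Real.exp (l * ω) / p)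
              ((PI (Real.exp ω) (Real.exp (v * ω))).filter (· < p)) g := by
            apply Finset.sum_le_sum
            intro p hp
            have hpv : p ∈ PI (Real.exp ω) (Real.exp (v * ω)) := by
              rw [← hfil, mem_filter] at hp; exact hp.1
            apply mul_le_mul_of_nonneg_left _ (hg.1 p)
            rw [exp_div_p hω0 hpv, PI_filter hω0 hpv]
            have hp' : p ∈ PI (Real.exp (1 * ω)) (Real.exp (v' * ω)) := by rwa [one_mul]
            obtain ⟨h10, h11, -⟩ := mem_PI_exp hω0 hp'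
            set u := Real.log p / ω with hu
            have hu0 : 0 < u := by linarith
            have h12 := (H1' (l - u) u h10 (by
              rw [hK] at hlk; push_cast at hlk; linarith)).2 (by linarith)
            have h13 : (l - u) / u = l / u - 1 := by field_simp
            rw [h13] at h12
            exact h12
          simp only [mul_sub, Finset.sum_sub_distrib] at h9
          linarith
        linarith [one_le_FF (s := l) (by linarith)]
    · intro hvl
      have hl0 : 0 < l := by linarith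
      rw [W_false_eq, ff_integral hv hvl]
      have hb : ∀ u ∈ Set.Icc 1 v, (1 : ℝ) ≤ l / u - 1 := by
        intro u hu
        have hu0 : 0 < u := by linarith [hu.1]
        have : 2 ≤ l / u := by rw [le_div_iff₀ hu0]; linarith [hu.2]
        linarith
      obtain ⟨hb1, hb2⟩ := psi_lipschitz (φ := FF) (A := AA) (c := 1) (l := l) (b := v) AA_pos.le
        hl0.le (fun s hs => abs_FF_le hs) (fun s hs t ht => FF_lip hs ht) hb
      have h5 := H2' v hv (by linarith) (fun u => FF (l / u - 1) / u ^ 2) hb1 (by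
        intro u hu u' hu'
        refine (hb2 u hu u' hu').trans ?_
        apply mul_le_mul_of_nonneg_right _ (abs_nonneg _)
        have := mul_le_mul_of_nonneg_left hlk AA_pos.le
        linarith)
      unfold Err at h5
      rw [← sum_eq_quad hω0 g FF l] at h5
      have h6 := (abs_le.mp h5).2
      have h7 : ∑ p ∈ PI (Real.exp ω) (Real.exp (v * ω)), g p * W true (Real.exp (l * ω) / p)
            ((PI (Real.exp ω) (Real.exp (v * ω))).filter (· < p)) g ≤
          ∑ p ∈ PI (Real.exp ω) (Real.exp (v * ω)),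
          g p * (FF (l / (Real.log p / ω) - 1) / (Real.log p / ω)) + ε / 2 := by
        have h8 : ∑ p ∈ PI (Real.exp ω) (Real.exp (v * ω)), g p * (ε / (2 * K)) ≤ ε / 2 := by
          rw [← Finset.sum_mul]
          have h9 := sum_g_le hω0 hωC hg hv
          have h10 : v ≤ K := by linarith
          calc (∑ p ∈ PI (Real.exp ω) (Real.exp (v * ω)), g p) * (ε / (2 * K)) ≤ K * (ε / (2 * K)) :=
                mul_le_mul_of_nonneg_right (h9.trans h10) (by positivity)
            _ = ε / 2 := by rw [mul_comm]; exact hη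
        have h9 : ∑ p ∈ PI (Real.exp ω) (Real.exp (v * ω)), g p * W true (Real.exp (l * ω) / p)
            ((PI (Real.exp ω) (Real.exp (v * ω))).filter (· < p)) g ≤
            ∑ p ∈ PI (Real.exp ω) (Real.exp (v * ω)),
            g p * (FF (l / (Real.log p / ω) - 1) / (Real.log p / ω) + ε / (2 * K)) := by
          apply Finset.sum_le_sum
          intro p hp
          apply mul_le_mul_of_nonneg_left _ (hg.1 p)
          rw [exp_div_p hω0 hp, PI_filter hω0 hp]
          have hp' : p ∈ PI (Real.exp (1 * ω)) (Real.exp (v * ω)) := by rwa [one_mul]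
          obtain ⟨h10, h11, -⟩ := mem_PI_exp hω0 hp'
          set u := Real.log p / ω with hu
          have hu0 : 0 < u := by linarith
          have h12 := (H1' (l - u) u h10 (by
            rw [hK] at hlk; push_cast at hlk; linarith)).1 (by linarith)
          have h13 : (l - u) / u = l / u - 1 := by field_simp
          rw [h13] at h12
          exact h12
        simp only [mul_add, Finset.sum_add_distrib] at h9
        linarith
      linarith [ff_le_one l]

/-- **The main terms of the linear sieve.** With `s = log D / log z`: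
`W⁺ ≤ (log w / log z) (F s + ε)` if `s ≥ 1`, `W⁻ ≥ (log w / log z) (f s - ε)` if `s ≥ 2`. -/
theorem linear_sieve_main (C K ε : ℝ) (hC : 0 ≤ C) (hε : 0 < ε) : ∃ w0 : ℝ, 1 < w0 ∧
    ∀ w, w0 ≤ w → ∀ g, Dim C (Real.log w) g → ∀ z D : ℝ, w ≤ z → 0 < D →
      Real.log D ≤ K * Real.log w →
      (1 ≤ Real.log D / Real.log z →
        W true D (PI w z) g ≤ Real.log w / Real.log z * (FF (Real.log D / Real.log z) + ε)) ∧
      (2 ≤ Real.log D / Real.log z →
        Real.log w / Real.log z * (ff (Real.log D / Real.log z) - ε) ≤ W false D (PI w z) g) := by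
  obtain ⟨k, hk⟩ := exists_nat_ge (max K 1)
  have hkK : K ≤ k := (le_max_left _ _).trans hk
  have hk1 : (1 : ℝ) ≤ k := (le_max_right _ _).trans hk
  have hk0 : (0 : ℝ) < k := by linarith
  obtain ⟨ω0, hω0, H⟩ := main_induction C hC k (ε / k) (by positivity)
  refine ⟨Real.exp ω0, Real.one_lt_exp_iff.mpr hω0, ?_⟩
  intro w hw g hg z D hwz hD hDK
  have hw1 : 1 < w := (Real.one_lt_exp_iff.mpr hω0).trans_le hw
  have hw0 : 0 < w := by linarith
  have hz0 : 0 < z := by linarith
  have hω : ω0 ≤ Real.log w := (Real.le_log_iff_exp_le hw0).mpr hw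
  have hlw : 0 < Real.log w := by linarith
  have hlz : Real.log w ≤ Real.log z := Real.log_le_log hw0 hwz
  have hlz0 : 0 < Real.log z := by linarith
  have e1 : Real.exp (Real.log D / Real.log w * Real.log w) = D := by
    rw [div_mul_cancel₀ _ hlw.ne', Real.exp_log hD]
  have e2 : Real.exp (Real.log z / Real.log w * Real.log w) = z := by
    rw [div_mul_cancel₀ _ hlw.ne', Real.exp_log hz0]
  have e3 : Real.exp (Real.log w) = w := Real.exp_log hw0
  have hv1 : 1 ≤ Real.log z / Real.log w := by rw [le_div_iff₀ hlw]; linarith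
  have hl : Real.log D / Real.log w ≤ k := by
    rw [div_le_iff₀ hlw]
    exact hDK.trans (mul_le_mul_of_nonneg_right hkK hlw.le)
  have h1 := H (Real.log w) hω g hg (Real.log D / Real.log w) (Real.log z / Real.log w) hv1 hl
  rw [e1, e2, e3] at h1
  have e4 : Real.log D / Real.log w / (Real.log z / Real.log w) = Real.log D / Real.log z := by
    field_simp
  rw [e4] at h1
  have e5 : ∀ x : ℝ, x / (Real.log z / Real.log w) = Real.log w / Real.log z * x := by
    intro x; field_simp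
  rw [e5, e5] at h1
  have hvk : ∀ t : ℝ, 1 ≤ t → t ≤ Real.log D / Real.log z → ε / k ≤ Real.log w / Real.log z * ε := by
    intro t ht hts
    have h2 : Real.log z ≤ Real.log D := by
      have := ht.trans hts
      rwa [le_div_iff₀ hlz0, one_mul] at this
    have h3 : Real.log z ≤ k * Real.log w := by
      have := (div_le_iff₀ hlw).mp hl
      linarith
    have h4 : 1 / (k : ℝ) ≤ Real.log w / Real.log z := by
      rw [div_le_div_iff₀ hk0 hlz0]; linarith
    calc ε / k = 1 / (k : ℝ) * ε := by ring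
      _ ≤ _ := mul_le_mul_of_nonneg_right h4 hε.le
  constructor
  · intro hs
    have h2 : Real.log z / Real.log w ≤ Real.log D / Real.log w := by
      rw [le_div_iff₀ hlz0, one_mul] at hs
      gcongr
    have h3 := h1.1 h2
    have h4 := hvk 1 le_rfl hs
    rw [mul_add]
    linarith
  · intro hs
    have h2 : 2 * (Real.log z / Real.log w) ≤ Real.log D / Real.log w := by
      rw [le_div_iff₀ hlz0] at hs
      rw [← mul_div_assoc]
      gcongr
    have h3 := h1.2 h2
    have h4 := hvk 2 (by norm_num) hs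
    rw [mul_sub]
    linarith

/-- the same with the closed forms of `F`, `f` for small `s` -/
theorem linear_sieve_small (C K ε : ℝ) (hC : 0 ≤ C) (hε : 0 < ε) : ∃ w0 : ℝ, 1 < w0 ∧
    ∀ w, w0 ≤ w → ∀ g, Dim C (Real.log w) g → ∀ z D : ℝ, w ≤ z → 0 < D →
      Real.log D ≤ K * Real.log w →
      (1 ≤ Real.log D / Real.log z → Real.log D / Real.log z ≤ 3 →
        W true D (PI w z) g ≤ Real.log w / Real.log z * (AA / (Real.log D / Real.log z) + ε)) ∧
      (2 ≤ Real.log D / Real.log z → Real.log D / Real.log z ≤ 4 →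
        Real.log w / Real.log z * (AA * Real.log (Real.log D / Real.log z - 1) /
          (Real.log D / Real.log z) - ε) ≤ W false D (PI w z) g) := by
  obtain ⟨w0, hw0, H⟩ := linear_sieve_main C K ε hC hε
  refine ⟨w0, hw0, ?_⟩
  intro w hw g hg z D hwz hD hDK
  obtain ⟨h1, h2⟩ := H w hw g hg z D hwz hD hDK
  constructor
  · intro hs1 hs3
    rw [← FF_of_le_three hs1 hs3]; exact h1 hs1
  · intro hs2 hs4
    rw [← ff_of_le_four hs2 hs4]; exact h2 hs2

/-! ### densities of dimension one -/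

lemma sum_log_div_PI {x y : ℝ} (hx : 3 ≤ x) (hxy : x ≤ y) :
    |∑ p ∈ PI x y, Real.log p / p - (Real.log y - Real.log x)| ≤ 6 := by
  set m := ⌈x⌉₊ - 1 with hm
  set n := ⌈y⌉₊ - 1 with hn
  have hx1 : 3 ≤ ⌈x⌉₊ := by
    have : (3 : ℝ) ≤ ⌈x⌉₊ := hx.trans (Nat.le_ceil x)
    exact_mod_cast this
  have hy1 : ⌈x⌉₊ ≤ ⌈y⌉₊ := Nat.ceil_mono hxy
  have hmn : m ≤ n := by omega
  have h1 : ∑ p ∈ PI x y, Real.log p / p = H16.mA n - H16.mA m := by
    unfold H16.mA
    have hsub : Nat.primesLE m ⊆ Nat.primesLE n := by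
      intro p hp
      rw [Nat.mem_primesLE] at hp ⊢
      exact ⟨by omega, hp.2⟩
    rw [← Finset.sum_sdiff hsub, add_sub_cancel_right]
    congr 1
    ext p
    rw [mem_PI, mem_sdiff, Nat.mem_primesLE, Nat.mem_primesLE, ← Nat.lt_ceil, ← Nat.ceil_le]
    constructor
    · rintro ⟨h1, h2, h3⟩
      exact ⟨⟨by omega, h1⟩, fun h => by omega⟩
    · rintro ⟨⟨h1, h2⟩, h3⟩
      refine ⟨h2, ?_, by omega⟩
      by_contra h4
      exact h3 ⟨by omega, h2⟩
  have hm1 : 1 ≤ m := by omega
  have hn1 : 1 ≤ n := by omega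
  have hA1 := H16.mA_le n hn1
  have hA2 := H16.mA_ge n hn1
  have hB1 := H16.mA_le m hm1
  have hB2 := H16.mA_ge m hm1
  have hl4 : Real.log 4 ≤ 2 := by
    have : Real.log 4 = 2 * Real.log 2 := by
      rw [show (4 : ℝ) = 2 ^ 2 by norm_num, Real.log_pow]; norm_num
    have := Real.log_two_lt_d9
    linarith
  have hlog : ∀ t : ℝ, 3 ≤ t → Real.log t - 1 ≤ Real.log ((⌈t⌉₊ - 1 : ℕ) : ℝ) ∧
      Real.log ((⌈t⌉₊ - 1 : ℕ) : ℝ) ≤ Real.log t := by
    intro t ht
    have ht1 : 3 ≤ ⌈t⌉₊ := by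
      have : (3 : ℝ) ≤ ⌈t⌉₊ := ht.trans (Nat.le_ceil t)
      exact_mod_cast this
    have ht2 : ((⌈t⌉₊ - 1 : ℕ) : ℝ) = (⌈t⌉₊ : ℝ) - 1 := by
      rw [Nat.cast_sub (by omega)]; simp
    have ht3 : (⌈t⌉₊ : ℝ) < t + 1 := Nat.ceil_lt_add_one (by linarith)
    have ht4 := Nat.le_ceil t
    rw [ht2]
    constructor
    · have h5 : Real.log t - 1 = Real.log (t / Real.exp 1) := by
        rw [Real.log_div (by linarith) (Real.exp_ne_zero _), Real.log_exp]
      rw [h5]
      apply Real.log_le_log (by positivity)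
      rw [div_le_iff₀ (Real.exp_pos 1)]
      have := Real.exp_one_gt_d9
      nlinarith
    · apply Real.log_le_log (by linarith)
      linarith
  have hlx := hlog x hx
  have hly := hlog y (hx.trans hxy)
  rw [h1, abs_le]
  rw [← hm] at hlx
  rw [← hn] at hly
  constructor <;> linarith [hlx.1, hlx.2, hly.1, hly.2]

/-- densities close to `1 / p` have dimension one -/
theorem dim_of_close (c : ℝ) (hc : 0 ≤ c) : ∃ C : ℝ, 0 ≤ C ∧ ∀ ω : ℝ, 2 ≤ ω → ∀ g : ℕ → ℝ,
    (∀ p, 0 ≤ g p) → (∀ p : ℕ, p.Prime → Real.exp ω ≤ p → |g p - 1 / p| ≤ c / (p : ℝ) ^ 2) →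
    Dim C ω g := by
  have hsum : Summable (fun n : ℕ => 1 / (n : ℝ) ^ (3 / 2 : ℝ)) :=
    Real.summable_one_div_nat_rpow.mpr (by norm_num)
  have hT : 0 ≤ ∑' n : ℕ, 1 / (n : ℝ) ^ (3 / 2 : ℝ) := tsum_nonneg fun n => by positivity
  refine ⟨6 + 2 * c * ∑' n : ℕ, 1 / (n : ℝ) ^ (3 / 2 : ℝ), by positivity, ?_⟩
  intro ω hω g hg0 hg
  refine ⟨hg0, ?_⟩
  intro x y hx hxy
  have hx3 : 3 ≤ x := by
    have h1 := Real.add_one_le_exp ω
    linarith
  have h1 := sum_log_div_PI hx3 hxy
  have h2 : ∑ p ∈ PI x y, g p * Real.log p - (Real.log y - Real.log x) =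
      (∑ p ∈ PI x y, Real.log p / p - (Real.log y - Real.log x)) +
      ∑ p ∈ PI x y, (g p - 1 / p) * Real.log p := by
    have h3 : ∑ p ∈ PI x y, (g p - 1 / p) * Real.log p =
        ∑ p ∈ PI x y, g p * Real.log p - ∑ p ∈ PI x y, Real.log p / p := by
      rw [← Finset.sum_sub_distrib]
      apply Finset.sum_congr rfl
      intro p _
      ring
    rw [h3]; ring
  rw [h2]
  refine (abs_add_le _ _).trans (add_le_add h1 ?_)
  calc |∑ p ∈ PI x y, (g p - 1 / p) * Real.log p| ≤ ∑ p ∈ PI x y, |(g p - 1 / p) * Real.log p| :=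
        abs_sum_le_sum_abs _ _
    _ ≤ ∑ p ∈ PI x y, 2 * c * (1 / (p : ℝ) ^ (3 / 2 : ℝ)) := by
        apply Finset.sum_le_sum
        intro p hp
        rw [mem_PI] at hp
        have hp0 : (0 : ℝ) < p := by exact_mod_cast hp.1.pos
        have h4 := hg p hp.1 (hx.trans hp.2.1)
        have h5 : Real.log p ≤ (p : ℝ) ^ (1 / 2 : ℝ) / (1 / 2) :=
          Real.log_le_rpow_div hp0.le (by norm_num)
        have h6 : (p : ℝ) ^ (2 : ℕ) = (p : ℝ) ^ (3 / 2 : ℝ) * (p : ℝ) ^ (1 / 2 : ℝ) := by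
          rw [← Real.rpow_add hp0, ← Real.rpow_natCast]; norm_num
        rw [abs_mul, abs_of_nonneg (Real.log_natCast_nonneg p)]
        calc |g p - 1 / p| * Real.log p ≤ c / (p : ℝ) ^ 2 * ((p : ℝ) ^ (1 / 2 : ℝ) / (1 / 2)) :=
              mul_le_mul h4 h5 (Real.log_natCast_nonneg p) (by positivity)
          _ = 2 * c * (1 / (p : ℝ) ^ (3 / 2 : ℝ)) := by
              rw [h6]
              have : (p : ℝ) ^ (1 / 2 : ℝ) ≠ 0 := (Real.rpow_pos_of_pos hp0 _).ne'
              field_simp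
    _ = 2 * c * ∑ p ∈ PI x y, 1 / (p : ℝ) ^ (3 / 2 : ℝ) := by rw [Finset.mul_sum]
    _ ≤ 2 * c * ∑' n : ℕ, 1 / (n : ℝ) ^ (3 / 2 : ℝ) := by
        apply mul_le_mul_of_nonneg_left _ (by positivity)
        exact hsum.sum_le_tsum _ (fun n _ => by positivity)

/-- `1 / p` and `1 / (p - 1)` -/
theorem dim_inv : ∃ C : ℝ, 0 ≤ C ∧ ∀ ω : ℝ, 2 ≤ ω → Dim C ω (fun p => 1 / (p : ℝ)) ∧
    Dim C ω (fun p => if p = 0 then 0 else 1 / ((p : ℝ) - 1)) := by
  obtain ⟨C, hC, H⟩ := dim_of_close 2 (by norm_num)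
  refine ⟨C, hC, ?_⟩
  intro ω hω
  constructor
  · apply H ω hω
    · intro p; positivity
    · intro p _ _; rw [sub_self, abs_zero]; positivity
  · apply H ω hω
    · intro p
      split_ifs with h
      · exact le_rfl
      · have : (1 : ℝ) ≤ p := by exact_mod_cast Nat.one_le_iff_ne_zero.mpr h
        apply div_nonneg zero_le_one; linarith
    · intro p hp _
      rw [if_neg hp.ne_zero]
      have h2 : (2 : ℝ) ≤ p := by exact_mod_cast hp.two_le
      have h3 : 1 / ((p : ℝ) - 1) - 1 / p = 1 / (((p : ℝ) - 1) * p) := by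
        have : (p : ℝ) - 1 ≠ 0 := by linarith
        have : (p : ℝ) ≠ 0 := by linarith
        field_simp
        ring
      rw [h3, abs_of_nonneg (by
        apply div_nonneg zero_le_one
        nlinarith)]
      rw [div_le_div_iff₀ (by nlinarith) (by positivity)]
      nlinarith

end Pool.Agent.H90.LS
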