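import Mathlib
import Pool.Agent.H90.LS.Main

/-!
# Sums over primes as integrals (uniform Mertens quadrature)
-/

set_option autoImplicit false

namespace Pool.Agent.H90.LS

open Finset MeasureTheory

/-- **Quadrature on `[a, b]`.** -/
lemma Err_small_ab (C B L K δ : ℝ) (hC : 0 ≤ C) (hL : 0 ≤ L) (hK : 1 ≤ K)
    (hδ : 0 < δ) : ∃ ω0 : ℝ, 0 < ω0 ∧ ∀ ω, ω0 ≤ ω → ∀ g, Dim C ω g → ∀ a b, 1 ≤ a → a ≤ b →
      b ≤ K → ∀ ψ : ℝ → ℝ,
      (∀ u ∈ Set.Icc a b, |ψ u| ≤ B) →
      (∀ u ∈ Set.Icc a b, ∀ v ∈ Set.Icc a b, |ψ u - ψ v| ≤ L * |u - v|) →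
      |Err g ω ψ a b| ≤ δ := by
  obtain ⟨n, hn⟩ := exists_nat_gt (4 * L * K ^ 2 / δ)
  set N : ℝ := (n : ℝ) + 1 with hN
  have hN0 : 0 < N := by positivity
  refine ⟨max 1 (2 * N * (B * C + L * K * C) / δ), lt_of_lt_of_le one_pos (le_max_left _ _), ?_⟩
  intro ω hω g hg a b ha1 hab hbK ψ hB hψ
  have hω1 : 1 ≤ ω := (le_max_left _ _).trans hω
  have hω0 : 0 < ω := by linarith
  have hω2 : 2 * N * (B * C + L * K * C) / δ ≤ ω := (le_max_right _ _).trans hω
  set h : ℝ := (b - a) / N with hh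
  have hh0 : 0 ≤ h := div_nonneg (by linarith) hN0.le
  have hNh : N * h = b - a := by rw [hh]; field_simp
  have hb : a + ((n + 1 : ℕ) : ℝ) * h = b := by
    push_cast
    rw [← hN, hNh]; ring
  have hc : ContinuousOn ψ (Set.Icc a b) := by
    have h1 : LipschitzOnWith (Real.toNNReal L) ψ (Set.Icc a b) := by
      apply LipschitzOnWith.of_dist_le_mul
      intro x hx y hy
      rw [Real.dist_eq, Real.dist_eq, Real.coe_toNNReal _ hL]
      exact hψ x hx y hy
    exact h1.continuousOn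
  have h1 := Err_le hω0 hg (a := a) (B := B) (L := L) (h := h) (ψ := ψ) ha1 hh0 hL (n + 1)
    (by rw [hb]; exact hB) (by rw [hb]; exact hψ) (by rw [hb]; exact hc)
  rw [hb] at h1
  refine h1.trans ?_
  have h2 : ((n + 1 : ℕ) : ℝ) = N := by push_cast; rfl
  rw [h2]
  have hhK : h ≤ K / N := by
    rw [hh]; gcongr; linarith
  have hN1 : 1 ≤ N := by rw [hN]; have : (0 : ℝ) ≤ n := Nat.cast_nonneg n; linarith
  have hhK' : h ≤ K := hhK.trans (div_le_self (by linarith) hN1)
  have h3 : N * (B * C / ω + L * h * (2 * h + C / ω)) =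
      2 * L * h * (N * h) + N * (B * C + L * h * C) / ω := by
    field_simp
    ring
  rw [h3, hNh]
  have h4 : 2 * L * h * (b - a) ≤ δ / 2 := by
    calc 2 * L * h * (b - a) ≤ 2 * L * (K / N) * K := by
          gcongr
          linarith
      _ = 2 * L * K ^ 2 / N := by ring
      _ ≤ δ / 2 := by
          rw [div_le_iff₀ hN0]
          rw [div_lt_iff₀ hδ] at hn
          nlinarith
  have h5 : N * (B * C + L * h * C) / ω ≤ δ / 2 := by
    rw [div_le_iff₀ hω0]
    rw [div_le_iff₀ hδ] at hω2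
    have h6 : N * (B * C + L * h * C) ≤ N * (B * C + L * K * C) := by gcongr
    linarith
  linarith

/-- **Uniform Mertens quadrature.** For `x = exp X` large,
`∑_{x^a ≤ p < x^b} g(p) φ(log p / log x) = ∫_a^b φ(t) / t dt + O(ε)`, uniformly for `a0 ≤ a ≤ b ≤ 1`, for
densities `g` of dimension one, and for `φ` with `|φ| ≤ B`, `L`-Lipschitz on `[a, b]`. -/
theorem quad (a0 C B L ε : ℝ) (ha0 : 0 < a0) (ha1 : a0 ≤ 1) (hC : 0 ≤ C) (hB : 0 ≤ B) (hL : 0 ≤ L)
    (hε : 0 < ε) : ∃ X0 : ℝ, 0 < X0 ∧ ∀ X, X0 ≤ X → ∀ g, Dim C (a0 * X) g → ∀ a b, a0 ≤ a → a ≤ b →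
      b ≤ 1 → ∀ φ : ℝ → ℝ, (∀ u ∈ Set.Icc a b, |φ u| ≤ B) →
      (∀ u ∈ Set.Icc a b, ∀ v ∈ Set.Icc a b, |φ u - φ v| ≤ L * |u - v|) →
      |∑ p ∈ PI (Real.exp (a * X)) (Real.exp (b * X)), g p * φ (Real.log p / X) -
        ∫ t in a..b, φ t / t| ≤ ε := by
  obtain ⟨ω0, hω0, H⟩ := Err_small_ab C B (L * a0 + B) (1 / a0) ε hC (by positivity)
    (by rw [le_div_iff₀ ha0]; linarith) hε
  refine ⟨ω0 / a0, by positivity, ?_⟩
  intro X hX g hg a b haa hab hb1 φ hφB hφL
  have hXω : ω0 ≤ a0 * X := by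
    rw [div_le_iff₀ ha0] at hX; linarith
  have hX0 : 0 < X := lt_of_lt_of_le (by positivity) hX
  have hlo : 1 ≤ a / a0 := by rw [le_div_iff₀ ha0]; linarith
  have hmid : a / a0 ≤ b / a0 := by gcongr
  have hhi : b / a0 ≤ 1 / a0 := by gcongr
  -- points
  have hpt : ∀ u ∈ Set.Icc (a / a0) (b / a0), a0 * u ∈ Set.Icc a b ∧ 1 ≤ u := by
    intro u hu
    refine ⟨⟨?_, ?_⟩, hlo.trans hu.1⟩
    · have := (div_le_iff₀ ha0).mp hu.1; linarith
    · have := (le_div_iff₀ ha0).mp hu.2; linarith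
  have h1 := H (a0 * X) hXω g hg (a / a0) (b / a0) hlo hmid hhi (fun u => φ (a0 * u) / u)
    (by
      intro u hu
      obtain ⟨h2, h3⟩ := hpt u hu
      rw [abs_div, abs_of_pos (by linarith : 0 < u)]
      exact (div_le_self (abs_nonneg _) h3).trans (hφB _ h2))
    (by
      intro u hu v hv
      obtain ⟨h2, h3⟩ := hpt u hu
      obtain ⟨h4, h5⟩ := hpt v hv
      have hu0 : 0 < u := by linarith
      have hv0 : 0 < v := by linarith
      have h6 : φ (a0 * u) / u - φ (a0 * v) / v =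
          (φ (a0 * u) - φ (a0 * v)) / u + φ (a0 * v) * ((v - u) / (u * v)) := by
        field_simp
        ring
      rw [h6]
      refine (abs_add_le _ _).trans ?_
      have h7 : |(φ (a0 * u) - φ (a0 * v)) / u| ≤ L * a0 * |u - v| := by
        rw [abs_div, abs_of_pos hu0]
        refine (div_le_self (abs_nonneg _) h3).trans ?_
        refine (hφL _ h2 _ h4).trans (le_of_eq ?_)
        rw [← mul_sub, abs_mul, abs_of_pos ha0]; ring
      have h8 : |φ (a0 * v) * ((v - u) / (u * v))| ≤ B * |u - v| := by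
        rw [abs_mul]
        apply mul_le_mul (hφB _ h4) _ (abs_nonneg _) hB
        rw [abs_div, abs_of_pos (by positivity : 0 < u * v), abs_sub_comm]
        exact div_le_self (abs_nonneg _) (by nlinarith)
      linarith)
  unfold Err at h1
  have e1 : a / a0 * (a0 * X) = a * X := by field_simp
  have e2 : b / a0 * (a0 * X) = b * X := by field_simp
  rw [e1, e2] at h1
  have e3 : ∑ p ∈ PI (Real.exp (a * X)) (Real.exp (b * X)), g p * Real.log p / (a0 * X) *
      (φ (a0 * (Real.log p / (a0 * X))) / (Real.log p / (a0 * X))) =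
      ∑ p ∈ PI (Real.exp (a * X)) (Real.exp (b * X)), g p * φ (Real.log p / X) := by
    apply Finset.sum_congr rfl
    intro p hp
    rw [mem_PI] at hp
    have h2 : 0 < Real.log p := Real.log_pos (by exact_mod_cast hp.1.one_lt)
    have h3 : a0 * (Real.log p / (a0 * X)) = Real.log p / X := by field_simp
    rw [h3]
    field_simp
  have e4 : ∫ u in (a / a0)..(b / a0), φ (a0 * u) / u = ∫ t in a..b, φ t / t := by
    have h2 := intervalIntegral.integral_comp_mul_left (a := a / a0) (b := b / a0)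
      (fun t => φ t / t) ha0.ne'
    have h3 : a0 * (a / a0) = a := by field_simp
    have h4 : a0 * (b / a0) = b := by field_simp
    rw [h3, h4, smul_eq_mul] at h2
    have h5 : ∫ u in (a / a0)..(b / a0), φ (a0 * u) / u =
        a0 * ∫ u in (a / a0)..(b / a0), φ (a0 * u) / (a0 * u) := by
      rw [← intervalIntegral.integral_const_mul]
      apply intervalIntegral.integral_congr
      intro u hu
      rw [Set.uIcc_of_le hmid] at hu
      have : u ≠ 0 := by linarith [(hpt u hu).2]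
      simp only
      field_simp
    rw [h5, h2]
    field_simp
  rw [e3, e4] at h1
  exact h1

end Pool.Agent.H90.LS
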