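import Mathlib
import Pool.Agent.H90.LS.Quad

/-!
# The integrals in Chen's theorem

`cc = ∫_{1/8}^{1/3} log (2 - 3 t) / (t (1 - t)) dt < 0.39 < log (3/2) = 2 log 3 - log 6`, and the sums over
primes which tend to `log 6` and to `cc`.
-/

set_option autoImplicit false

namespace Pool.Agent.H90.LS

open Finset MeasureTheory

/-- the constant of the switching term -/
noncomputable def cc : ℝ := ∫ t in (1 / 8 : ℝ)..(1 / 3), Real.log (2 - 3 * t) / (1 - t) / t

/-- the integrand -/
noncomputable def hC (t : ℝ) : ℝ := Real.log (2 - 3 * t) / (1 - t)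

lemma log_le_half_sub_inv {y : ℝ} (hy : 1 ≤ y) : Real.log y ≤ (y - 1 / y) / 2 := by
  have hy0 : 0 < y := by linarith
  have h1 : 0 ≤ Real.log y := Real.log_nonneg hy
  have h2 := Real.self_le_sinh_iff.mpr h1
  rw [Real.sinh_eq, Real.exp_log hy0, Real.exp_neg, Real.exp_log hy0] at h2
  rw [one_div]
  exact h2

lemma hC_antitone : AntitoneOn (fun t => hC t / t) (Set.Icc (1 / 8 : ℝ) (1 / 3)) := by
  intro s hs t ht hst
  simp only [hC]
  have hs1 := hs.1
  have ht2 := ht.2
  have h1 : 0 ≤ Real.log (2 - 3 * t) := Real.log_nonneg (by linarith)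
  have h2 : Real.log (2 - 3 * t) ≤ Real.log (2 - 3 * s) := Real.log_le_log (by linarith) (by linarith)
  rw [div_div, div_div]
  have h3 : 0 < (1 - s) * s := mul_pos (by linarith) (by linarith)
  have h4 : (1 - s) * s ≤ (1 - t) * t := by nlinarith
  exact div_le_div₀ (h1.trans h2) h2 h3 h4

lemma cc_lt : cc < 39 / 100 := by
  have h0 : cc = 5 / 768 * ∫ u in (0 : ℝ)..(0 + (32 : ℕ)), hC (5 / 768 * u + 1 / 8) / (5 / 768 * u + 1 / 8) := by
    have h1 := intervalIntegral.integral_comp_mul_add (a := 0) (b := 0 + ((32 : ℕ) : ℝ))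
      (fun t => hC t / t) (c := 5 / 768) (by norm_num) (1 / 8)
    rw [h1]
    unfold cc
    simp only [hC]
    rw [smul_eq_mul]
    norm_num
    ring
  have h1 : AntitoneOn (fun u : ℝ => hC (5 / 768 * u + 1 / 8) / (5 / 768 * u + 1 / 8))
      (Set.Icc (0 : ℝ) (0 + (32 : ℕ))) := by
    intro s hs t ht hst
    have hs1 := hs.1
    have ht2 := ht.2
    norm_num at ht2
    apply hC_antitone
    · constructor <;> linarith
    · constructor <;> linarith
    · linarith
  have h2 := h1.integral_le_sum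
  rw [h0]
  have h3 : ∀ i : ℕ, i < 32 → hC (5 / 768 * (0 + (i : ℝ)) + 1 / 8) / (5 / 768 * (0 + (i : ℝ)) + 1 / 8) ≤
      ((2 - 3 * (5 / 768 * (i : ℝ) + 1 / 8)) - 1 / (2 - 3 * (5 / 768 * (i : ℝ) + 1 / 8))) / 2 /
        (1 - (5 / 768 * (i : ℝ) + 1 / 8)) / (5 / 768 * (i : ℝ) + 1 / 8) := by
    intro i hi
    have hi' : (i : ℝ) ≤ 31 := by exact_mod_cast Nat.le_of_lt_succ hi
    have hi0 : (0 : ℝ) ≤ i := Nat.cast_nonneg i
    rw [zero_add]
    unfold hC
    have h4 := log_le_half_sub_inv (y := 2 - 3 * (5 / 768 * (i : ℝ) + 1 / 8)) (by linarith)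
    have h5 : 0 < 1 - (5 / 768 * (i : ℝ) + 1 / 8) := by linarith
    have h6 : 0 < 5 / 768 * (i : ℝ) + 1 / 8 := by linarith
    gcongr
  have h4 : ∑ i ∈ Finset.range 32, hC (5 / 768 * (0 + (i : ℝ)) + 1 / 8) / (5 / 768 * (0 + (i : ℝ)) + 1 / 8) ≤
      ∑ i ∈ Finset.range 32, ((2 - 3 * (5 / 768 * (i : ℝ) + 1 / 8)) -
        1 / (2 - 3 * (5 / 768 * (i : ℝ) + 1 / 8))) / 2 /
        (1 - (5 / 768 * (i : ℝ) + 1 / 8)) / (5 / 768 * (i : ℝ) + 1 / 8) :=
    Finset.sum_le_sum fun i hi => h3 i (Finset.mem_range.mp hi)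
  have h5 : 5 / 768 * ∑ i ∈ Finset.range 32, ((2 - 3 * (5 / 768 * (i : ℝ) + 1 / 8)) -
        1 / (2 - 3 * (5 / 768 * (i : ℝ) + 1 / 8))) / 2 /
        (1 - (5 / 768 * (i : ℝ) + 1 / 8)) / (5 / 768 * (i : ℝ) + 1 / 8) < 39 / 100 := by
    simp only [Finset.sum_range_succ, Finset.sum_range_zero]
    norm_num
  have h6 := h2.trans h4
  nlinarith

lemma log_three_half_gt : 2 / 5 < Real.log (3 / 2) := by
  rw [Real.lt_log_iff_exp_lt (by norm_num)]
  have h1 : Real.exp (2 / 5) ^ 5 < (3 / 2) ^ 5 := by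
    rw [← Real.exp_nat_mul]
    have h2 : ((5 : ℕ) : ℝ) * (2 / 5) = 1 + 1 := by norm_num
    rw [h2, Real.exp_add]
    have := Real.exp_one_lt_d9
    have := Real.exp_pos 1
    nlinarith
  exact lt_of_pow_lt_pow_left₀ 5 (by norm_num) h1

/-- **Chen's numerical inequality.** -/
theorem chen_numeric : cc + 1 / 100 < 2 * Real.log 3 - Real.log 6 := by
  have h1 : Real.log (3 / 2) = 2 * Real.log 3 - Real.log 6 := by
    have h2 : Real.log ((3 : ℝ) ^ 2) = 2 * Real.log 3 := by rw [Real.log_pow]; norm_num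
    rw [← h2, ← Real.log_div (by norm_num) (by norm_num)]
    norm_num
  rw [← h1]
  linarith [log_three_half_gt, cc_lt]

/-- the sum of the weights -/
theorem chen_sum_one (C ε : ℝ) (hC : 0 ≤ C) (hε : 0 < ε) : ∃ X0 : ℝ, 0 < X0 ∧ ∀ X, X0 ≤ X →
    ∀ g, Dim C (1 / 8 * X) g →
    |∑ p ∈ PI (Real.exp (1 / 8 * X)) (Real.exp (1 / 3 * X)), g p * (1 / (1 - 2 * (Real.log p / X))) -
      Real.log 6| ≤ ε := by
  obtain ⟨X0, hX0, H⟩ := quad (1 / 8) C 3 18 ε (by norm_num) (by norm_num) hC (by norm_num)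
    (by norm_num) hε
  refine ⟨X0, hX0, ?_⟩
  intro X hX g hg
  have h1 := H X hX g hg (1 / 8) (1 / 3) le_rfl (by norm_num) (by norm_num)
    (fun t => 1 / (1 - 2 * t)) (by
      intro u hu
      have h2 : 1 / 3 ≤ 1 - 2 * u := by linarith [hu.2]
      rw [abs_of_pos (by positivity), div_le_iff₀ (by linarith)]
      linarith) (by
      intro u hu v hv
      have h2 : 1 / 3 ≤ 1 - 2 * u := by linarith [hu.2]
      have h3 : 1 / 3 ≤ 1 - 2 * v := by linarith [hv.2]
      have h4 : 1 / (1 - 2 * u) - 1 / (1 - 2 * v) = 2 * (u - v) / ((1 - 2 * u) * (1 - 2 * v)) := by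
        have : (1 - 2 * u) ≠ 0 := by linarith
        have : (1 - 2 * v) ≠ 0 := by linarith
        field_simp
        ring
      have h5 : (1 / 3) * (1 / 3) ≤ (1 - 2 * u) * (1 - 2 * v) := by
        apply mul_le_mul h2 h3 (by norm_num) (by linarith)
      rw [h4, abs_div, abs_of_pos (by linarith : 0 < (1 - 2 * u) * (1 - 2 * v)),
        div_le_iff₀ (by linarith), abs_mul, abs_of_pos (by norm_num : (0 : ℝ) < 2)]
      nlinarith [abs_nonneg (u - v)])
  have h2 : ∫ t in (1 / 8 : ℝ)..(1 / 3), 1 / (1 - 2 * t) / t = Real.log 6 := by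
    have h3 : ∀ t ∈ Set.uIcc (1 / 8 : ℝ) (1 / 3), HasDerivAt
        (fun t : ℝ => Real.log t - Real.log (1 - 2 * t)) (1 / (1 - 2 * t) / t) t := by
      intro t ht
      rw [Set.uIcc_of_le (by norm_num)] at ht
      have ht0 : t ≠ 0 := by linarith [ht.1]
      have ht1 : 1 - 2 * t ≠ 0 := by linarith [ht.2]
      have h4 : HasDerivAt (fun t : ℝ => 1 - 2 * t) (-2) t := by
        have := ((hasDerivAt_id t).const_mul 2).const_sub 1
        simpa using this
      refine ((Real.hasDerivAt_log ht0).sub (h4.log ht1)).congr_deriv ?_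
      obtain ⟨w, hw⟩ : ∃ w, w = 1 - 2 * t := ⟨_, rfl⟩
      rw [← hw] at ht1 ⊢
      field_simp
      linarith
    rw [intervalIntegral.integral_eq_sub_of_hasDerivAt h3]
    · have e1 : Real.log (1 / 3) = - Real.log 3 := by rw [one_div, Real.log_inv]
      have e2 : Real.log (1 / 8) = - (3 * Real.log 2) := by
        rw [one_div, Real.log_inv, show (8 : ℝ) = 2 ^ 3 by norm_num, Real.log_pow]; norm_num
      have e3 : Real.log (1 - 2 * (1 / 3)) = - Real.log 3 := by
        rw [show (1 : ℝ) - 2 * (1 / 3) = 3⁻¹ by norm_num, Real.log_inv]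
      have e4 : Real.log (1 - 2 * (1 / 8)) = Real.log 3 - 2 * Real.log 2 := by
        rw [show (1 : ℝ) - 2 * (1 / 8) = 3 / 2 ^ 2 by norm_num, Real.log_div (by norm_num) (by norm_num),
          Real.log_pow]; norm_num
      have e5 : Real.log 6 = Real.log 2 + Real.log 3 := by
        rw [← Real.log_mul (by norm_num) (by norm_num)]; norm_num
      rw [e1, e2, e3, e4, e5]
      ring
    · apply ContinuousOn.intervalIntegrable
      intro t ht
      rw [Set.uIcc_of_le (by norm_num)] at ht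
      have ht0 : t ≠ 0 := by linarith [ht.1]
      have ht1 : 1 - 2 * t ≠ 0 := by linarith [ht.2]
      apply ContinuousAt.continuousWithinAt
      have hc1 : ContinuousAt (fun t : ℝ => 1 - 2 * t) t := by fun_prop
      exact (continuousAt_const.div hc1 ht1).div continuousAt_id ht0
  rw [h2] at h1
  exact h1

lemma log_lip {a b : ℝ} (ha : 1 ≤ a) (hb : 1 ≤ b) : |Real.log a - Real.log b| ≤ |a - b| := by
  wlog h : b ≤ a with H
  · rw [abs_sub_comm, abs_sub_comm a b]
    exact H hb ha (le_of_lt (not_le.mp h))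
  rw [abs_of_nonneg (by linarith [Real.log_le_log (by linarith) h]), abs_of_nonneg (by linarith),
    ← Real.log_div (by linarith) (by linarith)]
  have h1 := Real.log_le_sub_one_of_pos (show 0 < a / b by positivity)
  have h2 : a / b - 1 = (a - b) / b := by field_simp
  rw [h2] at h1
  exact h1.trans (div_le_self (by linarith) hb)

/-- inner sum -/
theorem chen_sum_inner (C ε : ℝ) (hC : 0 ≤ C) (hε : 0 < ε) : ∃ X0 : ℝ, 0 < X0 ∧ ∀ X, X0 ≤ X →
    ∀ g, Dim C (1 / 8 * X) g → ∀ β : ℝ, 1 / 8 ≤ β → β ≤ 1 / 3 →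
    |∑ p ∈ PI (Real.exp (1 / 3 * X)) (Real.exp ((1 - β) / 2 * X)),
      g p * (1 / (1 - β - Real.log p / X)) - Real.log (2 - 3 * β) / (1 - β)| ≤ ε := by
  obtain ⟨X0, hX0, H⟩ := quad (1 / 8) C 3 9 ε (by norm_num) (by norm_num) hC (by norm_num)
    (by norm_num) hε
  refine ⟨X0, hX0, ?_⟩
  intro X hX g hg β hβ1 hβ2
  have h1 := H X hX g hg (1 / 3) ((1 - β) / 2) (by norm_num) (by linarith) (by linarith)
    (fun t => 1 / (1 - β - t)) (by
      intro u hu
      have h2 : 1 / 3 ≤ 1 - β - u := by linarith [hu.2]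
      rw [abs_of_pos (by positivity), div_le_iff₀ (by linarith)]
      linarith) (by
      intro u hu v hv
      have h2 : 1 / 3 ≤ 1 - β - u := by linarith [hu.2]
      have h3 : 1 / 3 ≤ 1 - β - v := by linarith [hv.2]
      have h4 : 1 / (1 - β - u) - 1 / (1 - β - v) = (u - v) / ((1 - β - u) * (1 - β - v)) := by
        have : (1 - β - u) ≠ 0 := by linarith
        have : (1 - β - v) ≠ 0 := by linarith
        field_simp
        ring
      have h5 : (1 / 3) * (1 / 3) ≤ (1 - β - u) * (1 - β - v) := by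
        apply mul_le_mul h2 h3 (by norm_num) (by linarith)
      rw [h4, abs_div, abs_of_pos (by linarith : 0 < (1 - β - u) * (1 - β - v)),
        div_le_iff₀ (by linarith)]
      nlinarith [abs_nonneg (u - v)])
  have h2 : ∫ t in (1 / 3 : ℝ)..((1 - β) / 2), 1 / (1 - β - t) / t =
      Real.log (2 - 3 * β) / (1 - β) := by
    have hβ : 0 < 1 - β := by linarith
    have h3 : ∀ t ∈ Set.uIcc (1 / 3 : ℝ) ((1 - β) / 2), HasDerivAt
        (fun t : ℝ => (Real.log t - Real.log (1 - β - t)) / (1 - β)) (1 / (1 - β - t) / t) t := by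
      intro t ht
      rw [Set.uIcc_of_le (by linarith)] at ht
      have ht0 : t ≠ 0 := by linarith [ht.1]
      have ht1 : 1 - β - t ≠ 0 := by linarith [ht.2]
      have h4 : HasDerivAt (fun t : ℝ => 1 - β - t) (-1) t := (hasDerivAt_id t).const_sub _
      refine (((Real.hasDerivAt_log ht0).sub (h4.log ht1)).div_const _).congr_deriv ?_
      field_simp
      ring
    rw [intervalIntegral.integral_eq_sub_of_hasDerivAt h3]
    · have e1 : Real.log (1 / 3) = - Real.log 3 := by rw [one_div, Real.log_inv]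
      have e2 : 1 - β - (1 - β) / 2 = (1 - β) / 2 := by ring
      have e3 : Real.log (1 - β - 1 / 3) = Real.log (2 - 3 * β) - Real.log 3 := by
        rw [← Real.log_div (by linarith) (by norm_num)]
        congr 1; ring
      rw [e2, e1, e3]
      field_simp
      ring
    · apply ContinuousOn.intervalIntegrable
      intro t ht
      rw [Set.uIcc_of_le (by linarith)] at ht
      have ht0 : t ≠ 0 := by linarith [ht.1]
      have ht1 : 1 - β - t ≠ 0 := by linarith [ht.2]
      apply ContinuousAt.continuousWithinAt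
      have hc1 : ContinuousAt (fun t : ℝ => 1 - β - t) t := by fun_prop
      exact (continuousAt_const.div hc1 ht1).div continuousAt_id ht0
  rw [h2] at h1
  exact h1

/-- **The double sum of the switching term.** -/
theorem chen_sum_two (C ε : ℝ) (hC : 0 ≤ C) (hε : 0 < ε) : ∃ X0 : ℝ, 0 < X0 ∧ ∀ X, X0 ≤ X →
    ∀ g g', Dim C (1 / 8 * X) g → Dim C (1 / 8 * X) g' →
    |∑ p ∈ PI (Real.exp (1 / 8 * X)) (Real.exp (1 / 3 * X)), g p *
      ∑ q ∈ PI (Real.exp (1 / 3 * X)) (Real.exp ((1 - Real.log p / X) / 2 * X)),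
        g' q * (1 / (1 - Real.log p / X - Real.log q / X)) - cc| ≤ ε := by
  obtain ⟨X1, hX1, H1⟩ := chen_sum_inner C (ε / 8) hC (by positivity)
  obtain ⟨X2, hX2, H2⟩ := quad (1 / 8) C 2 9 (ε / 2) (by norm_num) (by norm_num) hC (by norm_num)
    (by norm_num) (by positivity)
  refine ⟨max (max X1 X2) (8 * C), lt_of_lt_of_le hX1 ((le_max_left _ _).trans (le_max_left _ _)), ?_⟩
  intro X hX g g' hg hg'
  have hXX1 : X1 ≤ X := ((le_max_left _ _).trans (le_max_left _ _)).trans hX
  have hXX2 : X2 ≤ X := ((le_max_right _ _).trans (le_max_left _ _)).trans hX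
  have hXC : 8 * C ≤ X := (le_max_right _ _).trans hX
  have hX0 : 0 < X := lt_of_lt_of_le hX1 hXX1
  set S := PI (Real.exp (1 / 8 * X)) (Real.exp (1 / 3 * X)) with hS
  -- outer quadrature
  have h1 := H2 X hXX2 g hg (1 / 8) (1 / 3) le_rfl (by norm_num) (by norm_num)
    (fun t => Real.log (2 - 3 * t) / (1 - t)) (by
      intro u hu
      have h2 : 2 / 3 ≤ 1 - u := by linarith [hu.2]
      have h3 : 0 ≤ Real.log (2 - 3 * u) := Real.log_nonneg (by linarith [hu.2])
      have h4 : Real.log (2 - 3 * u) ≤ 1 := by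
        have := Real.log_le_sub_one_of_pos (show 0 < 2 - 3 * u by linarith [hu.2])
        linarith [hu.1]
      rw [abs_of_nonneg (div_nonneg h3 (by linarith)), div_le_iff₀ (by linarith)]
      linarith) (by
      intro u hu v hv
      have hu1 : 2 / 3 ≤ 1 - u := by linarith [hu.2]
      have hv1 : 2 / 3 ≤ 1 - v := by linarith [hv.2]
      have hlu : 0 ≤ Real.log (2 - 3 * v) := Real.log_nonneg (by linarith [hv.2])
      have hlu2 : Real.log (2 - 3 * v) ≤ 1 := by
        have := Real.log_le_sub_one_of_pos (show 0 < 2 - 3 * v by linarith [hv.2])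
        linarith [hv.1]
      have h4 : Real.log (2 - 3 * u) / (1 - u) - Real.log (2 - 3 * v) / (1 - v) =
          (Real.log (2 - 3 * u) - Real.log (2 - 3 * v)) / (1 - u) +
            Real.log (2 - 3 * v) * ((u - v) / ((1 - u) * (1 - v))) := by
        have : 1 - u ≠ 0 := by linarith
        have : 1 - v ≠ 0 := by linarith
        field_simp
        ring
      rw [h4]
      refine (abs_add_le _ _).trans ?_
      have h5 : |(Real.log (2 - 3 * u) - Real.log (2 - 3 * v)) / (1 - u)| ≤ 9 / 2 * |u - v| := by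
        rw [abs_div, abs_of_pos (by linarith : 0 < 1 - u), div_le_iff₀ (by linarith)]
        have h6 := log_lip (a := 2 - 3 * u) (b := 2 - 3 * v) (by linarith [hu.2]) (by linarith [hv.2])
        have h7 : 2 - 3 * u - (2 - 3 * v) = -3 * (u - v) := by ring
        rw [h7, abs_mul] at h6
        norm_num at h6
        nlinarith [abs_nonneg (u - v)]
      have h6 : |Real.log (2 - 3 * v) * ((u - v) / ((1 - u) * (1 - v)))| ≤ 9 / 4 * |u - v| := by
        have h8 : (2 / 3) * (2 / 3) ≤ (1 - u) * (1 - v) := by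
          apply mul_le_mul hu1 hv1 (by norm_num) (by linarith)
        rw [abs_mul, abs_of_nonneg hlu, abs_div,
          abs_of_pos (by linarith : 0 < (1 - u) * (1 - v))]
        have h7 : |u - v| / ((1 - u) * (1 - v)) ≤ 9 / 4 * |u - v| := by
          rw [div_le_iff₀ (by linarith)]
          nlinarith [abs_nonneg (u - v)]
        have h9 : 0 ≤ |u - v| / ((1 - u) * (1 - v)) := by
          apply div_nonneg (abs_nonneg _); linarith
        nlinarith
      nlinarith [abs_nonneg (u - v)])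
  -- sum of g
  have hg1 : ∑ p ∈ S, g p ≤ 8 / 3 := by
    have h2 := sum_g_le (ω := 1 / 8 * X) (by positivity) (by linarith) hg (v := 8 / 3) (by norm_num)
    have h3 : 8 / 3 * (1 / 8 * X) = 1 / 3 * X := by ring
    rw [h3] at h2
    exact h2
  have h2 : |∑ p ∈ S, g p *
      ∑ q ∈ PI (Real.exp (1 / 3 * X)) (Real.exp ((1 - Real.log p / X) / 2 * X)),
        g' q * (1 / (1 - Real.log p / X - Real.log q / X)) -
      ∑ p ∈ S, g p * (Real.log (2 - 3 * (Real.log p / X)) / (1 - Real.log p / X))| ≤ ε / 2 := by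
    rw [← Finset.sum_sub_distrib]
    refine (abs_sum_le_sum_abs _ _).trans ?_
    have h3 : ∀ p ∈ S, |g p *
      ∑ q ∈ PI (Real.exp (1 / 3 * X)) (Real.exp ((1 - Real.log p / X) / 2 * X)),
        g' q * (1 / (1 - Real.log p / X - Real.log q / X)) -
        g p * (Real.log (2 - 3 * (Real.log p / X)) / (1 - Real.log p / X))| ≤ g p * (ε / 8) := by
      intro p hp
      have hp1 := mem_PI_exp hX0 hp
      rw [← mul_sub, abs_mul, abs_of_nonneg (hg.1 p)]
      exact mul_le_mul_of_nonneg_left (H1 X hXX1 g' hg' (Real.log p / X) hp1.1 hp1.2.1.le) (hg.1 p)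
    refine (Finset.sum_le_sum h3).trans ?_
    rw [← Finset.sum_mul]
    calc (∑ p ∈ S, g p) * (ε / 8) ≤ 8 / 3 * (ε / 8) := mul_le_mul_of_nonneg_right hg1 (by positivity)
      _ ≤ ε / 2 := by linarith
  have h3 : cc = ∫ t in (1 / 8 : ℝ)..(1 / 3), Real.log (2 - 3 * t) / (1 - t) / t := rfl
  rw [← h3] at h1
  have h4 := abs_sub_le (∑ p ∈ S, g p *
      ∑ q ∈ PI (Real.exp (1 / 3 * X)) (Real.exp ((1 - Real.log p / X) / 2 * X)),
        g' q * (1 / (1 - Real.log p / X - Real.log q / X)))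
      (∑ p ∈ S, g p * (Real.log (2 - 3 * (Real.log p / X)) / (1 - Real.log p / X))) cc
  linarith

end Pool.Agent.H90.LS
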