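import Mathlib
import Pool.Agent.H90.LS.Chen
import Pool.Agent.H90.PNT
import Pool.Agent.H16.TypeI2
import Pool.Agent.H16.Vprod

/-!
# The sums over primes in the proof of Chen's theorem
-/

set_option autoImplicit false

namespace Pool.Agent.H90.LS

open Finset MeasureTheory

/-! ### (A1) the tent count -/

/-- generic quadrature, one block -/
lemma gen_block {ι : Type*} (S : Finset ι) (w x : ι → ℝ) (hw : ∀ i ∈ S, 0 ≤ w i) {f : ℝ → ℝ}
    {a b κ B L : ℝ} (hab : a ≤ b) (hB : |f a| ≤ B) (hL : 0 ≤ L)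
    (hf : ∀ u ∈ Set.Icc a b, |f u - f a| ≤ L * (b - a)) (hc : ContinuousOn f (Set.Icc a b))
    (hκ : |∑ i ∈ S.filter (fun i => a < x i ∧ x i ≤ b), w i - (b - a)| ≤ κ) :
    |∑ i ∈ S.filter (fun i => a < x i ∧ x i ≤ b), w i * f (x i) - ∫ u in a..b, f u| ≤
      B * κ + L * (b - a) * (2 * (b - a) + κ) := by
  set S' := S.filter (fun i => a < x i ∧ x i ≤ b) with hS'
  have hba : 0 ≤ b - a := by linarith
  have h2 : ∑ i ∈ S', w i * f (x i) - ∫ u in a..b, f u = ∑ i ∈ S', w i * (f (x i) - f a) +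
      f a * (∑ i ∈ S', w i - (b - a)) - ∫ u in a..b, (f u - f a) := by
    rw [intervalIntegral.integral_sub (ContinuousOn.intervalIntegrable (by rwa [Set.uIcc_of_le hab]))
      (continuous_const.intervalIntegrable _ _), intervalIntegral.integral_const, smul_eq_mul,
      mul_sub, Finset.mul_sum]
    simp only [mul_sub, Finset.sum_sub_distrib]
    have h3 : ∑ i ∈ S', w i * f a = ∑ i ∈ S', f a * w i :=
      Finset.sum_congr rfl fun p _ => mul_comm _ _
    rw [h3]
    ring
  have h3 : |∑ i ∈ S', w i * (f (x i) - f a)| ≤ (b - a + κ) * (L * (b - a)) := by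
    calc |∑ i ∈ S', w i * (f (x i) - f a)|
        ≤ ∑ i ∈ S', |w i * (f (x i) - f a)| := abs_sum_le_sum_abs _ _
      _ ≤ ∑ i ∈ S', w i * (L * (b - a)) := by
        apply Finset.sum_le_sum
        intro p hp
        rw [hS', mem_filter] at hp
        rw [abs_mul, abs_of_nonneg (hw p hp.1)]
        exact mul_le_mul_of_nonneg_left (hf _ ⟨hp.2.1.le, hp.2.2⟩) (hw p hp.1)
      _ = (∑ i ∈ S', w i) * (L * (b - a)) := by rw [Finset.sum_mul]
      _ ≤ (b - a + κ) * (L * (b - a)) := by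
        apply mul_le_mul_of_nonneg_right _ (mul_nonneg hL hba)
        have := (abs_le.mp hκ).2
        linarith
  have h4 : |f a * (∑ i ∈ S', w i - (b - a))| ≤ B * κ := by
    rw [abs_mul]
    exact mul_le_mul hB hκ (abs_nonneg _) ((abs_nonneg _).trans hB)
  have h5 : |∫ u in a..b, (f u - f a)| ≤ (L * (b - a)) * (b - a) := by
    have h6 := intervalIntegral.norm_integral_le_of_norm_le_const (a := a) (b := b)
      (f := fun u => f u - f a) (C := L * (b - a)) (by
        intro u hu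
        rw [Set.uIoc_of_le hab] at hu
        exact hf u ⟨hu.1.le, hu.2⟩)
    rw [abs_of_nonneg hba] at h6
    exact h6
  rw [h2]
  have h6 := abs_sub (∑ i ∈ S', w i * (f (x i) - f a) + f a * (∑ i ∈ S', w i - (b - a)))
    (∫ u in a..b, (f u - f a))
  have h7 := abs_add_le (∑ i ∈ S', w i * (f (x i) - f a)) (f a * (∑ i ∈ S', w i - (b - a)))
  nlinarith

/-- generic quadrature -/
lemma gen_quad {ι : Type*} (S : Finset ι) (w x : ι → ℝ) (hw : ∀ i ∈ S, 0 ≤ w i) {f : ℝ → ℝ}
    {a κ B L h : ℝ} (hh : 0 ≤ h) (hL : 0 ≤ L) (n : ℕ)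
    (hB : ∀ u ∈ Set.Icc a (a + n * h), |f u| ≤ B)
    (hf : ∀ u ∈ Set.Icc a (a + n * h), ∀ v ∈ Set.Icc a (a + n * h), |f u - f v| ≤ L * |u - v|)
    (hc : ContinuousOn f (Set.Icc a (a + n * h)))
    (hκ : ∀ s t, a ≤ s → s ≤ t → t ≤ a + n * h →
      |∑ i ∈ S.filter (fun i => s < x i ∧ x i ≤ t), w i - (t - s)| ≤ κ) :
    |∑ i ∈ S.filter (fun i => a < x i ∧ x i ≤ a + n * h), w i * f (x i) -
      ∫ u in a..(a + n * h), f u| ≤ n * (B * κ + L * h * (2 * h + κ)) := by
  have key : ∀ m : ℕ, m ≤ n → |∑ i ∈ S.filter (fun i => a < x i ∧ x i ≤ a + m * h), w i * f (x i) -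
      ∫ u in a..(a + m * h), f u| ≤ m * (B * κ + L * h * (2 * h + κ)) := by
    intro m
    induction m with
    | zero =>
      intro _
      have h1 : S.filter (fun i => a < x i ∧ x i ≤ a + ((0 : ℕ) : ℝ) * h) = ∅ := by
        rw [Finset.eq_empty_iff_forall_notMem]
        intro p hp
        rw [mem_filter, Nat.cast_zero, zero_mul, add_zero] at hp
        linarith [hp.2.1, hp.2.2]
      rw [h1]
      simp
    | succ m ih =>
      intro hm
      have ih' := ih (by omega)
      have hmn : ((m + 1 : ℕ) : ℝ) ≤ n := by exact_mod_cast hm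
      have h1 : a ≤ a + m * h := by
        have : 0 ≤ (m : ℝ) * h := by positivity
        linarith
      have h2 : a + m * h ≤ a + ((m + 1 : ℕ) : ℝ) * h := by push_cast; nlinarith
      have h3 : a + ((m + 1 : ℕ) : ℝ) * h ≤ a + n * h := by
        have := mul_le_mul_of_nonneg_right hmn hh
        linarith
      have hsplit : ∑ i ∈ S.filter (fun i => a < x i ∧ x i ≤ a + ((m + 1 : ℕ) : ℝ) * h), w i * f (x i) =
          ∑ i ∈ S.filter (fun i => a < x i ∧ x i ≤ a + m * h), w i * f (x i) +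
          ∑ i ∈ S.filter (fun i => a + m * h < x i ∧ x i ≤ a + ((m + 1 : ℕ) : ℝ) * h),
            w i * f (x i) := by
        classical
        rw [← Finset.sum_union]
        · congr 1
          ext i
          rw [mem_union, mem_filter, mem_filter, mem_filter]
          constructor
          · rintro ⟨h4, h5, h6⟩
            rcases le_or_gt (x i) (a + m * h) with h7 | h7
            · left; exact ⟨h4, h5, h7⟩
            · right; exact ⟨h4, h7, h6⟩
          · rintro (⟨h4, h5, h6⟩ | ⟨h4, h5, h6⟩)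
            · exact ⟨h4, h5, h6.trans h2⟩
            · exact ⟨h4, h1.trans_lt h5, h6⟩
        · rw [Finset.disjoint_left]
          intro i hi hj
          rw [mem_filter] at hi hj
          exact absurd hi.2.2 (not_le.mpr hj.2.1)
      have hint : ∫ u in a..(a + ((m + 1 : ℕ) : ℝ) * h), f u = (∫ u in a..(a + m * h), f u) +
          ∫ u in (a + m * h)..(a + ((m + 1 : ℕ) : ℝ) * h), f u := by
        rw [intervalIntegral.integral_add_adjacent_intervals]
        · apply ContinuousOn.intervalIntegrable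
          rw [Set.uIcc_of_le h1]
          exact hc.mono (Set.Icc_subset_Icc_right (h2.trans h3))
        · apply ContinuousOn.intervalIntegrable
          rw [Set.uIcc_of_le h2]
          exact hc.mono (Set.Icc_subset_Icc h1 h3)
      have hstep : a + ((m + 1 : ℕ) : ℝ) * h - (a + m * h) = h := by push_cast; ring
      have h4 := gen_block S w x hw (f := f) (a := a + m * h) (b := a + ((m + 1 : ℕ) : ℝ) * h)
        (B := B) (L := L) (κ := κ) h2 (hB _ ⟨h1, h2.trans h3⟩) hL (by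
          intro u hu
          refine (hf u ⟨h1.trans hu.1, hu.2.trans h3⟩ _ ⟨h1, h2.trans h3⟩).trans ?_
          apply mul_le_mul_of_nonneg_left _ hL
          rw [abs_of_nonneg (by linarith [hu.1])]
          linarith [hu.2]) (hc.mono (Set.Icc_subset_Icc h1 h3)) (hκ _ _ h1 h2 h3)
      rw [hstep] at h4
      rw [hsplit, hint]
      have h5 := abs_add_le (∑ i ∈ S.filter (fun i => a < x i ∧ x i ≤ a + m * h), w i * f (x i) -
        ∫ u in a..(a + m * h), f u)
        (∑ i ∈ S.filter (fun i => a + m * h < x i ∧ x i ≤ a + ((m + 1 : ℕ) : ℝ) * h),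
            w i * f (x i) - ∫ u in (a + m * h)..(a + ((m + 1 : ℕ) : ℝ) * h), f u)
      have h6 : ∀ A1 A2 B1 B2 : ℝ, A1 + A2 - (B1 + B2) = (A1 - B1) + (A2 - B2) := by intros; ring
      rw [h6]
      refine h5.trans ?_
      have h7 : (((m + 1 : ℕ) : ℝ)) * (B * κ + L * h * (2 * h + κ)) =
          m * (B * κ + L * h * (2 * h + κ)) + (B * κ + L * h * (2 * h + κ)) := by push_cast; ring
      rw [h7]
      exact add_le_add ih' h4
  exact key n le_rfl

/-- the tent -/
noncomputable def tf (v : ℝ) : ℝ := max 0 (1 - |Real.log v|)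

/-- the integral of the tent -/
noncomputable def T0 : ℝ := ∫ v in (Real.exp (-1))..(Real.exp 1), tf v

lemma exp_neg_one_lt : Real.exp (-1) < Real.exp 1 := Real.exp_lt_exp.mpr (by norm_num)

lemma tf_nonneg (v : ℝ) : 0 ≤ tf v := le_max_left _ _

lemma tf_le_one (v : ℝ) : tf v ≤ 1 := by
  unfold tf
  apply max_le zero_le_one
  linarith [abs_nonneg (Real.log v)]

lemma tf_lip {u v : ℝ} (hu : Real.exp (-1) ≤ u) (hv : Real.exp (-1) ≤ v) :
    |tf u - tf v| ≤ 3 * |u - v| := by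
  have hu0 : 0 < u := (Real.exp_pos _).trans_le hu
  have hv0 : 0 < v := (Real.exp_pos _).trans_le hv
  have h1 : |tf u - tf v| ≤ |(1 - |Real.log u|) - (1 - |Real.log v|)| := by
    unfold tf
    rw [max_comm 0, max_comm 0]
    exact abs_max_sub_max_le_abs _ _ _
  have h2 : |(1 - |Real.log u|) - (1 - |Real.log v|)| ≤ |Real.log u - Real.log v| := by
    have h3 : (1 - |Real.log u|) - (1 - |Real.log v|) = |Real.log v| - |Real.log u| := by ring
    rw [h3, abs_sub_comm (Real.log u)]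
    exact abs_abs_sub_abs_le_abs_sub _ _
  have h3 : |Real.log u - Real.log v| ≤ 3 * |u - v| := by
    have h4 := log_lip (a := Real.exp 1 * u) (b := Real.exp 1 * v)
      (by
        have h5 : Real.exp 1 * Real.exp (-1) = 1 := by rw [← Real.exp_add]; norm_num
        have h6 := mul_le_mul_of_nonneg_left hu (Real.exp_pos 1).le
        rwa [h5] at h6)
      (by
        have h5 : Real.exp 1 * Real.exp (-1) = 1 := by rw [← Real.exp_add]; norm_num
        have h6 := mul_le_mul_of_nonneg_left hv (Real.exp_pos 1).le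
        rwa [h5] at h6)
    rw [Real.log_mul (Real.exp_ne_zero _) hu0.ne', Real.log_mul (Real.exp_ne_zero _) hv0.ne',
      add_sub_add_left_eq_sub, ← mul_sub, abs_mul, abs_of_pos (Real.exp_pos 1)] at h4
    refine h4.trans ?_
    apply mul_le_mul_of_nonneg_right _ (abs_nonneg _)
    linarith [Real.exp_one_lt_d9]
  exact h1.trans (h2.trans h3)

lemma T0_pos : 0 < T0 := by
  unfold T0
  apply intervalIntegral.intervalIntegral_pos_of_pos_on
  · apply ContinuousOn.intervalIntegrable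
    rw [Set.uIcc_of_le exp_neg_one_lt.le]
    have h1 : LipschitzOnWith (Real.toNNReal 3) tf (Set.Icc (Real.exp (-1)) (Real.exp 1)) := by
      apply LipschitzOnWith.of_dist_le_mul
      intro x hx y hy
      rw [Real.dist_eq, Real.dist_eq, Real.coe_toNNReal _ (by norm_num)]
      exact tf_lip hx.1 hy.1
    exact h1.continuousOn
  · intro v hv
    have hv0 : 0 < v := (Real.exp_pos _).trans hv.1
    unfold tf
    apply lt_max_of_lt_right
    have h1 : -1 < Real.log v := (Real.lt_log_iff_exp_lt hv0).mpr hv.1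
    have h2 : Real.log v < 1 := (Real.log_lt_iff_lt_exp hv0).mpr hv.2
    have h3 : |Real.log v| < 1 := abs_lt.mpr ⟨h1, h2⟩
    linarith
  · exact exp_neg_one_lt

/-- `θ` on intervals `(s y, t y]` -/
lemma theta_interval (κ : ℝ) (hκ : 0 < κ) : ∃ Y0 : ℝ, 0 < Y0 ∧ ∀ y, Y0 ≤ y → ∀ s t : ℝ,
    Real.exp (-1) ≤ s → s ≤ t → t ≤ Real.exp 1 → ∀ N : ℕ, Real.exp 1 * y ≤ N →
    |∑ p ∈ ((Ioc 0 N).filter Nat.Prime).filter (fun p : ℕ => s < (p : ℝ) / y ∧ (p : ℝ) / y ≤ t),
      Real.log p / y - (t - s)| ≤ κ := by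
  have h1 := Pool.Agent.H90.tendsto_theta_div
  rw [Metric.tendsto_atTop] at h1
  obtain ⟨X, hX⟩ := h1 (κ / 6) (by positivity)
  refine ⟨max 1 (X * Real.exp 1), lt_of_lt_of_le one_pos (le_max_left _ _), ?_⟩
  intro y hy s t hs hst ht N hN
  have hy1 : 1 ≤ y := (le_max_left _ _).trans hy
  have hy0 : 0 < y := by linarith
  have hyX : X * Real.exp 1 ≤ y := (le_max_right _ _).trans hy
  have hs0 : 0 < s := (Real.exp_pos _).trans_le hs
  have he : Real.exp (-1) * Real.exp 1 = 1 := by rw [← Real.exp_add]; norm_num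
  have hpt : ∀ u, Real.exp (-1) ≤ u → u ≤ Real.exp 1 → |Chebyshev.theta (u * y) - u * y| ≤ κ / 2 * y := by
    intro u hu1 hu2
    have hu0 : 0 < u := (Real.exp_pos _).trans_le hu1
    have h2 : X ≤ u * y := by
      rcases le_total X 0 with h | h
      · exact h.trans (by positivity)
      · calc X = X * Real.exp 1 * Real.exp (-1) := by rw [mul_assoc, mul_comm (Real.exp 1), he, mul_one]
          _ ≤ y * u := by
            apply mul_le_mul hyX hu1 (Real.exp_pos _).le hy0.le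
          _ = u * y := mul_comm _ _
    have h3 := hX (u * y) h2
    rw [Real.dist_eq] at h3
    have huy : 0 < u * y := by positivity
    have h4 : Chebyshev.theta (u * y) - u * y = (Chebyshev.theta (u * y) / (u * y) - 1) * (u * y) := by
      field_simp
    rw [h4, abs_mul, abs_of_pos huy]
    have h5 : u ≤ 3 := hu2.trans (by linarith [Real.exp_one_lt_d9])
    calc |Chebyshev.theta (u * y) / (u * y) - 1| * (u * y) ≤ κ / 6 * (3 * y) :=
          mul_le_mul h3.le (by nlinarith) huy.le (by positivity)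
      _ = κ / 2 * y := by ring
  have hsum : ∑ p ∈ ((Ioc 0 N).filter Nat.Prime).filter (fun p : ℕ => s < (p : ℝ) / y ∧ (p : ℝ) / y ≤ t),
      Real.log p = Chebyshev.theta (t * y) - Chebyshev.theta (s * y) := by
    have hsty : ⌊s * y⌋₊ ≤ ⌊t * y⌋₊ := Nat.floor_mono (mul_le_mul_of_nonneg_right hst hy0.le)
    unfold Chebyshev.theta
    rw [sub_eq_of_eq_add]
    rw [← Finset.sum_union]
    · apply Finset.sum_congr _ (fun _ _ => rfl)
      ext p
      simp only [mem_union, mem_filter, mem_Ioc]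
      constructor
      · rintro ⟨⟨h2, h3⟩, h4⟩
        rcases le_or_gt p ⌊s * y⌋₊ with h5 | h5
        · right; exact ⟨⟨h2, h5⟩, h4⟩
        · left
          rw [Nat.floor_lt (by positivity)] at h5
          rw [Nat.le_floor_iff (by nlinarith)] at h3
          refine ⟨⟨⟨h2, ?_⟩, h4⟩, ?_, ?_⟩
          · have : (p : ℝ) ≤ N := by
              calc (p : ℝ) ≤ t * y := h3
                _ ≤ Real.exp 1 * y := mul_le_mul_of_nonneg_right ht hy0.le
                _ ≤ N := hN
            exact_mod_cast this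
          · rw [lt_div_iff₀ hy0]; exact h5
          · rw [div_le_iff₀ hy0]; exact h3
      · rintro (⟨⟨⟨h2, h3⟩, h4⟩, h5, h6⟩ | ⟨⟨h2, h3⟩, h4⟩)
        · rw [div_le_iff₀ hy0] at h6
          exact ⟨⟨h2, Nat.le_floor h6⟩, h4⟩
        · exact ⟨⟨h2, h3.trans hsty⟩, h4⟩
    · rw [Finset.disjoint_left]
      intro p hp hq
      simp only [mem_filter, mem_Ioc] at hp hq
      have h5 := hp.2.1
      rw [lt_div_iff₀ hy0] at h5
      have h6 := (Nat.le_floor_iff (by positivity)).mp hq.1.2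
      linarith
  rw [← Finset.sum_div, hsum]
  have h2 := abs_le.mp (hpt t (hs.trans hst) ht)
  have h3 := abs_le.mp (hpt s hs (hst.trans ht))
  have h4 : (Chebyshev.theta (t * y) - Chebyshev.theta (s * y)) / y - (t - s) =
      ((Chebyshev.theta (t * y) - t * y) - (Chebyshev.theta (s * y) - s * y)) / y := by
    field_simp
    ring
  rw [h4, abs_div, abs_of_pos hy0, div_le_iff₀ hy0, abs_le]
  constructor <;> linarith [h2.1, h2.2, h3.1, h3.2]

/-- **(A1)** -/
theorem tent_count : ∃ T : ℝ, 0 < T ∧ ∀ δ : ℝ, 0 < δ → ∃ Y0 : ℝ, ∀ y : ℝ, Y0 ≤ y → ∀ N : ℕ,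
    Real.exp 1 * y ≤ N →
    |∑ p ∈ (Ioc 0 N).filter Nat.Prime, Real.log p * H16.tent y p - T * y| ≤ δ * y := by
  refine ⟨T0, T0_pos, ?_⟩
  intro δ hδ
  set W : ℝ := Real.exp 1 - Real.exp (-1) with hW
  have hW0 : 0 < W := by rw [hW]; linarith [exp_neg_one_lt]
  have hW3 : W ≤ 3 := by rw [hW]; linarith [Real.exp_one_lt_d9, Real.exp_pos (-1)]
  obtain ⟨n, hn⟩ := exists_nat_gt (108 / δ)
  set M : ℝ := (n : ℝ) + 1 with hM
  have hM0 : 0 < M := by positivity
  have hM1 : 1 ≤ M := by rw [hM]; have : (0 : ℝ) ≤ n := Nat.cast_nonneg n; linarith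
  obtain ⟨Y0, hY0, H⟩ := theta_interval (δ / (20 * M)) (by positivity)
  refine ⟨Y0, ?_⟩
  intro y hy N hN
  have hy0 : 0 < y := hY0.trans_le hy
  set h : ℝ := W / M with hh
  have hh0 : 0 ≤ h := by positivity
  have hend : Real.exp (-1) + ((n + 1 : ℕ) : ℝ) * h = Real.exp 1 := by
    push_cast
    rw [← hM, hh, hW]; field_simp; ring
  have hc : ContinuousOn tf (Set.Icc (Real.exp (-1)) (Real.exp 1)) := by
    have h1 : LipschitzOnWith (Real.toNNReal 3) tf (Set.Icc (Real.exp (-1)) (Real.exp 1)) := by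
      apply LipschitzOnWith.of_dist_le_mul
      intro x hx y hy
      rw [Real.dist_eq, Real.dist_eq, Real.coe_toNNReal _ (by norm_num)]
      exact tf_lip hx.1 hy.1
    exact h1.continuousOn
  have h1 := gen_quad ((Ioc 0 N).filter Nat.Prime) (fun p : ℕ => Real.log p / y)
    (fun p : ℕ => (p : ℝ) / y) (fun p _ => div_nonneg (Real.log_natCast_nonneg p) hy0.le)
    (f := tf) (a := Real.exp (-1)) (κ := δ / (20 * M)) (B := 1) (L := 3) (h := h) hh0 (by norm_num)
    (n + 1) (fun u _ => by rw [abs_of_nonneg (tf_nonneg u)]; exact tf_le_one u)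
    (by rw [hend]; intro u hu v hv; exact tf_lip hu.1 hv.1) (by rw [hend]; exact hc)
    (by rw [hend]; intro s t hs hst ht; exact H y hy s t hs hst ht N hN)
  rw [hend] at h1
  have hT : ∫ u in (Real.exp (-1))..(Real.exp 1), tf u = T0 := rfl
  rw [hT] at h1
  -- the full sum
  have hfull : ∑ p ∈ (Ioc 0 N).filter Nat.Prime, Real.log p * H16.tent y p =
      y * ∑ p ∈ ((Ioc 0 N).filter Nat.Prime).filter
        (fun p : ℕ => Real.exp (-1) < (p : ℝ) / y ∧ (p : ℝ) / y ≤ Real.exp 1),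
        Real.log p / y * tf ((p : ℝ) / y) := by
    rw [Finset.mul_sum, Finset.sum_filter (fun p : ℕ => Real.exp (-1) < (p : ℝ) / y ∧ (p : ℝ) / y ≤ Real.exp 1)]
    apply Finset.sum_congr rfl
    intro p hp
    rw [mem_filter, mem_Ioc] at hp
    have hp0 : (0 : ℝ) < p := by exact_mod_cast hp.1.1
    have h2 : H16.tent y p = tf ((p : ℝ) / y) := by
      rw [H16.tent_eq y p hy0 hp0]
      unfold tf
      rw [Real.log_div hp0.ne' hy0.ne', abs_sub_comm]
    rw [h2]
    split_ifs with h3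
    · field_simp
    · have h4 : tf ((p : ℝ) / y) = 0 := by
        have hq : 0 < (p : ℝ) / y := by positivity
        unfold tf
        apply max_eq_left
        rw [not_and_or, not_lt, not_le] at h3
        rcases h3 with h3 | h3
        · have h5 : Real.log ((p : ℝ) / y) ≤ -1 := (Real.log_le_iff_le_exp hq).mpr h3
          have := neg_abs_le (Real.log ((p : ℝ) / y))
          linarith
        · have h5 : 1 < Real.log ((p : ℝ) / y) := (Real.lt_log_iff_exp_lt hq).mpr h3
          have := le_abs_self (Real.log ((p : ℝ) / y))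
          linarith
      rw [h4, mul_zero]
  rw [hfull]
  have h2 : ∀ A : ℝ, y * A - T0 * y = y * (A - T0) := by intro A; ring
  rw [h2, abs_mul, abs_of_pos hy0, mul_comm δ y]
  apply mul_le_mul_of_nonneg_left _ hy0.le
  refine h1.trans ?_
  have h3 : ((n + 1 : ℕ) : ℝ) = M := by push_cast; rfl
  rw [h3]
  have hh3 : h ≤ 3 / M := by rw [hh]; gcongr
  have hh3' : h ≤ 3 := hh3.trans (div_le_self (by norm_num) hM1)
  have hMh : M * h = W := by rw [hh]; field_simp
  have h4 : M * (1 * (δ / (20 * M)) + 3 * h * (2 * h + δ / (20 * M))) =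
      δ / 20 + 6 * h * (M * h) + 3 * h * δ / 20 := by
    field_simp
    ring
  rw [h4, hMh]
  have h5 : 6 * h * W ≤ δ / 2 := by
    calc 6 * h * W ≤ 6 * (3 / M) * 3 := by gcongr
      _ = 54 / M := by ring
      _ ≤ δ / 2 := by
        rw [div_le_iff₀ hM0]
        rw [div_lt_iff₀ hδ] at hn
        nlinarith
  nlinarith

/-! ### (A2), (A3) -/

lemma PI_mono {x y y' : ℝ} (h : y ≤ y') : PI x y ⊆ PI x y' := by
  intro p hp
  rw [mem_PI] at hp ⊢
  exact ⟨hp.1, hp.2.1, hp.2.2.trans_le h⟩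

/-- the density `1 / (p - 1)` -/
noncomputable def g1 (p : ℕ) : ℝ := if p = 0 then 0 else 1 / ((p : ℝ) - 1)

lemma g1_prime {p : ℕ} (hp : p.Prime) : g1 p = 1 / ((p : ℝ) - 1) := by
  unfold g1; rw [if_neg hp.ne_zero]

/-- antiderivative -/
noncomputable def J2 (κ : ℝ) : ℝ := 1 / (1 / 2 - κ) *
  (Real.log (1 / 3 + κ) - Real.log (1 / 6 - 2 * κ) - Real.log (1 / 8) + Real.log (3 / 8 - κ))

lemma J2_zero : J2 0 = 2 * Real.log 6 := by
  unfold J2
  have e0 : Real.log 6 = Real.log 2 + Real.log 3 := by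
    rw [← Real.log_mul (by norm_num) (by norm_num)]; norm_num
  have e1 : Real.log (1 / 3 + 0) = - Real.log 3 := by rw [add_zero, one_div, Real.log_inv]
  have e2 : Real.log (1 / 8) = - (3 * Real.log 2) := by
    rw [one_div, Real.log_inv, show (8 : ℝ) = 2 ^ 3 by norm_num, Real.log_pow]; norm_num
  have e3 : Real.log (1 / 6 - 2 * 0) = - Real.log 6 := by
    rw [mul_zero, sub_zero, one_div, Real.log_inv]
  have e4 : Real.log (3 / 8 - 0) = Real.log 3 - 3 * Real.log 2 := by
    rw [sub_zero, show (3 : ℝ) / 8 = 3 / 2 ^ 3 by norm_num, Real.log_div (by norm_num) (by norm_num),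
      Real.log_pow]; norm_num
  rw [e1, e2, e3, e4, e0]
  ring

lemma J2_cont : ContinuousAt J2 0 := by
  unfold J2
  have h1 : ContinuousAt (fun κ : ℝ => 1 / (1 / 2 - κ)) 0 :=
    continuousAt_const.div (by fun_prop) (by norm_num)
  have h2 : ContinuousAt (fun κ : ℝ => Real.log (1 / 3 + κ)) 0 :=
    ContinuousAt.log (by fun_prop) (by norm_num)
  have h3 : ContinuousAt (fun κ : ℝ => Real.log (1 / 6 - 2 * κ)) 0 :=
    ContinuousAt.log (by fun_prop) (by norm_num)
  have h4 : ContinuousAt (fun κ : ℝ => Real.log (3 / 8 - κ)) 0 :=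
    ContinuousAt.log (by fun_prop) (by norm_num)
  exact h1.mul (((h2.sub h3).sub continuousAt_const).add h4)

/-- **(A2)** -/
theorem S2_sum (ε : ℝ) (hε : 0 < ε) : ∃ k0 : ℝ, 0 < k0 ∧ ∀ κ : ℝ, 0 < κ → κ ≤ k0 →
    ∃ L0 : ℝ, ∀ l : ℝ, L0 ≤ l →
    ∑ q ∈ PI (Real.exp (l / 8)) (2 * Real.exp (l / 3)), 1 / ((q : ℝ) - 1) *
      (1 / ((1 / 2 - κ) - Real.log q / l)) ≤ 2 * Real.log 6 + ε := by
  obtain ⟨k1, hk1, hk⟩ := (Metric.continuousAt_iff.mp J2_cont) (ε / 2) (by positivity)
  refine ⟨min (k1 / 2) (1 / 48), by positivity, ?_⟩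
  intro κ hκ0 hκ
  have hκ1 : κ ≤ k1 / 2 := hκ.trans (min_le_left _ _)
  have hκ2 : κ ≤ 1 / 48 := hκ.trans (min_le_right _ _)
  have hJ : J2 κ ≤ 2 * Real.log 6 + ε / 2 := by
    have h1 := hk (x := κ) (by rw [Real.dist_eq, sub_zero, abs_of_pos hκ0]; linarith)
    rw [J2_zero, Real.dist_eq] at h1
    linarith [(abs_lt.mp h1).2]
  obtain ⟨C, hC, hdim⟩ := dim_inv
  obtain ⟨X0, hX0, H⟩ := quad (1 / 8) C 8 64 (ε / 2) (by norm_num) (by norm_num) hC (by norm_num)
    (by norm_num) (by positivity)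
  refine ⟨max X0 (max 16 (1 / κ)), ?_⟩
  intro l hl
  have hl1 : X0 ≤ l := (le_max_left _ _).trans hl
  have hl2 : 16 ≤ l := ((le_max_left _ _).trans (le_max_right _ _)).trans hl
  have hl3 : 1 / κ ≤ l := ((le_max_right _ _).trans (le_max_right _ _)).trans hl
  have hl0 : 0 < l := by linarith
  have hκl : 1 ≤ κ * l := by rw [div_le_iff₀ hκ0] at hl3; linarith
  have hg := (hdim (1 / 8 * l) (by linarith)).2
  have h1 := H l hl1 g1 hg (1 / 8) (1 / 3 + κ) le_rfl (by linarith) (by linarith)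
    (fun t => 1 / ((1 / 2 - κ) - t)) (by
      intro u hu
      have h2 : 1 / 8 ≤ 1 / 2 - κ - u := by linarith [hu.2]
      rw [abs_of_pos (by apply div_pos one_pos; linarith), div_le_iff₀ (by linarith)]
      linarith) (by
      intro u hu v hv
      have h2 : 1 / 8 ≤ 1 / 2 - κ - u := by linarith [hu.2]
      have h3 : 1 / 8 ≤ 1 / 2 - κ - v := by linarith [hv.2]
      have h4 : 1 / (1 / 2 - κ - u) - 1 / (1 / 2 - κ - v) =
          (u - v) / ((1 / 2 - κ - u) * (1 / 2 - κ - v)) := by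
        rw [div_sub_div _ _ (by linarith) (by linarith)]
        congr 1; ring
      have h5 : (1 / 8) * (1 / 8) ≤ (1 / 2 - κ - u) * (1 / 2 - κ - v) := by
        apply mul_le_mul h2 h3 (by norm_num) (by linarith)
      rw [h4, abs_div, abs_of_pos (by linarith : 0 < (1 / 2 - κ - u) * (1 / 2 - κ - v)),
        div_le_iff₀ (by linarith)]
      nlinarith [abs_nonneg (u - v)])
  have h2 : ∫ t in (1 / 8 : ℝ)..(1 / 3 + κ), 1 / ((1 / 2 - κ) - t) / t = J2 κ := by
    have h3 : ∀ t ∈ Set.uIcc (1 / 8 : ℝ) (1 / 3 + κ), HasDerivAt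
        (fun t : ℝ => 1 / (1 / 2 - κ) * (Real.log t - Real.log ((1 / 2 - κ) - t)))
        (1 / ((1 / 2 - κ) - t) / t) t := by
      intro t ht
      rw [Set.uIcc_of_le (by linarith)] at ht
      have ht0 : t ≠ 0 := by linarith [ht.1]
      have ht1 : (1 / 2 - κ) - t ≠ 0 := by linarith [ht.2]
      have ht2 : (1 / 2 - κ) ≠ 0 := by linarith
      have h4 : HasDerivAt (fun t : ℝ => (1 / 2 - κ) - t) (-1) t := (hasDerivAt_id t).const_sub _
      refine (((Real.hasDerivAt_log ht0).sub (h4.log ht1)).const_mul _).congr_deriv ?_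
      obtain ⟨s, hs⟩ : ∃ s, s = 1 / 2 - κ := ⟨_, rfl⟩
      rw [← hs] at ht1 ht2 ⊢
      field_simp
      ring
    rw [intervalIntegral.integral_eq_sub_of_hasDerivAt h3]
    · unfold J2
      have e1 : 1 / 2 - κ - (1 / 3 + κ) = 1 / 6 - 2 * κ := by ring
      have e2 : 1 / 2 - κ - 1 / 8 = 3 / 8 - κ := by ring
      rw [e1, e2]
      ring
    · apply ContinuousOn.intervalIntegrable
      intro t ht
      rw [Set.uIcc_of_le (by linarith)] at ht
      have ht0 : t ≠ 0 := by linarith [ht.1]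
      have ht1 : (1 / 2 - κ) - t ≠ 0 := by linarith [ht.2]
      apply ContinuousAt.continuousWithinAt
      have hc1 : ContinuousAt (fun t : ℝ => (1 / 2 - κ) - t) t := by fun_prop
      exact (continuousAt_const.div hc1 ht1).div continuousAt_id ht0
  rw [h2] at h1
  have h3 := (abs_le.mp h1).2
  have hsub : PI (Real.exp (l / 8)) (2 * Real.exp (l / 3)) ⊆
      PI (Real.exp (1 / 8 * l)) (Real.exp ((1 / 3 + κ) * l)) := by
    have e1 : l / 8 = 1 / 8 * l := by ring
    rw [e1]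
    apply PI_mono
    have h4 : (1 / 3 + κ) * l = κ * l + l / 3 := by ring
    rw [h4, Real.exp_add]
    apply mul_le_mul_of_nonneg_right _ (Real.exp_pos _).le
    have := Real.add_one_le_exp (κ * l)
    linarith
  calc ∑ q ∈ PI (Real.exp (l / 8)) (2 * Real.exp (l / 3)), 1 / ((q : ℝ) - 1) *
      (1 / ((1 / 2 - κ) - Real.log q / l))
      = ∑ q ∈ PI (Real.exp (l / 8)) (2 * Real.exp (l / 3)), g1 q *
      (1 / ((1 / 2 - κ) - Real.log q / l)) := by
        apply Finset.sum_congr rfl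
        intro q hq
        rw [mem_PI] at hq
        rw [g1_prime hq.1]
    _ ≤ ∑ q ∈ PI (Real.exp (1 / 8 * l)) (Real.exp ((1 / 3 + κ) * l)), g1 q *
      (1 / ((1 / 2 - κ) - Real.log q / l)) := by
        apply Finset.sum_le_sum_of_subset_of_nonneg hsub
        intro q hq _
        have h4 := mem_PI_exp hl0 hq
        apply mul_nonneg (hg.1 q)
        apply div_nonneg zero_le_one
        linarith [h4.2.1]
    _ ≤ 2 * Real.log 6 + ε := by linarith

/-- **(A3)** -/
theorem prod_plain (θ : ℝ) (hθ : 0 < θ) (hθ1 : θ ≤ 1 / 8) : ∃ C L0 : ℝ, ∀ l : ℝ, L0 ≤ l →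
    ∏ p ∈ PI (Real.exp (θ * l)) (2 * Real.exp (l / 3)), (1 + 1 / ((p : ℝ) - 1)) ≤ C := by
  obtain ⟨C, hC, hdim⟩ := dim_inv
  refine ⟨Real.exp (1 / θ), max (max (2 / θ) (C / θ)) 2, ?_⟩
  intro l hl
  have hl1 : 2 / θ ≤ l := ((le_max_left _ _).trans (le_max_left _ _)).trans hl
  have hl2 : C / θ ≤ l := ((le_max_right _ _).trans (le_max_left _ _)).trans hl
  have hl3 : 2 ≤ l := (le_max_right _ _).trans hl
  have hl0 : 0 < l := by linarith
  have hω2 : 2 ≤ θ * l := by rw [div_le_iff₀ hθ] at hl1; linarith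
  have hωC : C ≤ θ * l := by rw [div_le_iff₀ hθ] at hl2; linarith
  have hg := (hdim (θ * l) hω2).2
  have h1 := sum_g_le (ω := θ * l) (by linarith) hωC hg (v := 1 / θ)
    (by rw [le_div_iff₀ hθ]; linarith)
  have e1 : 1 / θ * (θ * l) = l := by field_simp
  rw [e1] at h1
  have hsub : PI (Real.exp (θ * l)) (2 * Real.exp (l / 3)) ⊆ PI (Real.exp (θ * l)) (Real.exp l) := by
    apply PI_mono
    have h4 : l = 2 * l / 3 + l / 3 := by ring
    conv_rhs => rw [h4]
    rw [Real.exp_add]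
    apply mul_le_mul_of_nonneg_right _ (Real.exp_pos _).le
    have := Real.add_one_le_exp (2 * l / 3)
    linarith
  calc ∏ p ∈ PI (Real.exp (θ * l)) (2 * Real.exp (l / 3)), (1 + 1 / ((p : ℝ) - 1))
      ≤ ∏ p ∈ PI (Real.exp (θ * l)) (2 * Real.exp (l / 3)), Real.exp (g1 p) := by
        apply Finset.prod_le_prod
        · intro p hp
          rw [mem_PI] at hp
          have h2 : (2 : ℝ) ≤ p := by exact_mod_cast hp.1.two_le
          have : 0 ≤ 1 / ((p : ℝ) - 1) := by apply div_nonneg zero_le_one; linarith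
          linarith
        · intro p hp
          rw [mem_PI] at hp
          rw [← g1_prime hp.1]
          linarith [Real.add_one_le_exp (g1 p)]
    _ = Real.exp (∑ p ∈ PI (Real.exp (θ * l)) (2 * Real.exp (l / 3)), g1 p) := by rw [Real.exp_sum]
    _ ≤ Real.exp (1 / θ) := by
        apply Real.exp_le_exp.mpr
        refine le_trans ?_ h1
        apply Finset.sum_le_sum_of_subset_of_nonneg hsub
        intro q _ _
        exact hg.1 q

/-! ### (A4) -/

/-- bound for the inner integral -/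
noncomputable def G4 (t : ℝ) : ℝ := (Real.log (2 - 3 * t + 3 / 5000) + 7 / 5000) / (1 - 1 / 5000 - t)

lemma G4_antitone : AntitoneOn (fun t => G4 t / t) (Set.Icc (1 / 8 : ℝ) (1 / 3 + 1 / 5000)) := by
  intro s hs t ht hst
  simp only [G4]
  have hs1 := hs.1
  have ht2 := ht.2
  have h1 : 0 ≤ Real.log (2 - 3 * t + 3 / 5000) := Real.log_nonneg (by linarith)
  have h2 : Real.log (2 - 3 * t + 3 / 5000) ≤ Real.log (2 - 3 * s + 3 / 5000) :=
    Real.log_le_log (by linarith) (by linarith)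
  rw [div_div, div_div]
  have h3 : 0 < (1 - 1 / 5000 - s) * s := mul_pos (by linarith) (by linarith)
  have h4 : (1 - 1 / 5000 - s) * s ≤ (1 - 1 / 5000 - t) * t := by nlinarith
  exact div_le_div₀ (by linarith) (by linarith) h3 h4

lemma G4_integral : ∫ t in (1 / 8 : ℝ)..(1 / 3 + 1 / 5000), G4 t / t < 39 / 100 := by
  have h0 : ∫ t in (1 / 8 : ℝ)..(1 / 3 + 1 / 5000), G4 t / t = 391 / 60000 *
      ∫ u in (0 : ℝ)..(0 + (32 : ℕ)), G4 (391 / 60000 * u + 1 / 8) / (391 / 60000 * u + 1 / 8) := by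
    have h1 := intervalIntegral.integral_comp_mul_add (a := 0) (b := 0 + ((32 : ℕ) : ℝ))
      (fun t => G4 t / t) (c := 391 / 60000) (by norm_num) (1 / 8)
    rw [h1, smul_eq_mul, ← mul_assoc]
    norm_num
  have h1 : AntitoneOn (fun u : ℝ => G4 (391 / 60000 * u + 1 / 8) / (391 / 60000 * u + 1 / 8))
      (Set.Icc (0 : ℝ) (0 + (32 : ℕ))) := by
    intro s hs t ht hst
    have hs1 := hs.1
    have ht2 := ht.2
    norm_num at ht2
    apply G4_antitone
    · constructor <;> linarith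
    · constructor <;> linarith
    · linarith
  have h2 := h1.integral_le_sum
  rw [h0]
  have h3 : ∀ i : ℕ, i < 32 → G4 (391 / 60000 * (0 + (i : ℝ)) + 1 / 8) / (391 / 60000 * (0 + (i : ℝ)) + 1 / 8) ≤
      (((2 - 3 * (391 / 60000 * (i : ℝ) + 1 / 8) + 3 / 5000) -
        1 / (2 - 3 * (391 / 60000 * (i : ℝ) + 1 / 8) + 3 / 5000)) / 2 + 7 / 5000) /
        (1 - 1 / 5000 - (391 / 60000 * (i : ℝ) + 1 / 8)) / (391 / 60000 * (i : ℝ) + 1 / 8) := by
    intro i hi
    have hi' : (i : ℝ) ≤ 31 := by exact_mod_cast Nat.le_of_lt_succ hi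
    have hi0 : (0 : ℝ) ≤ i := Nat.cast_nonneg i
    rw [zero_add]
    unfold G4
    have h4 := log_le_half_sub_inv (y := 2 - 3 * (391 / 60000 * (i : ℝ) + 1 / 8) + 3 / 5000) (by linarith)
    have h5 : 0 < 1 - 1 / 5000 - (391 / 60000 * (i : ℝ) + 1 / 8) := by linarith
    have h6 : 0 < 391 / 60000 * (i : ℝ) + 1 / 8 := by linarith
    gcongr
  have h4 : ∑ i ∈ Finset.range 32, G4 (391 / 60000 * (0 + (i : ℝ)) + 1 / 8) / (391 / 60000 * (0 + (i : ℝ)) + 1 / 8) ≤
      ∑ i ∈ Finset.range 32, (((2 - 3 * (391 / 60000 * (i : ℝ) + 1 / 8) + 3 / 5000) -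
        1 / (2 - 3 * (391 / 60000 * (i : ℝ) + 1 / 8) + 3 / 5000)) / 2 + 7 / 5000) /
        (1 - 1 / 5000 - (391 / 60000 * (i : ℝ) + 1 / 8)) / (391 / 60000 * (i : ℝ) + 1 / 8) :=
    Finset.sum_le_sum fun i hi => h3 i (Finset.mem_range.mp hi)
  have h5 : 391 / 60000 * ∑ i ∈ Finset.range 32, (((2 - 3 * (391 / 60000 * (i : ℝ) + 1 / 8) + 3 / 5000) -
        1 / (2 - 3 * (391 / 60000 * (i : ℝ) + 1 / 8) + 3 / 5000)) / 2 + 7 / 5000) /
        (1 - 1 / 5000 - (391 / 60000 * (i : ℝ) + 1 / 8)) / (391 / 60000 * (i : ℝ) + 1 / 8) < 39 / 100 := by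
    simp only [Finset.sum_range_succ, Finset.sum_range_zero]
    norm_num
  have h6 := h2.trans h4
  nlinarith

/-- inner sum -/
lemma S3_inner (C ε : ℝ) (hC : 0 ≤ C) (hε : 0 < ε) : ∃ X0 : ℝ, 0 < X0 ∧ ∀ X, X0 ≤ X →
    ∀ g, Dim C (1 / 8 * X) g → ∀ β : ℝ, 1 / 8 ≤ β → β ≤ 1 / 3 + 1 / 5000 →
    ∑ p ∈ PI (Real.exp (1 / 3 * X)) (Real.exp ((1 + 1 / 5000 - β) / 2 * X)),
      g p * (1 / (1 - 1 / 5000 - β - Real.log p / X)) ≤ G4 β + ε := by
  obtain ⟨X0, hX0, H⟩ := quad (1 / 8) C 4 16 ε (by norm_num) (by norm_num) hC (by norm_num)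
    (by norm_num) hε
  refine ⟨X0, hX0, ?_⟩
  intro X hX g hg β hβ1 hβ2
  have h1 := H X hX g hg (1 / 3) ((1 + 1 / 5000 - β) / 2) (by norm_num) (by linarith) (by linarith)
    (fun t => 1 / (1 - 1 / 5000 - β - t)) (by
      intro u hu
      have h2 : 1 / 4 ≤ 1 - 1 / 5000 - β - u := by linarith [hu.2]
      rw [abs_of_pos (by apply div_pos one_pos; linarith), div_le_iff₀ (by linarith)]
      linarith) (by
      intro u hu v hv
      have h2 : 1 / 4 ≤ 1 - 1 / 5000 - β - u := by linarith [hu.2]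
      have h3 : 1 / 4 ≤ 1 - 1 / 5000 - β - v := by linarith [hv.2]
      have h4 : 1 / (1 - 1 / 5000 - β - u) - 1 / (1 - 1 / 5000 - β - v) =
          (u - v) / ((1 - 1 / 5000 - β - u) * (1 - 1 / 5000 - β - v)) := by
        rw [div_sub_div _ _ (by linarith) (by linarith)]
        congr 1; ring
      have h5 : (1 / 4) * (1 / 4) ≤ (1 - 1 / 5000 - β - u) * (1 - 1 / 5000 - β - v) := by
        apply mul_le_mul h2 h3 (by norm_num) (by linarith)
      rw [h4, abs_div, abs_of_pos (by linarith : 0 < (1 - 1 / 5000 - β - u) * (1 - 1 / 5000 - β - v)),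
        div_le_iff₀ (by linarith)]
      nlinarith [abs_nonneg (u - v)])
  have h2 : ∫ t in (1 / 3 : ℝ)..((1 + 1 / 5000 - β) / 2), 1 / (1 - 1 / 5000 - β - t) / t ≤ G4 β := by
    obtain ⟨s, hs⟩ : ∃ s, s = 1 - 1 / 5000 - β := ⟨_, rfl⟩
    rw [← hs]
    have hs0 : 0 < s := by linarith
    have h3 : ∀ t ∈ Set.uIcc (1 / 3 : ℝ) ((1 + 1 / 5000 - β) / 2), HasDerivAt
        (fun t : ℝ => (Real.log t - Real.log (s - t)) / s) (1 / (s - t) / t) t := by
      intro t ht
      rw [Set.uIcc_of_le (by linarith)] at ht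
      have ht0 : t ≠ 0 := by linarith [ht.1]
      have ht1 : s - t ≠ 0 := by linarith [ht.2]
      have h4 : HasDerivAt (fun t : ℝ => s - t) (-1) t := (hasDerivAt_id t).const_sub _
      refine (((Real.hasDerivAt_log ht0).sub (h4.log ht1)).div_const _).congr_deriv ?_
      field_simp
      ring
    rw [intervalIntegral.integral_eq_sub_of_hasDerivAt h3]
    · have e1 : Real.log (1 / 3) = - Real.log 3 := by rw [one_div, Real.log_inv]
      have e3 : Real.log (s - 1 / 3) = Real.log (3 * s - 1) - Real.log 3 := by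
        rw [← Real.log_div (by linarith) (by norm_num)]
        congr 1; ring
      have e4 : Real.log ((1 + 1 / 5000 - β) / 2) - Real.log (s - (1 + 1 / 5000 - β) / 2) ≤ 7 / 5000 := by
        have hb : 0 < (1 + 1 / 5000 - β) / 2 := by linarith
        have hsb : 0 < s - (1 + 1 / 5000 - β) / 2 := by linarith
        rw [← Real.log_div hb.ne' hsb.ne']
        refine (Real.log_le_sub_one_of_pos (by positivity)).trans ?_
        rw [sub_le_iff_le_add, div_le_iff₀ hsb]
        linarith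
      have e5 : Real.log (3 * s - 1) ≤ Real.log (2 - 3 * β + 3 / 5000) :=
        Real.log_le_log (by linarith) (by linarith)
      rw [e1, e3]
      unfold G4
      rw [← hs, div_sub_div_same]
      apply div_le_div_of_nonneg_right _ hs0.le
      linarith
    · apply ContinuousOn.intervalIntegrable
      intro t ht
      rw [Set.uIcc_of_le (by linarith)] at ht
      have ht0 : t ≠ 0 := by linarith [ht.1]
      have ht1 : s - t ≠ 0 := by linarith [ht.2]
      apply ContinuousAt.continuousWithinAt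
      have hc1 : ContinuousAt (fun t : ℝ => s - t) t := by fun_prop
      exact (continuousAt_const.div hc1 ht1).div continuousAt_id ht0
  have h3 := (abs_le.mp h1).2
  linarith

lemma S3_double (C : ℝ) (hC : 0 ≤ C) : ∃ X0 : ℝ, 0 < X0 ∧ ∀ X, X0 ≤ X →
    ∀ g, Dim C (1 / 8 * X) g →
    ∑ p ∈ PI (Real.exp (1 / 8 * X)) (Real.exp ((1 / 3 + 1 / 5000) * X)), g p *
      ∑ q ∈ PI (Real.exp (1 / 3 * X)) (Real.exp ((1 + 1 / 5000 - Real.log p / X) / 2 * X)),
        g q * (1 / (1 - 1 / 5000 - Real.log p / X - Real.log q / X)) ≤ 2 / 5 := by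
  obtain ⟨X1, hX1, H1⟩ := S3_inner C (1 / 1000) hC (by norm_num)
  obtain ⟨X2, hX2, H2⟩ := quad (1 / 8) C 2 9 (1 / 1000) (by norm_num) (by norm_num) hC (by norm_num)
    (by norm_num) (by norm_num)
  refine ⟨max (max X1 X2) (8 * C), lt_of_lt_of_le hX1 ((le_max_left _ _).trans (le_max_left _ _)), ?_⟩
  intro X hX g hg
  have hXX1 : X1 ≤ X := ((le_max_left _ _).trans (le_max_left _ _)).trans hX
  have hXX2 : X2 ≤ X := ((le_max_right _ _).trans (le_max_left _ _)).trans hX
  have hXC : 8 * C ≤ X := (le_max_right _ _).trans hX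
  have hX0 : 0 < X := lt_of_lt_of_le hX1 hXX1
  set S := PI (Real.exp (1 / 8 * X)) (Real.exp ((1 / 3 + 1 / 5000) * X)) with hS
  have h1 := H2 X hXX2 g hg (1 / 8) (1 / 3 + 1 / 5000) le_rfl (by norm_num) (by norm_num)
    G4 (by
      intro u hu
      have h2 : 3 / 5 ≤ 1 - 1 / 5000 - u := by linarith [hu.2]
      have h3 : 0 ≤ Real.log (2 - 3 * u + 3 / 5000) := Real.log_nonneg (by linarith [hu.2])
      have h4 : Real.log (2 - 3 * u + 3 / 5000) ≤ 1 := by
        have := Real.log_le_sub_one_of_pos (show 0 < 2 - 3 * u + 3 / 5000 by linarith [hu.2])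
        linarith [hu.1]
      unfold G4
      rw [abs_of_nonneg (div_nonneg (by linarith) (by linarith)), div_le_iff₀ (by linarith)]
      linarith) (by
      intro u hu v hv
      unfold G4
      have hu1 : 3 / 5 ≤ 1 - 1 / 5000 - u := by linarith [hu.2]
      have hv1 : 3 / 5 ≤ 1 - 1 / 5000 - v := by linarith [hv.2]
      have hlu : 0 ≤ Real.log (2 - 3 * v + 3 / 5000) := Real.log_nonneg (by linarith [hv.2])
      have hlu2 : Real.log (2 - 3 * v + 3 / 5000) ≤ 2 / 3 := by
        have := Real.log_le_sub_one_of_pos (show 0 < 2 - 3 * v + 3 / 5000 by linarith [hv.2])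
        linarith [hv.1]
      have h4 : (Real.log (2 - 3 * u + 3 / 5000) + 7 / 5000) / (1 - 1 / 5000 - u) -
          (Real.log (2 - 3 * v + 3 / 5000) + 7 / 5000) / (1 - 1 / 5000 - v) =
          (Real.log (2 - 3 * u + 3 / 5000) - Real.log (2 - 3 * v + 3 / 5000)) / (1 - 1 / 5000 - u) +
            (Real.log (2 - 3 * v + 3 / 5000) + 7 / 5000) *
              ((u - v) / ((1 - 1 / 5000 - u) * (1 - 1 / 5000 - v))) := by
        obtain ⟨a, ha⟩ : ∃ a, a = 1 - 1 / 5000 - u := ⟨_, rfl⟩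
        obtain ⟨b, hb⟩ : ∃ b, b = 1 - 1 / 5000 - v := ⟨_, rfl⟩
        have huv : u - v = b - a := by rw [ha, hb]; ring
        rw [huv, ← ha, ← hb]
        have ha0 : a ≠ 0 := by linarith
        have hb0 : b ≠ 0 := by linarith
        field_simp
        ring
      rw [h4]
      refine (abs_add_le _ _).trans ?_
      have h5 : |(Real.log (2 - 3 * u + 3 / 5000) - Real.log (2 - 3 * v + 3 / 5000)) /
          (1 - 1 / 5000 - u)| ≤ 5 * |u - v| := by
        rw [abs_div, abs_of_pos (by linarith : 0 < 1 - 1 / 5000 - u), div_le_iff₀ (by linarith)]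
        have h6 := log_lip (a := 2 - 3 * u + 3 / 5000) (b := 2 - 3 * v + 3 / 5000)
          (by linarith [hu.2]) (by linarith [hv.2])
        have h7 : 2 - 3 * u + 3 / 5000 - (2 - 3 * v + 3 / 5000) = -3 * (u - v) := by ring
        rw [h7, abs_mul] at h6
        norm_num at h6
        nlinarith [abs_nonneg (u - v)]
      have h6 : |(Real.log (2 - 3 * v + 3 / 5000) + 7 / 5000) *
          ((u - v) / ((1 - 1 / 5000 - u) * (1 - 1 / 5000 - v)))| ≤ 3 * |u - v| := by
        have h8 : (3 / 5) * (3 / 5) ≤ (1 - 1 / 5000 - u) * (1 - 1 / 5000 - v) := by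
          apply mul_le_mul hu1 hv1 (by norm_num) (by linarith)
        rw [abs_mul, abs_of_nonneg (by linarith : 0 ≤ Real.log (2 - 3 * v + 3 / 5000) + 7 / 5000),
          abs_div, abs_of_pos (by linarith : 0 < (1 - 1 / 5000 - u) * (1 - 1 / 5000 - v))]
        have h7 : |u - v| / ((1 - 1 / 5000 - u) * (1 - 1 / 5000 - v)) ≤ 25 / 9 * |u - v| := by
          rw [div_le_iff₀ (by linarith)]
          nlinarith [abs_nonneg (u - v)]
        have h9 : 0 ≤ |u - v| / ((1 - 1 / 5000 - u) * (1 - 1 / 5000 - v)) := by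
          apply div_nonneg (abs_nonneg _); linarith
        nlinarith
      nlinarith [abs_nonneg (u - v)])
  -- sum of g
  have hg1 : ∑ p ∈ S, g p ≤ 3 := by
    have h2 := sum_g_le (ω := 1 / 8 * X) (by positivity) (by linarith) hg
      (v := 8 * (1 / 3 + 1 / 5000)) (by norm_num)
    have h3 : 8 * (1 / 3 + 1 / 5000) * (1 / 8 * X) = (1 / 3 + 1 / 5000) * X := by ring
    rw [h3] at h2
    refine h2.trans (by norm_num)
  have h2 : ∑ p ∈ S, g p *
      ∑ q ∈ PI (Real.exp (1 / 3 * X)) (Real.exp ((1 + 1 / 5000 - Real.log p / X) / 2 * X)),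
        g q * (1 / (1 - 1 / 5000 - Real.log p / X - Real.log q / X)) ≤
      ∑ p ∈ S, g p * (G4 (Real.log p / X) + 1 / 1000) := by
    apply Finset.sum_le_sum
    intro p hp
    have hp1 := mem_PI_exp hX0 hp
    exact mul_le_mul_of_nonneg_left (H1 X hXX1 g hg (Real.log p / X) hp1.1 hp1.2.1.le) (hg.1 p)
  simp only [mul_add, Finset.sum_add_distrib] at h2
  rw [← Finset.sum_mul] at h2
  have h3 := (abs_le.mp h1).2
  rw [← hS] at h3
  have h4 := G4_integral
  linarith

/-- **(A4)** -/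
theorem S3_sum : ∃ c3 : ℝ, c3 < Real.log (3 / 2) ∧ ∀ ε : ℝ, 0 < ε → ∃ L0 : ℝ, ∀ l : ℝ, L0 ≤ l →
    ∑ p1 ∈ PI (Real.exp (l / 8)) (2 * Real.exp (l / 3)),
      ∑ p2 ∈ PI (Real.exp (l / 3)) (√(3 * Real.exp l / p1)),
        1 / ((p1 : ℝ) * p2 * Real.log (Real.exp l / (9 * p1 * p2))) ≤ (c3 + ε) / l := by
  refine ⟨2 / 5, log_three_half_gt, ?_⟩
  intro ε hε
  obtain ⟨C, hC, hdim⟩ := dim_inv
  obtain ⟨X0, hX0, H⟩ := S3_double C hC
  refine ⟨max X0 15000, ?_⟩
  intro l hl
  have hl1 : X0 ≤ l := (le_max_left _ _).trans hl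
  have hl2 : 15000 ≤ l := (le_max_right _ _).trans hl
  have hl0 : 0 < l := by linarith
  have hg := (hdim (1 / 8 * l) (by linarith)).1
  have hH := H l hl1 _ hg
  have hlog9 : Real.log 9 ≤ 1 / 5000 * l := by
    have h1 : Real.log 9 = 2 * Real.log 3 := by
      rw [show (9 : ℝ) = 3 ^ 2 by norm_num, Real.log_pow]; norm_num
    have h2 := Real.log_le_sub_one_of_pos (show (0 : ℝ) < 3 / 2 by norm_num)
    have h3 : Real.log (3 / 2) = Real.log 3 - Real.log 2 := Real.log_div (by norm_num) (by norm_num)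
    have := Real.log_two_lt_d9
    linarith
  have hlog3 : Real.log 3 ≤ 1 / 5000 * l := by
    have h1 : Real.log 3 ≤ Real.log 9 := Real.log_le_log (by norm_num) (by norm_num)
    linarith
  have hsub : PI (Real.exp (l / 8)) (2 * Real.exp (l / 3)) ⊆
      PI (Real.exp (1 / 8 * l)) (Real.exp ((1 / 3 + 1 / 5000) * l)) := by
    have e1 : l / 8 = 1 / 8 * l := by ring
    rw [e1]
    apply PI_mono
    have h4 : (1 / 3 + 1 / 5000) * l = 1 / 5000 * l + l / 3 := by ring
    rw [h4, Real.exp_add]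
    apply mul_le_mul_of_nonneg_right _ (Real.exp_pos _).le
    have := Real.add_one_le_exp (1 / 5000 * l)
    linarith
  have hpos : ∀ p1 ∈ PI (Real.exp (1 / 8 * l)) (Real.exp ((1 / 3 + 1 / 5000) * l)),
      ∀ p2 ∈ PI (Real.exp (1 / 3 * l)) (Real.exp ((1 + 1 / 5000 - Real.log p1 / l) / 2 * l)),
      0 < 1 - 1 / 5000 - Real.log p1 / l - Real.log p2 / l := by
    intro p1 hp1 p2 hp2
    have h1 := mem_PI_exp hl0 hp1
    have h2 := mem_PI_exp hl0 hp2
    linarith [h1.1, h1.2.1, h2.2.1]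
  rw [le_div_iff₀ hl0, Finset.sum_mul]
  refine le_trans ?_ (show (2 / 5 : ℝ) ≤ 2 / 5 + ε by linarith)
  refine le_trans ?_ hH
  calc ∑ p1 ∈ PI (Real.exp (l / 8)) (2 * Real.exp (l / 3)),
        (∑ p2 ∈ PI (Real.exp (l / 3)) (√(3 * Real.exp l / p1)),
        1 / ((p1 : ℝ) * p2 * Real.log (Real.exp l / (9 * p1 * p2)))) * l
      ≤ ∑ p ∈ PI (Real.exp (l / 8)) (2 * Real.exp (l / 3)), 1 / (p : ℝ) *
      ∑ q ∈ PI (Real.exp (1 / 3 * l)) (Real.exp ((1 + 1 / 5000 - Real.log p / l) / 2 * l)),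
        1 / (q : ℝ) * (1 / (1 - 1 / 5000 - Real.log p / l - Real.log q / l)) := by
        apply Finset.sum_le_sum
        intro p1 hp1
        have hp1' := hsub hp1
        have h1 := mem_PI_exp hl0 hp1'
        have hp1p : (0 : ℝ) < p1 := by
          rw [mem_PI] at hp1
          exact_mod_cast hp1.1.pos
        have hsub2 : PI (Real.exp (l / 3)) (√(3 * Real.exp l / p1)) ⊆
            PI (Real.exp (1 / 3 * l)) (Real.exp ((1 + 1 / 5000 - Real.log p1 / l) / 2 * l)) := by
          have e1 : l / 3 = 1 / 3 * l := by ring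
          rw [e1]
          apply PI_mono
          rw [Real.sqrt_le_left (Real.exp_pos _).le, ← Real.exp_nat_mul]
          have h2 : 3 * Real.exp l / p1 = Real.exp (Real.log 3 + l - Real.log p1) := by
            rw [Real.exp_sub, Real.exp_add, Real.exp_log (by norm_num), Real.exp_log hp1p]
          rw [h2]
          apply Real.exp_le_exp.mpr
          have h3 : ((2 : ℕ) : ℝ) * ((1 + 1 / 5000 - Real.log p1 / l) / 2 * l) =
              l + 1 / 5000 * l - Real.log p1 := by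
            push_cast
            field_simp
          rw [h3]
          linarith
        calc (∑ p2 ∈ PI (Real.exp (l / 3)) (√(3 * Real.exp l / p1)),
            1 / ((p1 : ℝ) * p2 * Real.log (Real.exp l / (9 * p1 * p2)))) * l
            ≤ ∑ p2 ∈ PI (Real.exp (l / 3)) (√(3 * Real.exp l / p1)), 1 / (p1 : ℝ) *
              (1 / (p2 : ℝ) * (1 / (1 - 1 / 5000 - Real.log p1 / l - Real.log p2 / l))) := by
              rw [Finset.sum_mul]
              apply Finset.sum_le_sum
              intro p2 hp2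
              have hp2' := hsub2 hp2
              have hps := hpos p1 hp1' p2 hp2'
              have hp2p : (0 : ℝ) < p2 := by
                rw [mem_PI] at hp2
                exact_mod_cast hp2.1.pos
              have h2 : Real.log (Real.exp l / (9 * p1 * p2)) =
                  l - Real.log 9 - Real.log p1 - Real.log p2 := by
                rw [Real.log_div (Real.exp_ne_zero _) (by positivity), Real.log_exp,
                  Real.log_mul (by positivity) (by positivity), Real.log_mul (by norm_num) (by positivity)]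
                ring
              have h3 : (1 - 1 / 5000 - Real.log p1 / l - Real.log p2 / l) * l ≤
                  l - Real.log 9 - Real.log p1 - Real.log p2 := by
                have h4 : (1 - 1 / 5000 - Real.log p1 / l - Real.log p2 / l) * l =
                    l - 1 / 5000 * l - Real.log p1 - Real.log p2 := by field_simp
                rw [h4]; linarith
              rw [h2]
              have h5 : 0 < (1 - 1 / 5000 - Real.log p1 / l - Real.log p2 / l) * l := mul_pos hps hl0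
              calc 1 / ((p1 : ℝ) * p2 * (l - Real.log 9 - Real.log p1 - Real.log p2)) * l
                  ≤ 1 / ((p1 : ℝ) * p2 * ((1 - 1 / 5000 - Real.log p1 / l - Real.log p2 / l) * l)) * l := by
                    gcongr
                _ = 1 / (p1 : ℝ) *
                    (1 / (p2 : ℝ) * (1 / (1 - 1 / 5000 - Real.log p1 / l - Real.log p2 / l))) := by
                    obtain ⟨w, hw⟩ : ∃ w, w = 1 - 1 / 5000 - Real.log p1 / l - Real.log p2 / l := ⟨_, rfl⟩
                    rw [← hw] at hps ⊢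
                    field_simp
          _ = 1 / (p1 : ℝ) * ∑ p2 ∈ PI (Real.exp (l / 3)) (√(3 * Real.exp l / p1)),
              (1 / (p2 : ℝ) * (1 / (1 - 1 / 5000 - Real.log p1 / l - Real.log p2 / l))) := by
              rw [Finset.mul_sum]
          _ ≤ _ := by
              apply mul_le_mul_of_nonneg_left _ (by positivity)
              apply Finset.sum_le_sum_of_subset_of_nonneg hsub2
              intro p2 hp2 _
              have := hpos p1 hp1' p2 hp2
              positivity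
    _ ≤ _ := by
        apply Finset.sum_le_sum_of_subset_of_nonneg hsub
        intro p1 hp1 _
        apply mul_nonneg (by positivity)
        apply Finset.sum_nonneg
        intro p2 hp2
        have := hpos p1 hp1 p2 hp2
        positivity

/-! ### (A5) -/

lemma prod_one_sub_inv_sq (n : ℕ) (hn : 2 ≤ n) :
    1 / 2 ≤ ∏ k ∈ Icc 2 n, (1 - 1 / (k : ℝ) ^ 2) := by
  have key : ∀ n : ℕ, 2 ≤ n →
      ∏ k ∈ Icc 2 n, (1 - 1 / (k : ℝ) ^ 2) = ((n : ℝ) + 1) / (2 * n) := by
    intro n hn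
    induction n, hn using Nat.le_induction with
    | base => norm_num
    | succ n hn ih =>
      rw [Finset.prod_Icc_succ_top (by omega), ih]
      have h1 : (n : ℝ) ≠ 0 := by
        have : n ≠ 0 := by omega
        exact_mod_cast this
      have h2 : (n : ℝ) + 1 ≠ 0 := by positivity
      push_cast
      field_simp
      ring
  rw [key n hn, div_le_div_iff₀ (by norm_num) (by positivity)]
  linarith

lemma prod_g1_factor {u v : ℝ} (hu : 3 ≤ u) :
    1 / 2 * ∏ p ∈ PI u v, (1 - 1 / (p : ℝ)) ≤ ∏ p ∈ PI u v, (1 - 1 / ((p : ℝ) - 1)) ∧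
    ∏ p ∈ PI u v, (1 - 1 / ((p : ℝ) - 1)) ≤ ∏ p ∈ PI u v, (1 - 1 / (p : ℝ)) := by
  have hp3 : ∀ p ∈ PI u v, (3 : ℝ) ≤ p := fun p hp => hu.trans (mem_PI.mp hp).2.1
  have hp3' : ∀ p ∈ PI u v, 3 ≤ p := fun p hp => by exact_mod_cast hp3 p hp
  have e1 : ∀ p ∈ PI u v, 1 - 1 / ((p : ℝ) - 1) = (1 - 1 / (p : ℝ)) * (1 - 1 / ((p : ℝ) - 1) ^ 2) := by
    intro p hp
    have := hp3 p hp
    have h1 : (p : ℝ) ≠ 0 := by linarith
    have h2 : (p : ℝ) - 1 ≠ 0 := by linarith
    field_simp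
    ring
  have e2 : ∏ p ∈ PI u v, (1 - 1 / ((p : ℝ) - 1)) =
      (∏ p ∈ PI u v, (1 - 1 / (p : ℝ))) * ∏ p ∈ PI u v, (1 - 1 / ((p : ℝ) - 1) ^ 2) := by
    rw [← Finset.prod_mul_distrib]
    exact Finset.prod_congr rfl e1
  have h1 : 0 ≤ ∏ p ∈ PI u v, (1 - 1 / (p : ℝ)) := by
    apply Finset.prod_nonneg
    intro p hp
    have := hp3 p hp
    have : 1 / (p : ℝ) ≤ 1 := by rw [div_le_one (by linarith)]; linarith
    linarith
  have hf : ∀ p ∈ PI u v, 0 ≤ 1 - 1 / ((p : ℝ) - 1) ^ 2 ∧ 1 - 1 / ((p : ℝ) - 1) ^ 2 ≤ 1 := by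
    intro p hp
    have h2 := hp3 p hp
    have h3 : 1 ≤ ((p : ℝ) - 1) ^ 2 := by nlinarith
    have h4 : 1 / ((p : ℝ) - 1) ^ 2 ≤ 1 := by rw [div_le_one (by linarith)]; exact h3
    have h5 : 0 ≤ 1 / ((p : ℝ) - 1) ^ 2 := by positivity
    constructor <;> linarith
  have h2 : 1 / 2 ≤ ∏ p ∈ PI u v, (1 - 1 / ((p : ℝ) - 1) ^ 2) := by
    set n := ⌈v⌉₊ + 2 with hn
    have h3 : ∏ p ∈ PI u v, (1 - 1 / ((p : ℝ) - 1) ^ 2) =
        ∏ k ∈ (PI u v).image (fun p : ℕ => p - 1), (1 - 1 / ((k : ℕ) : ℝ) ^ 2) := by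
      rw [Finset.prod_image]
      · apply Finset.prod_congr rfl
        intro p hp
        have := hp3' p hp
        rw [Nat.cast_sub (by omega), Nat.cast_one]
      · intro a ha b hb hab
        have h4 := hp3' a ha
        have h5 := hp3' b hb
        simp only at hab
        omega
    rw [h3]
    refine (prod_one_sub_inv_sq n (by omega)).trans ?_
    have hsub : (PI u v).image (fun p : ℕ => p - 1) ⊆ Icc 2 n := by
      intro k hk
      rw [mem_image] at hk
      obtain ⟨p, hp, rfl⟩ := hk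
      have h4 := hp3' p hp
      have h5 : p < ⌈v⌉₊ := Nat.lt_ceil.mpr (mem_PI.mp hp).2.2
      rw [mem_Icc]
      omega
    have hfk : ∀ k ∈ Icc 2 n, 0 ≤ 1 - 1 / (k : ℝ) ^ 2 ∧ 1 - 1 / (k : ℝ) ^ 2 ≤ 1 := by
      intro k hk
      rw [mem_Icc] at hk
      have h4 : (2 : ℝ) ≤ k := by exact_mod_cast hk.1
      have h5 : 1 ≤ (k : ℝ) ^ 2 := by nlinarith
      have h6 : 1 / (k : ℝ) ^ 2 ≤ 1 := by rw [div_le_one (by linarith)]; exact h5
      have h7 : 0 ≤ 1 / (k : ℝ) ^ 2 := by positivity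
      constructor <;> linarith
    rw [← Finset.prod_sdiff hsub]
    have h4 : ∏ k ∈ Icc 2 n \ (PI u v).image (fun p : ℕ => p - 1), (1 - 1 / (k : ℝ) ^ 2) ≤ 1 :=
      Finset.prod_le_one (fun k hk => (hfk k (mem_sdiff.mp hk).1).1)
        (fun k hk => (hfk k (mem_sdiff.mp hk).1).2)
    have h5 : 0 ≤ ∏ k ∈ (PI u v).image (fun p : ℕ => p - 1), (1 - 1 / ((k : ℕ) : ℝ) ^ 2) :=
      Finset.prod_nonneg fun k hk => (hfk k (hsub hk)).1
    nlinarith
  have h3 : ∏ p ∈ PI u v, (1 - 1 / ((p : ℝ) - 1) ^ 2) ≤ 1 :=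
    Finset.prod_le_one (fun p hp => (hf p hp).1) (fun p hp => (hf p hp).2)
  rw [e2]
  constructor <;> nlinarith

/-- **(A5)** for `1 / p` -/
theorem V_bounds_inv : ∃ c C : ℝ, 0 < c ∧ 0 < C ∧ ∀ u v : ℝ, 3 ≤ u → u ≤ v →
    c * (Real.log u / Real.log v) ≤ ∏ p ∈ PI u v, (1 - 1 / (p : ℝ)) ∧
    ∏ p ∈ PI u v, (1 - 1 / (p : ℝ)) ≤ C * (Real.log u / Real.log v) := by
  obtain ⟨c, hc, hV⟩ := H16.Vp_ge
  refine ⟨c / 2, 2 / c, by positivity, by positivity, ?_⟩
  intro u v hu huv
  set m := ⌈u⌉₊ - 1 with hm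
  set n := ⌈v⌉₊ - 1 with hn
  have hmu : 3 ≤ ⌈u⌉₊ := by
    have : (3 : ℝ) ≤ ⌈u⌉₊ := hu.trans (Nat.le_ceil u)
    exact_mod_cast this
  have huv' : ⌈u⌉₊ ≤ ⌈v⌉₊ := Nat.ceil_mono huv
  have hm2 : 2 ≤ m := by omega
  have hn2 : 2 ≤ n := by omega
  have hmn : m ≤ n := by omega
  have hPI : PI u v = H16.primesIoc m n := by
    ext p
    rw [mem_PI, H16.mem_primesIoc, ← Nat.lt_ceil, ← Nat.ceil_le]
    constructor
    · rintro ⟨h1, h2, h3⟩
      exact ⟨by omega, by omega, h1⟩
    · rintro ⟨h1, h2, h3⟩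
      exact ⟨h3, by omega, by omega⟩
  have hmul := H16.Vp_mul m n hmn
  rw [← hPI] at hmul
  have hVm := H16.Vp_pos m
  have hprod : ∏ p ∈ PI u v, (1 - 1 / (p : ℝ)) = H16.Vp n / H16.Vp m := by
    rw [← hmul]; field_simp
  have hlog : ∀ t : ℝ, 3 ≤ t → Real.log t / 2 ≤ Real.log ((⌈t⌉₊ - 1 : ℕ) : ℝ) ∧
      Real.log ((⌈t⌉₊ - 1 : ℕ) : ℝ) ≤ Real.log t ∧ 0 < Real.log t := by
    intro t ht
    have ht1 : 3 ≤ ⌈t⌉₊ := by
      have : (3 : ℝ) ≤ ⌈t⌉₊ := ht.trans (Nat.le_ceil t)
      exact_mod_cast this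
    have ht2 : ((⌈t⌉₊ - 1 : ℕ) : ℝ) = (⌈t⌉₊ : ℝ) - 1 := by
      rw [Nat.cast_sub (by omega)]; simp
    have ht3 : (⌈t⌉₊ : ℝ) < t + 1 := Nat.ceil_lt_add_one (by linarith)
    have ht4 := Nat.le_ceil t
    rw [ht2]
    refine ⟨?_, ?_, Real.log_pos (by linarith)⟩
    · have h5 : Real.log t ≤ 2 * Real.log ((⌈t⌉₊ : ℝ) - 1) := by
        have h6 : 2 * Real.log ((⌈t⌉₊ : ℝ) - 1) = Real.log (((⌈t⌉₊ : ℝ) - 1) ^ 2) := by
          rw [Real.log_pow]; norm_num
        rw [h6]
        apply Real.log_le_log (by linarith)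
        nlinarith
      linarith
    · apply Real.log_le_log (by linarith)
      linarith
  obtain ⟨a1, a2, a3⟩ := hlog u hu
  obtain ⟨b1, b2, b3⟩ := hlog v (hu.trans huv)
  rw [← hm] at a1 a2
  rw [← hn] at b1 b2
  have hlm : 0 < Real.log (m : ℝ) := by linarith
  have hln : 0 < Real.log (n : ℝ) := by linarith
  have v1 := H16.Vp_le m hm2
  have v2 := hV m hm2
  have v3 := H16.Vp_le n hn2
  have v4 := hV n hn2
  rw [hprod]
  constructor
  · rw [le_div_iff₀ hVm]
    calc c / 2 * (Real.log u / Real.log v) * H16.Vp m ≤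
        c / 2 * (Real.log u / Real.log v) * (1 / Real.log m) := by gcongr
      _ ≤ c / 2 * (2 * Real.log m / Real.log n) * (1 / Real.log m) := by
          gcongr
          linarith
      _ = c / Real.log n := by field_simp
      _ ≤ _ := v4
  · rw [div_le_iff₀ hVm]
    calc H16.Vp n ≤ 1 / Real.log n := v3
      _ ≤ 1 / (Real.log v / 2) := by gcongr
      _ = 2 / c * (1 / Real.log v) * c := by field_simp
      _ ≤ 2 / c * (Real.log u / Real.log m / Real.log v) * c := by
          gcongr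
          rw [le_div_iff₀ hlm]; linarith
      _ = 2 / c * (Real.log u / Real.log v) * (c / Real.log m) := by field_simp
      _ ≤ _ := by gcongr

/-- **(A5)** -/
theorem V_bounds : ∃ c C : ℝ, 0 < c ∧ 0 < C ∧ ∀ u v : ℝ, 3 ≤ u → u ≤ v →
    c * (Real.log u / Real.log v) ≤ ∏ p ∈ PI u v, (1 - 1 / ((p : ℝ) - 1)) ∧
    ∏ p ∈ PI u v, (1 - 1 / ((p : ℝ) - 1)) ≤ C * (Real.log u / Real.log v) := by
  obtain ⟨c, C, hc, hC, H⟩ := V_bounds_inv
  refine ⟨c / 2, C, by positivity, hC, ?_⟩
  intro u v hu huv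
  obtain ⟨h1, h2⟩ := H u v hu huv
  obtain ⟨h3, h4⟩ := prod_g1_factor (v := v) hu
  constructor
  · refine le_trans ?_ h3
    have : c / 2 * (Real.log u / Real.log v) = 1 / 2 * (c * (Real.log u / Real.log v)) := by ring
    rw [this]
    linarith
  · exact h4.trans h2

end Pool.Agent.H90.LS
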